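import Pool.Agent.Helper29.WV.Defs

/-! Theorem C : stars and the caterpillars `C(lam,k)`, `k < lam`, are woven. -/

namespace WV

open SimpleGraph

/-- vertices of the caterpillar `C(lam,k)`: the centre `c`, its two big neighbours `x i`, the leaves `l i j`
at `x i`, and the leaves `e j` at the centre. -/
inductive CatV (lam k : ℕ)
  | c : CatV lam k
  | x : Bool → CatV lam k
  | l : Bool → Fin lam → CatV lam k
  | e : Fin k → CatV lam k
  deriving DecidableEq, Fintype

/-- the neighbour of a vertex of the caterpillar on the way to the centre `c`. -/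
def catPar {lam k : ℕ} : CatV lam k → CatV lam k
  | .c => .c
  | .x _ => .c
  | .l i _ => .x i
  | .e _ => .c

/-- the caterpillar `C(lam,k)`. -/
def Cat (lam k : ℕ) : SimpleGraph (CatV lam k) where
  Adj a b := a ≠ b ∧ (catPar a = b ∨ catPar b = a)
  symm := ⟨fun _ _ h => ⟨h.1.symm, h.2.symm⟩⟩
  loopless := ⟨fun _ h => h.1 rfl⟩

/-- the star with `s` edges. -/
def Star (s : ℕ) : SimpleGraph (Option (Fin s)) where
  Adj a b := a ≠ b ∧ (a = none ∨ b = none)
  symm := ⟨fun _ _ h => ⟨h.1.symm, h.2.symm⟩⟩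
  loopless := ⟨fun _ h => h.1 rfl⟩

section many
variable {A W : Type} [Fintype A] {T : SimpleGraph A} {F : SimpleGraph W} {u v : W}

omit [Fintype A] in
/-- two copies share no edge at `u` or `v` except `uv` -/
def Sep (T : SimpleGraph A) (F : SimpleGraph W) (u v : W) (f g : Copy T F) : Prop :=
  ∀ a b a' b', T.Adj a b → T.Adj a' b' → s(f a, f b) = s(g a', g b') →
    (u ∈ s(f a, f b) ∨ v ∈ s(f a, f b)) → s(f a, f b) = s(u, v)

omit [Fintype A] in
lemma Sep.symm {f g : Copy T F} (h : Sep T F u v f g) : Sep T F u v g f := by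
  intro a b a' b' h1 h2 h3 h4
  rw [h3] at h4 ⊢
  exact h a' b' a b h2 h1 h3.symm h4

omit [Fintype A] in
lemma Sep.swap {f g : Copy T F} (h : Sep T F u v f g) : Sep T F v u f g := by
  intro a b a' b' h1 h2 h3 h4
  rw [h a b a' b' h1 h2 h3 h4.symm, Sym2.eq_swap]

omit [Fintype A] in
lemma Sep.nbr {f g : Copy T F} (h : Sep T F u v f g) {a b x y : A} (ha : f a = u) (hb : f b = v)
    (ha' : g a = u) (hx : T.Adj a x) (hxb : x ≠ b) (hy : T.Adj a y) : f x ≠ g y := by
  intro e
  have h1 := h a x a y hx hy (by rw [ha, ha', e]) (Or.inl (by rw [ha]; exact Sym2.mem_mk_left _ _))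
  rw [ha, Sym2.eq_iff] at h1
  have h2 : f x = v := by
    rcases h1 with h1 | h1
    · exact h1.2
    · rw [h1.2, h1.1]
  exact hxb (f.injective (h2.trans hb.symm))

/-- no sets of at most `k` edges at `u` and at `v` meet all copies of `T` -/
def NoHit (T : SimpleGraph A) (F : SimpleGraph W) (u v : W) (k : ℕ) : Prop :=
  ∀ X Y : Finset (Sym2 W), X.card ≤ k → Y.card ≤ k →
      (∀ e ∈ X, e ∈ F.edgeSet ∧ e ≠ s(u, v) ∧ u ∈ e) →
      (∀ e ∈ Y, e ∈ F.edgeSet ∧ e ≠ s(u, v) ∧ v ∈ e) →
      ∃ f : Copy T F, ∀ a b, T.Adj a b → s(f a, f b) ∉ X ∧ s(f a, f b) ∉ Y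

lemma many_sep {k : ℕ} (hno : NoHit T F u v k) :
    ∀ M, M * (Fintype.card A * Fintype.card A) ≤ k → ∃ f : ℕ → Copy T F,
      ∀ i < M, ∀ j < M, i ≠ j → Sep T F u v (f i) (f j) := by
  classical
  intro M
  induction M with
  | zero =>
    intro _
    obtain ⟨f, _⟩ := hno ∅ ∅ (by simp) (by simp) (by simp) (by simp)
    exact ⟨fun _ => f, fun i hi => absurd hi (Nat.not_lt_zero i)⟩
  | succ M ih =>
    intro hM
    have hM' : M * (Fintype.card A * Fintype.card A) ≤ k := by
      refine le_trans ?_ hM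
      exact Nat.mul_le_mul_right _ (Nat.le_succ M)
    obtain ⟨f, hf⟩ := ih hM'
    set E : Finset (Sym2 W) := (Finset.range M).biUnion (fun i =>
      ((Finset.univ : Finset (A × A)).filter (fun p => T.Adj p.1 p.2)).image
        (fun p => s(f i p.1, f i p.2))) with hE
    have hEcard : E.card ≤ k := by
      refine le_trans ?_ hM'
      have h1 := Finset.card_biUnion_le_card_mul (Finset.range M) (fun i =>
      ((Finset.univ : Finset (A × A)).filter (fun p => T.Adj p.1 p.2)).image
        (fun p => s(f i p.1, f i p.2))) (Fintype.card A * Fintype.card A) (by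
          intro i _
          refine Finset.card_image_le.trans ((Finset.card_le_univ _).trans ?_)
          rw [Fintype.card_prod])
      rwa [Finset.card_range] at h1
    have hEmem : ∀ e ∈ E, e ∈ F.edgeSet := by
      intro e he
      simp only [hE, Finset.mem_biUnion, Finset.mem_image, Finset.mem_filter, Finset.mem_univ,
        true_and] at he
      obtain ⟨i, _, p, hp, rfl⟩ := he
      exact (f i).toHom.map_adj hp
    obtain ⟨g, hg⟩ := hno (E.filter (fun e => e ≠ s(u, v) ∧ u ∈ e)) (E.filter (fun e => e ≠ s(u, v) ∧ v ∈ e))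
      ((Finset.card_filter_le _ _).trans hEcard) ((Finset.card_filter_le _ _).trans hEcard)
      (fun e he => ⟨hEmem e (Finset.mem_filter.1 he).1, (Finset.mem_filter.1 he).2⟩)
      (fun e he => ⟨hEmem e (Finset.mem_filter.1 he).1, (Finset.mem_filter.1 he).2⟩)
    have hsep : ∀ i < M, Sep T F u v (f i) g := by
      intro i hi a b a' b' h1 h2 h3 h4
      by_contra hne
      have hmem : s(f i a, f i b) ∈ E := by
        simp only [hE, Finset.mem_biUnion, Finset.mem_image, Finset.mem_filter, Finset.mem_univ,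
          true_and]
        exact ⟨i, Finset.mem_range.2 hi, (a, b), h1, rfl⟩
      obtain ⟨h5, h6⟩ := hg a' b' h2
      rw [← h3] at h5 h6
      rcases h4 with h4 | h4
      · exact h5 (Finset.mem_filter.2 ⟨hmem, hne, h4⟩)
      · exact h6 (Finset.mem_filter.2 ⟨hmem, hne, h4⟩)
    refine ⟨Function.update f M g, ?_⟩
    intro i hi j hj hij
    rcases Nat.lt_succ_iff_lt_or_eq.1 hi with hi | rfl
    · rw [Function.update_of_ne hi.ne]
      rcases Nat.lt_succ_iff_lt_or_eq.1 hj with hj | rfl
      · rw [Function.update_of_ne hj.ne]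
        exact hf i hi j hj hij
      · rw [Function.update_self]
        exact hsep i hi
    · rw [Function.update_self]
      rcases Nat.lt_succ_iff_lt_or_eq.1 hj with hj | rfl
      · rw [Function.update_of_ne hj.ne]
        exact (hsep j hj).symm
      · exact absurd rfl hij

lemma many_same {k : ℕ} (hall : ∀ f : Copy T F, ∃ a b, T.Adj a b ∧ s(f a, f b) = s(u, v))
    (hno : NoHit T F u v k) (L : ℕ)
    (hk : (Fintype.card A * Fintype.card A * L + 1) * (Fintype.card A * Fintype.card A) ≤ k) :
    ∃ (f : ℕ → Copy T F) (S : Finset ℕ) (a b : A), T.Adj a b ∧ L < S.card ∧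
      (∀ i ∈ S, f i a = u ∧ f i b = v) ∧
      ∀ i ∈ S, ∀ j ∈ S, i ≠ j → Sep T F u v (f i) (f j) := by
  classical
  obtain ⟨f, hf⟩ := many_sep hno _ hk
  have hall' : ∀ i, ∃ p : A × A, T.Adj p.1 p.2 ∧ f i p.1 = u ∧ f i p.2 = v := by
    intro i
    obtain ⟨a, b, hab, he⟩ := hall (f i)
    rw [Sym2.eq_iff] at he
    rcases he with he | he
    · exact ⟨(a, b), hab, he⟩
    · exact ⟨(b, a), hab.symm, he.2, he.1⟩
  choose p hp1 hp2 hp3 using hall'
  obtain ⟨y, _, hy⟩ := Finset.exists_lt_card_fiber_of_mul_lt_card_of_maps_to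
    (s := Finset.range (Fintype.card A * Fintype.card A * L + 1)) (t := (Finset.univ : Finset (A × A)))
    (f := p) (n := L) (fun i _ => Finset.mem_univ _) (by
      rw [Finset.card_univ, Fintype.card_prod, Finset.card_range]; exact Nat.lt_succ_self _)
  have hne : 0 < (Finset.filter (fun x => p x = y) (Finset.range (Fintype.card A * Fintype.card A * L + 1))).card :=
    lt_of_le_of_lt (Nat.zero_le _) hy
  obtain ⟨i0, hi0⟩ := Finset.card_pos.1 hne
  have hi0' := (Finset.mem_filter.1 hi0).2
  refine ⟨f, _, y.1, y.2, ?_, hy, ?_, ?_⟩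
  · rw [← hi0']; exact hp1 i0
  · intro i hi
    have h1 := (Finset.mem_filter.1 hi).2
    rw [← h1]
    exact ⟨hp2 i, hp3 i⟩
  · intro i hi j hj hij
    exact hf i (Finset.mem_range.1 (Finset.mem_filter.1 hi).1) j (Finset.mem_range.1 (Finset.mem_filter.1 hj).1) hij

/-- many copies through `uv` in which `uv` is the same pendant edge: impossible. -/
lemma pendant_case (hall : ∀ f : Copy T F, ∃ a b, T.Adj a b ∧ s(f a, f b) = s(u, v))
    {f : ℕ → Copy T F} {S : Finset ℕ} {a b : A} (hS : Fintype.card A < S.card)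
    (hf : ∀ i ∈ S, f i a = u ∧ f i b = v) (hsep : ∀ i ∈ S, ∀ j ∈ S, i ≠ j → Sep T F u v (f i) (f j))
    (hleaf : ∀ x, T.Adj a x → x = b) {b' : A} (hb' : T.Adj b b') (hne : b' ≠ a) : False := by
  classical
  obtain ⟨i0, hi0⟩ := Finset.card_pos.1 (lt_of_le_of_lt (Nat.zero_le _) hS)
  have hinj : Set.InjOn (fun i => f i b') S := by
    intro i hi j hj e
    by_contra hij
    exact (hsep i hi j hj hij).swap.nbr (hf i hi).2 (hf i hi).1 (hf j hj).2 hb' hne hb' e
  obtain ⟨i, hi, hi'⟩ : ∃ i ∈ S, f i b' ∉ Finset.univ.image (fun x => f i0 x) := by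
    by_contra hcon
    push Not at hcon
    have h1 := Finset.card_le_card_of_injOn _ hcon hinj
    have h2 : (Finset.univ.image (fun x => f i0 x)).card ≤ Fintype.card A :=
      Finset.card_image_le.trans (by rw [Finset.card_univ])
    omega
  simp only [Finset.mem_image, Finset.mem_univ, true_and, not_exists] at hi'
  have hu : f i b' ≠ u := by
    rw [← (hf i hi).1]
    exact fun e => hne ((f i).injective e)
  set g : A → W := Function.update (f i0) a (f i b') with hg
  have hga : g a = f i b' := by rw [hg, Function.update_self]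
  have hgx : ∀ x, x ≠ a → g x = f i0 x := fun x hx => by rw [hg, Function.update_of_ne hx]
  have hba : b ≠ a := by
    intro e
    have h1 := (hf i0 hi0).1
    have h2 := (hf i hi)
    rw [← e] at hne h1
    have h3 : T.Adj a b' := by rw [← e]; exact hb'
    exact hne (by rw [hleaf _ h3])
  have hadj : ∀ x, T.Adj a x → F.Adj (g a) (g x) := by
    intro x hx
    rw [hleaf x hx, hga, hgx b hba, (hf i0 hi0).2, ← (hf i hi).2]
    exact (f i).toHom.map_adj hb'.symm
  have hginj : Function.Injective g := by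
    intro x y hxy
    by_cases hx : x = a
    · by_cases hy : y = a
      · rw [hx, hy]
      · rw [hx, hga, hgx y hy] at hxy
        exact absurd hxy.symm (hi' y)
    · by_cases hy : y = a
      · rw [hy, hga, hgx x hx] at hxy
        exact absurd hxy (hi' x)
      · rw [hgx x hx, hgx y hy] at hxy
        exact (f i0).injective hxy
  have hghom : ∀ {x y}, T.Adj x y → F.Adj (g x) (g y) := by
    intro x y hxy
    by_cases hx : x = a
    · rw [hx] at hxy ⊢; exact hadj y hxy
    · by_cases hy : y = a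
      · rw [hy] at hxy ⊢; exact (hadj x hxy.symm).symm
      · rw [hgx x hx, hgx y hy]; exact (f i0).toHom.map_adj hxy
  obtain ⟨x, y, _, he⟩ := hall ⟨⟨g, hghom⟩, hginj⟩
  have hmem : u ∈ s(g x, g y) := by
    have : s(g x, g y) = s(u, v) := he
    rw [this]; exact Sym2.mem_mk_left _ _
  have hcon : ∀ x, g x ≠ u := by
    intro x hx
    by_cases hxa : x = a
    · rw [hxa, hga] at hx; exact hu hx
    · rw [hgx x hxa, ← (hf i0 hi0).1] at hx
      exact hxa ((f i0).injective hx)
  rw [Sym2.mem_iff] at hmem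
  rcases hmem with h | h
  · exact hcon x h.symm
  · exact hcon y h.symm

omit [Fintype A] in
lemma pick {α : Type} [Fintype α] (S : Finset ℕ) (z : ℕ → W) (hz : Set.InjOn z S) (B : Finset W)
    (h : Fintype.card α + B.card ≤ S.card) :
    ∃ p : α → ℕ, Function.Injective p ∧ ∀ t, p t ∈ S ∧ z (p t) ∉ B := by
  classical
  have h1 : (S.filter (fun i => z i ∈ B)).card ≤ B.card := by
    refine Finset.card_le_card_of_injOn z (fun i hi => (Finset.mem_filter.1 hi).2) ?_
    exact hz.mono (fun i hi => (Finset.mem_filter.1 hi).1)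
  have h2 := Finset.card_filter_add_card_filter_not (s := S) (fun i => z i ∈ B)
  have h3 : Fintype.card α ≤ (S.filter (fun i => ¬ z i ∈ B)).card := by omega
  obtain ⟨e⟩ := Function.Embedding.nonempty_of_card_le (α := α)
    (β := (S.filter (fun i => ¬ z i ∈ B) : Finset ℕ)) (by simpa using h3)
  refine ⟨fun t => (e t).1, fun t t' ht => e.injective (Subtype.ext ht), fun t => ?_⟩
  exact Finset.mem_filter.1 (e t).2

end many

lemma woven_star {s : ℕ} (hs : 2 ≤ s) : Woven (Star s) := by
  classical
  set n := Fintype.card (Option (Fin s)) with hn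
  refine ⟨(n * n * n + 1) * (n * n), ?_⟩
  intro W _ F u v huv hall
  by_contra hcon
  have hno : NoHit (Star s) F u v ((n * n * n + 1) * (n * n)) := by
    intro X Y hX hY hX' hY'
    by_contra hc
    push Not at hc
    apply hcon
    refine ⟨X, Y, hX, hY, hX', hY', fun f => ?_⟩
    obtain ⟨a, b, hab, h⟩ := hc f
    refine ⟨a, b, hab, ?_⟩
    by_cases h1 : s(f a, f b) ∈ X
    · exact Or.inl h1
    · exact Or.inr (h h1)
  obtain ⟨f, S, a, b, hab, hS, hf, hsep⟩ := many_same hall hno n le_rfl
  have hex : ∀ x : Option (Fin s), x ≠ none → ∃ y, (Star s).Adj none y ∧ y ≠ x := by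
    intro x hx
    obtain ⟨j, rfl⟩ := Option.ne_none_iff_exists'.1 hx
    obtain ⟨j', hj'⟩ : ∃ j' : Fin s, j' ≠ j := by
      have : Nontrivial (Fin s) := Fin.nontrivial_iff_two_le.2 hs
      exact exists_ne j
    exact ⟨some j', ⟨by simp, Or.inl rfl⟩, fun e => hj' (Option.some_injective _ e)⟩
  have hleaf : ∀ x y : Option (Fin s), x ≠ none → (Star s).Adj x y → y = none := by
    rintro x y hx ⟨_, h | h⟩
    · exact absurd h hx
    · exact h
  rcases hab.2 with ha | hb
  · -- `b` is a leaf
    have hbn : b ≠ none := fun e => hab.1 (ha.trans e.symm)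
    obtain ⟨y, hy, hyb⟩ := hex b hbn
    refine pendant_case (T := Star s) (F := F) (u := v) (v := u) ?_ hS (a := b) (b := a) (fun i hi => (hf i hi).symm)
      (fun i hi j hj hij => (hsep i hi j hj hij).swap) ?_ (b' := y) (by rw [ha]; exact hy) hyb
    · intro g
      obtain ⟨x, y, hxy, he⟩ := hall g
      exact ⟨x, y, hxy, by rw [he, Sym2.eq_swap]⟩
    · intro x hx
      rw [ha]; exact hleaf b x hbn hx
  · have han : a ≠ none := fun e => hab.1 (e.trans hb.symm)
    obtain ⟨y, hy, hya⟩ := hex a han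
    refine pendant_case (T := Star s) (F := F) (u := u) (v := v) hall hS (a := a) (b := b) hf hsep ?_
      (b' := y) (by rw [hb]; exact hy) hya
    intro x hx
    rw [hb]; exact hleaf a x han hx

section centre
variable {lam k : ℕ} {W : Type} {F : SimpleGraph W} {u v : W}

def catMap (C : W) (X : Bool → W) (Lf : Bool → Fin lam → W) (E : Fin k → W) : CatV lam k → W
  | .c => C
  | .x i => X i
  | .l i j => Lf i j
  | .e j => E j

lemma catMap_inj {C : W} {X : Bool → W} {Lf : Bool → Fin lam → W} {E : Fin k → W}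
    (hCX : ∀ i, C ≠ X i) (hCL : ∀ i j, C ≠ Lf i j) (hCE : ∀ j, C ≠ E j) (hXX : X true ≠ X false)
    (hXL : ∀ i i' j, X i ≠ Lf i' j) (hXE : ∀ i j, X i ≠ E j) (hLL : ∀ i j j', Lf i j = Lf i j' → j = j')
    (hLL' : ∀ j j', Lf true j ≠ Lf false j') (hLE : ∀ i j j', Lf i j ≠ E j')
    (hEE : ∀ j j', E j = E j' → j = j') : Function.Injective (catMap C X Lf E) := by
  intro a b h
  rcases a with _ | i | ⟨i, j⟩ | j <;> rcases b with _ | i' | ⟨i', j'⟩ | j' <;> simp only [catMap] at h
  · rfl
  · exact absurd h (hCX _)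
  · exact absurd h (hCL _ _)
  · exact absurd h (hCE _)
  · exact absurd h.symm (hCX _)
  · cases i <;> cases i'
    · rfl
    · exact absurd h.symm hXX
    · exact absurd h hXX
    · rfl
  · exact absurd h (hXL _ _ _)
  · exact absurd h (hXE _ _)
  · exact absurd h.symm (hCL _ _)
  · exact absurd h.symm (hXL _ _ _)
  · cases i <;> cases i'
    · rw [hLL _ _ _ h]
    · exact absurd h.symm (hLL' _ _)
    · exact absurd h (hLL' _ _)
    · rw [hLL _ _ _ h]
  · exact absurd h (hLE _ _ _)
  · exact absurd h.symm (hCE _)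
  · exact absurd h.symm (hXE _ _)
  · exact absurd h.symm (hLE _ _ _)
  · rw [hEE _ _ h]

lemma catMap_hom {C : W} {X : Bool → W} {Lf : Bool → Fin lam → W} {E : Fin k → W}
    (hX : ∀ i, F.Adj C (X i)) (hL : ∀ i j, F.Adj (X i) (Lf i j)) (hE : ∀ j, F.Adj C (E j))
    {a b : CatV lam k} (h : (Cat lam k).Adj a b) : F.Adj (catMap C X Lf E a) (catMap C X Lf E b) := by
  have key : ∀ a b : CatV lam k, a ≠ b → catPar a = b → F.Adj (catMap C X Lf E a) (catMap C X Lf E b) := by
    rintro a b hab rfl
    rcases a with _ | i | ⟨i, j⟩ | j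
    · exact absurd rfl hab
    · exact (hX i).symm
    · exact (hL i j).symm
    · exact (hE j).symm
  rcases h.2 with h1 | h1
  · exact key a b h.1 h1
  · exact (key b a h.1.symm h1).symm

lemma cat_adj_cx (i : Bool) : (Cat lam k).Adj .c (.x i) := ⟨by simp, Or.inr rfl⟩
lemma cat_adj_xl (i : Bool) (j : Fin lam) : (Cat lam k).Adj (.x i) (.l i j) := ⟨by simp, Or.inr rfl⟩
lemma cat_adj_ce (j : Fin k) : (Cat lam k).Adj .c (.e j) := ⟨by simp, Or.inr rfl⟩

lemma centre_case (hk : k < lam)
    (hall : ∀ f : Copy (Cat lam k) F, ∃ a b, (Cat lam k).Adj a b ∧ s(f a, f b) = s(u, v))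
    (i : Bool) {f : ℕ → Copy (Cat lam k) F} {S : Finset ℕ}
    (hS : Fintype.card (CatV lam k) * (4 * Fintype.card (CatV lam k)) + 4 * Fintype.card (CatV lam k) < S.card)
    (hf : ∀ j ∈ S, f j .c = u ∧ f j (.x i) = v)
    (hsep : ∀ i ∈ S, ∀ j ∈ S, i ≠ j → Sep (Cat lam k) F u v (f i) (f j)) : False := by
  classical
  set n := Fintype.card (CatV lam k) with hn
  have hkn : k ≤ n := by
    have h1 := Fintype.card_le_of_injective (fun t : Fin k => (CatV.e t : CatV lam k))
      (fun t t' h => by simpa using h)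
    rwa [Fintype.card_fin] at h1
  have hln : Fintype.card (Bool × Fin lam) ≤ n := by
    exact Fintype.card_le_of_injective (fun t : Bool × Fin lam => (CatV.l t.1 t.2 : CatV lam k))
      (fun t t' h => by
        simp only [CatV.l.injEq] at h
        exact Prod.ext h.1 h.2)
  have hn1 : 0 < n := Fintype.card_pos_iff.2 ⟨CatV.c⟩
  -- images
  set im : ℕ → Finset W := fun j => Finset.univ.image (fun a => f j a) with him
  have him_card : ∀ j, (im j).card ≤ n := fun j => Finset.card_image_le.trans (by rw [Finset.card_univ])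
  have him_mem : ∀ j a, f j a ∈ im j := fun j a => Finset.mem_image_of_mem _ (Finset.mem_univ a)
  have hfin : ∀ j a b, f j a = f j b → a = b := fun j a b h => (f j).injective h
  have hcopy : ∀ g : CatV lam k → W, (∀ a b, (Cat lam k).Adj a b → F.Adj (g a) (g b)) →
      Function.Injective g → (∀ a, g a ≠ v) → False := by
    intro g h1 h2 h3
    obtain ⟨a, b, _, he⟩ := hall ⟨⟨g, fun {a b} h => h1 a b h⟩, h2⟩
    have he' : s(g a, g b) = s(u, v) := he
    have hmem : v ∈ s(g a, g b) := by rw [he']; exact Sym2.mem_mk_right _ _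
    rw [Sym2.mem_iff] at hmem
    rcases hmem with h | h
    · exact h3 a h.symm
    · exact h3 b h.symm
  set i' : Bool := !i with hi'
  have hii : i' ≠ i := by rw [hi']; cases i <;> decide
  set z : ℕ → W := fun j => f j (.x i') with hz
  have hzinj : Set.InjOn z S := by
    intro j hj j' hj' e
    by_contra hne
    exact (hsep j hj j' hj' hne).nbr (hf j hj).1 (hf j hj).2 (hf j' hj').1 (cat_adj_cx i')
      (fun e => hii (by simpa using e)) (cat_adj_cx i') e
  have huz : ∀ j ∈ S, F.Adj u (z j) := by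
    intro j hj
    rw [← (hf j hj).1]
    exact (f j).toHom.map_adj (cat_adj_cx i')
  -- Step 1
  set star : CatV lam k → Prop := fun s => s = .x i' ∨ ∃ t, s = .l i' t with hstar
  have hstar_c : ∀ s, star s → s ≠ .c ∧ s ≠ .x i := by
    rintro s (rfl | ⟨t, rfl⟩)
    · exact ⟨by simp, fun e => hii (by simpa using e)⟩
    · exact ⟨by simp, by simp⟩
  have step1 : ∀ j ∈ S, ∀ j' ∈ S, j ≠ j' → ∃ s s', star s ∧ star s' ∧ f j s = f j' s' := by
    intro j hj j' hj' hjj
    by_contra hcon
    push Not at hcon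
    obtain ⟨p, hp1, hp2⟩ := pick (α := Fin k) S z hzinj (im j ∪ im j') (by
      have h1 := Finset.card_union_le (im j) (im j')
      have h2 := him_card j
      have h3 := him_card j'
      rw [Fintype.card_fin]
      omega)
    set J : Bool → ℕ := fun b => cond b j j' with hJ
    have hJS : ∀ b, J b ∈ S := by intro b; cases b <;> assumption
    have hJB : ∀ b, im (J b) ⊆ im j ∪ im j' := by
      intro b; cases b
      · exact Finset.subset_union_right
      · exact Finset.subset_union_left
    have hJd : ∀ b b', b ≠ b' → ∀ s s', star s → star s' → f (J b) s ≠ f (J b') s' := by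
      intro b b' hbb s s' hs hs'
      cases b <;> cases b'
      · exact absurd rfl hbb
      · exact (hcon s' s hs' hs).symm
      · exact hcon s s' hs hs'
      · exact absurd rfl hbb
    have hpJ : ∀ b s t, f (J b) s ≠ z (p t) := by
      intro b s t e
      exact (hp2 t).2 (by rw [← e]; exact hJB b (him_mem _ _))
    have hsx : star (.x i') := Or.inl rfl
    have hsl : ∀ t, star (.l i' t) := fun t => Or.inr ⟨t, rfl⟩
    refine hcopy (catMap u (fun b => f (J b) (.x i')) (fun b t => f (J b) (.l i' t)) (fun t => z (p t)))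
      (fun a b hab => catMap_hom ?_ ?_ ?_ hab) (catMap_inj ?_ ?_ ?_ ?_ ?_ ?_ ?_ ?_ ?_ ?_) ?_
    · intro b
      rw [← (hf _ (hJS b)).1]
      exact (f (J b)).toHom.map_adj (cat_adj_cx i')
    · intro b t
      exact (f (J b)).toHom.map_adj (cat_adj_xl i' t)
    · intro t
      exact huz _ (hp2 t).1
    · intro b e
      rw [← (hf _ (hJS b)).1] at e
      exact absurd (hfin _ _ _ e) (by simp)
    · intro b t e
      rw [← (hf _ (hJS b)).1] at e
      exact absurd (hfin _ _ _ e) (by simp)
    · intro t e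
      exact (huz _ (hp2 t).1).ne e
    · exact hJd true false (by decide) _ _ hsx hsx
    · intro b b' t
      by_cases hbb : b = b'
      · subst hbb
        exact fun e => absurd (hfin _ _ _ e) (by simp)
      · exact hJd b b' hbb _ _ hsx (hsl t)
    · intro b t
      exact hpJ b _ t
    · intro b t t' e
      simpa using hfin _ _ _ e
    · intro t t'
      exact hJd true false (by decide) _ _ (hsl t) (hsl t')
    · intro b t t'
      exact hpJ b _ t'
    · intro t t' e
      exact hp1 (hzinj (hp2 t).1 (hp2 t').1 e)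
    · intro a
      rcases a with _ | b | ⟨b, t⟩ | t
      · show u ≠ v
        rw [← (hf j hj).1, ← (hf j hj).2]
        exact fun e => absurd (hfin _ _ _ e) (by simp)
      · show f (J b) (.x i') ≠ v
        rw [← (hf _ (hJS b)).2]
        exact fun e => hii (by simpa using hfin _ _ _ e)
      · show f (J b) (.l i' t) ≠ v
        rw [← (hf _ (hJS b)).2]
        exact fun e => absurd (hfin _ _ _ e) (by simp)
      · show z (p t) ≠ v
        rw [← (hf _ (hp2 t).1).2]
        exact fun e => hii (by simpa using hfin _ _ _ e)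
  -- Step 2 : a hub
  obtain ⟨i0, hi0⟩ := Finset.card_pos.1 (lt_of_le_of_lt (Nat.zero_le _) hS)
  have hw : ∀ j, ∃ w, j ∈ S.erase i0 → w ∈ im i0 ∧ ∃ s', star s' ∧ w = f j s' := by
    intro j
    by_cases hj : j ∈ S.erase i0
    · obtain ⟨s, s', _, hs', e⟩ := step1 i0 hi0 j (Finset.mem_of_mem_erase hj) (Finset.ne_of_mem_erase hj).symm
      exact ⟨f i0 s, fun _ => ⟨him_mem _ _, s', hs', e⟩⟩
    · exact ⟨u, fun h => absurd h hj⟩
  choose w hw using hw
  obtain ⟨y, _, hy⟩ := Finset.exists_lt_card_fiber_of_mul_lt_card_of_maps_to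
    (s := S.erase i0) (t := im i0) (f := w) (n := 3 * n) (fun j hj => (hw j hj).1) (by
      rw [Finset.card_erase_of_mem hi0]
      have h1 := him_card i0
      have h2 : (im i0).card * (3 * n) ≤ n * (4 * n) := Nat.mul_le_mul h1 (by omega)
      omega)
  set J' := Finset.filter (fun x => w x = y) (S.erase i0) with hJ'
  have hJ'S : ∀ j ∈ J', j ∈ S := fun j hj => Finset.mem_of_mem_erase (Finset.mem_filter.1 hj).1
  have hJ'y : ∀ j ∈ J', ∃ s', star s' ∧ y = f j s' := by
    intro j hj
    obtain ⟨h1, h2⟩ := Finset.mem_filter.1 hj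
    rw [← h2]
    exact (hw j h1).2
  set J := J'.filter (fun j => z j ≠ y) with hJdef
  have hJcard : 2 * n < J.card := by
    have h1 : J.card + (J'.filter (fun j => ¬ z j ≠ y)).card = J'.card := by
      rw [hJdef]
      exact Finset.card_filter_add_card_filter_not (s := J') (fun j => z j ≠ y)
    have h2 : (J'.filter (fun j => ¬ z j ≠ y)).card ≤ 1 := by
      rw [Finset.card_le_one]
      intro a ha b hb
      rw [Finset.mem_filter, not_not] at ha hb
      exact hzinj (hJ'S a ha.1) (hJ'S b hb.1) (ha.2.trans hb.2.symm)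
    omega
  have hJS : ∀ j ∈ J, j ∈ S := fun j hj => hJ'S j (Finset.mem_filter.1 hj).1
  have hJy : ∀ j ∈ J, ∃ t, y = f j (.l i' t) := by
    intro j hj
    obtain ⟨h1, h2⟩ := Finset.mem_filter.1 hj
    obtain ⟨s', hs', e⟩ := hJ'y j h1
    rcases hs' with rfl | ⟨t, rfl⟩
    · exact absurd e.symm h2
    · exact ⟨t, e⟩
  obtain ⟨i1, hi1⟩ := Finset.card_pos.1 (lt_of_le_of_lt (Nat.zero_le _) hJcard)
  obtain ⟨t0, ht0⟩ := hJy i1 hi1
  obtain ⟨p, hp1, hp2⟩ := pick (α := Bool × Fin lam) J z (hzinj.mono (fun j hj => hJS j hj)) (im i1) (by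
    have h2 := him_card i1
    omega)
  obtain ⟨q⟩ := Function.Embedding.nonempty_of_card_le (α := Fin k) (β := {t : Fin lam // t ≠ t0}) (by
    rw [Fintype.card_subtype_compl, Fintype.card_subtype_eq, Fintype.card_fin, Fintype.card_fin]
    omega)
  have hpS : ∀ t, p t ∈ S := fun t => hJS _ (hp2 t).1
  have hpim : ∀ s t, f i1 s ≠ z (p t) := fun s t e => (hp2 t).2 (by rw [← e]; exact him_mem _ _)
  have hi1S := hJS i1 hi1
  refine hcopy (catMap (z i1) (fun b => cond b u y) (fun b t => z (p (b, t))) (fun t => f i1 (.l i' (q t).1)))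
      (fun a b hab => catMap_hom ?_ ?_ ?_ hab) (catMap_inj ?_ ?_ ?_ ?_ ?_ ?_ ?_ ?_ ?_ ?_) ?_
  · intro b
    cases b
    · show F.Adj (z i1) y
      rw [ht0]
      exact (f i1).toHom.map_adj (cat_adj_xl i' t0)
    · exact (huz i1 hi1S).symm
  · intro b t
    cases b
    · show F.Adj y (z (p (false, t)))
      obtain ⟨t', ht'⟩ := hJy _ (hp2 (false, t)).1
      rw [ht']
      exact ((f _).toHom.map_adj (cat_adj_xl i' t')).symm
    · exact huz _ (hpS _)
  · intro t
    exact (f i1).toHom.map_adj (cat_adj_xl i' _)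
  · intro b
    cases b
    · show z i1 ≠ y
      rw [ht0]
      exact fun e => absurd (hfin _ _ _ e) (by simp)
    · exact (huz i1 hi1S).symm.ne
  · intro b t
    exact hpim _ _
  · intro t e
    exact absurd (hfin _ _ _ e) (by simp)
  · show u ≠ y
    rw [ht0, ← (hf i1 hi1S).1]
    exact fun e => absurd (hfin _ _ _ e) (by simp)
  · intro b b' t
    cases b
    · show y ≠ _
      rw [ht0]
      exact hpim _ _
    · show u ≠ _
      rw [← (hf i1 hi1S).1]
      exact hpim _ _
  · intro b t
    cases b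
    · show y ≠ _
      rw [ht0]
      intro e
      have := hfin _ _ _ e
      simp only [CatV.l.injEq, true_and] at this
      exact (q t).2 this.symm
    · show u ≠ _
      rw [← (hf i1 hi1S).1]
      exact fun e => absurd (hfin _ _ _ e) (by simp)
  · intro b t t' e
    have h1 := hp1 (hzinj (hpS _) (hpS _) e)
    simpa using h1
  · intro t t' e
    have h1 := hp1 (hzinj (hpS _) (hpS _) e)
    simp at h1
  · intro b t t'
    exact (hpim _ _).symm
  · intro t t' e
    have h1 := hfin _ _ _ e
    simp only [CatV.l.injEq, true_and] at h1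
    exact q.injective (Subtype.ext h1)
  · intro a
    rcases a with _ | b | ⟨b, t⟩ | t
    · show z i1 ≠ v
      rw [← (hf _ hi1S).2]
      exact fun e => hii (by simpa using hfin _ _ _ e)
    · cases b
      · show y ≠ v
        rw [ht0, ← (hf _ hi1S).2]
        exact fun e => absurd (hfin _ _ _ e) (by simp)
      · show u ≠ v
        rw [← (hf _ hi1S).1, ← (hf _ hi1S).2]
        exact fun e => absurd (hfin _ _ _ e) (by simp)
    · show z (p (b, t)) ≠ v
      rw [← (hf _ (hpS _)).2]
      exact fun e => hii (by simpa using hfin _ _ _ e)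
    · show f i1 (.l i' (q t).1) ≠ v
      rw [← (hf _ hi1S).2]
      exact fun e => absurd (hfin _ _ _ e) (by simp)

end centre

lemma woven_cat {lam k : ℕ} (hk : k < lam) : Woven (Cat lam k) := by
  classical
  set n := Fintype.card (CatV lam k) with hn
  set L := n * (4 * n) + 4 * n with hL
  refine ⟨(n * n * L + 1) * (n * n), ?_⟩
  intro W _ F u v huv hall
  by_contra hcon
  have hno : NoHit (Cat lam k) F u v ((n * n * L + 1) * (n * n)) := by
    intro X Y hX hY hX' hY'
    by_contra hc
    push Not at hc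
    apply hcon
    refine ⟨X, Y, hX, hY, hX', hY', fun f => ?_⟩
    obtain ⟨a, b, hab, h⟩ := hc f
    refine ⟨a, b, hab, ?_⟩
    by_cases h1 : s(f a, f b) ∈ X
    · exact Or.inl h1
    · exact Or.inr (h h1)
  obtain ⟨f, S, a, b, hab, hS, hf, hsep⟩ := many_same hall hno L le_rfl
  have hS' : n < S.card := by
    have hn1 : 0 < n := Fintype.card_pos_iff.2 ⟨CatV.c⟩
    omega
  have hall' : ∀ f : Copy (Cat lam k) F, ∃ a b, (Cat lam k).Adj a b ∧ s(f a, f b) = s(v, u) := by
    intro g
    obtain ⟨x, y, hxy, he⟩ := hall g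
    exact ⟨x, y, hxy, by rw [he, Sym2.eq_swap]⟩
  -- both orientations
  have main : ∀ (a b : CatV lam k) (u v : W), (∀ f : Copy (Cat lam k) F, ∃ a b, (Cat lam k).Adj a b ∧ s(f a, f b) = s(u, v)) →
      (∀ i ∈ S, f i a = u ∧ f i b = v) → (∀ i ∈ S, ∀ j ∈ S, i ≠ j → Sep (Cat lam k) F u v (f i) (f j)) →
      a ≠ b → catPar b = a → False := by
    intro a b u v hall hf hsep hab hpar
    have hall' : ∀ f : Copy (Cat lam k) F, ∃ a b, (Cat lam k).Adj a b ∧ s(f a, f b) = s(v, u) := by
      intro g
      obtain ⟨x, y, hxy, he⟩ := hall g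
      exact ⟨x, y, hxy, by rw [he, Sym2.eq_swap]⟩
    rcases b with _ | i | ⟨i, j⟩ | j
    · exact hab hpar.symm
    · subst hpar
      exact centre_case hk hall i hS hf hsep
    · subst hpar
      refine pendant_case (T := Cat lam k) (F := F) (u := v) (v := u) hall' hS' (a := .l i j) (b := .x i)
        (fun i hi => (hf i hi).symm) (fun i hi j hj hij => (hsep i hi j hj hij).swap) ?_ (b' := .c)
        (cat_adj_cx i).symm (by simp)
      rintro y ⟨_, h | h⟩
      · exact h.symm
      · rcases y with _ | y | ⟨y1, y2⟩ | y <;> simp [catPar] at h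
    · subst hpar
      refine pendant_case (T := Cat lam k) (F := F) (u := v) (v := u) hall' hS' (a := .e j) (b := .c)
        (fun i hi => (hf i hi).symm) (fun i hi j hj hij => (hsep i hi j hj hij).swap) ?_ (b' := .x true)
        (cat_adj_cx true) (by simp)
      rintro y ⟨_, h | h⟩
      · exact h.symm
      · rcases y with _ | y | ⟨y1, y2⟩ | y <;> simp [catPar] at h
  rcases hab.2 with h | h
  · exact main b a v u hall' (fun i hi => (hf i hi).symm) (fun i hi j hj hij => (hsep i hi j hj hij).swap)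
      hab.1.symm h
  · exact main a b u v hall hf hsep hab.1 h

end WV
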