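import Pool.Agent.Helper29.WV.ThmA
import Pool.Agent.Helper29.WV.Wov

/-! the exceptional trees are the stars and the caterpillars `C(lam,k)`; woven is invariant under isomorphism -/

namespace WV

open SimpleGraph

lemma Woven.iso {A B : Type} {G : SimpleGraph A} {H : SimpleGraph B} (h : Woven G) (e : G ≃g H) : Woven H := by
  obtain ⟨k, hk⟩ := h
  refine ⟨k, ?_⟩
  intro W _ F u v huv hall
  have key : ∀ f : Copy G F, ∃ g : Copy H F, ∀ a, g (e a) = f a := by
    intro f
    refine ⟨⟨⟨fun b => f (e.symm b), fun {a b} hab => f.toHom.map_adj (e.symm.map_adj_iff.2 hab)⟩, ?_⟩, ?_⟩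
    · intro a b hab
      exact e.symm.injective (f.injective hab)
    · intro a
      show f (e.symm (e a)) = f a
      rw [RelIso.symm_apply_apply]
  have key' : ∀ g : Copy H F, ∃ f : Copy G F, ∀ a, f a = g (e a) := by
    intro g
    refine ⟨⟨⟨fun a => g (e a), fun {a b} hab => g.toHom.map_adj (e.map_adj_iff.2 hab)⟩, ?_⟩, fun a => rfl⟩
    intro a b hab
    exact e.injective (g.injective hab)
  obtain ⟨X, Y, hX, hY, hX', hY', hhit⟩ := hk W F u v huv (by
    intro f
    obtain ⟨g, hg⟩ := key f
    obtain ⟨a, b, hab, he⟩ := hall g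
    refine ⟨e.symm a, e.symm b, e.symm.map_adj_iff.2 hab, ?_⟩
    rw [← hg, ← hg, RelIso.apply_symm_apply, RelIso.apply_symm_apply]
    exact he)
  refine ⟨X, Y, hX, hY, hX', hY', fun g => ?_⟩
  obtain ⟨f, hf⟩ := key' g
  obtain ⟨a, b, hab, h⟩ := hhit f
  rw [hf, hf] at h
  exact ⟨e a, e b, e.map_adj_iff.2 hab, h⟩

lemma star_of_fam {V : Type} [Fintype V] {R : RT V} (h : FamStar R) :
    ∃ s, 2 ≤ s ∧ Nonempty (R.G ≃g Star s) := by
  classical
  obtain ⟨h1, h2⟩ := h
  refine ⟨(R.Ch R.root).card, h1, ?_⟩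
  set e := (R.Ch R.root).equivFin with he
  set φ : Option (Fin (R.Ch R.root).card) → V := fun a => match a with
    | none => R.root
    | some t => (e.symm t).1 with hφ
  have hroot : ∀ t, φ (some t) ≠ R.root := by
    intro t
    exact (R.mem_Ch.1 (e.symm t).2).1
  have hinj : Function.Injective φ := by
    intro a b hab
    rcases a with _ | t <;> rcases b with _ | t'
    · rfl
    · exact absurd hab.symm (hroot t')
    · exact absurd hab (hroot t)
    · rw [e.symm.injective (Subtype.ext hab)]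
  have hsurj : Function.Surjective φ := by
    intro v
    by_cases hv : v = R.root
    · exact ⟨none, hv.symm⟩
    · refine ⟨some (e ⟨v, R.mem_Ch.2 ⟨hv, h2 v hv⟩⟩), ?_⟩
      show (e.symm (e _)).1 = v
      rw [Equiv.symm_apply_apply]
  refine ⟨(RelIso.symm ⟨Equiv.ofBijective φ ⟨hinj, hsurj⟩, ?_⟩)⟩
  intro a b
  show R.G.Adj (φ a) (φ b) ↔ (Star _).Adj a b
  rw [R.adj_iff_ch]
  constructor
  · rintro (h | h)
    · refine ⟨fun e => h.ne (by rw [e]), Or.inr ?_⟩
      have h3 : R.root = φ b := by rw [← h.2, h2 _ h.1]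
      exact (hinj (a₁ := none) h3).symm
    · refine ⟨fun e => h.ne (by rw [e]), Or.inl ?_⟩
      have h3 : R.root = φ a := by rw [← h.2, h2 _ h.1]
      exact (hinj (a₁ := none) h3).symm
  · rintro ⟨hne, rfl | rfl⟩
    · right
      rcases b with _ | t
      · exact absurd rfl hne
      · exact ⟨hroot t, h2 _ (hroot t)⟩
    · left
      rcases a with _ | t
      · exact absurd rfl hne
      · exact ⟨hroot t, h2 _ (hroot t)⟩

lemma cat_of_fam {V : Type} [Fintype V] {R : RT V} {d dp : V} (h : FamCat R d dp) :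
    ∃ lam k, k < lam ∧ Nonempty (R.G ≃g Cat lam k) := by
  classical
  obtain ⟨hd, hdp, hne, hpar, hcard, hpos, hk⟩ := h
  set lam := (R.Ch d).card with hlam
  set D : Bool → V := fun b => cond b d dp with hD
  have hDch : ∀ b, R.IsCh (D b) R.root := by intro b; cases b <;> assumption
  have hDinj : ∀ b b', D b = D b' → b = b' := by
    intro b b' h
    cases b <;> cases b'
    · rfl
    · exact absurd h hne.symm
    · exact absurd h hne
    · rfl
  have hDcard : ∀ b, (R.Ch (D b)).card = lam := by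
    intro b; cases b
    · exact hcard.symm
    · rfl
  set E := ((R.Ch R.root).erase d).erase dp with hE
  have hEcard : E.card = (R.Ch R.root).card - 2 := by
    rw [hE, Finset.card_erase_of_mem, Finset.card_erase_of_mem (R.mem_Ch.2 hd)]
    · rfl
    · exact Finset.mem_erase.2 ⟨hne.symm, R.mem_Ch.2 hdp⟩
  have hroot2 : 2 ≤ (R.Ch R.root).card := by
    have h1 : ({d, dp} : Finset V) ⊆ R.Ch R.root := by
      intro x hx
      simp only [Finset.mem_insert, Finset.mem_singleton] at hx
      rcases hx with rfl | rfl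
      · exact R.mem_Ch.2 hd
      · exact R.mem_Ch.2 hdp
    have h2 := Finset.card_le_card h1
    rwa [Finset.card_pair hne] at h2
  have hEmem : ∀ x, x ∈ E ↔ R.IsCh x R.root ∧ ∀ b, x ≠ D b := by
    intro x
    rw [hE, Finset.mem_erase, Finset.mem_erase, R.mem_Ch]
    constructor
    · rintro ⟨h1, h2, h3⟩
      refine ⟨h3, fun b => ?_⟩
      cases b
      · exact h1
      · exact h2
    · rintro ⟨h1, h2⟩
      exact ⟨h2 false, h2 true, h1⟩
  refine ⟨lam, E.card, by omega, ?_⟩
  have e1 : ∀ b, Nonempty (Fin lam ≃ R.Ch (D b)) := by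
    intro b
    have := (R.Ch (D b)).equivFin.symm
    rw [hDcard b] at this
    exact ⟨this⟩
  have el : ∀ b, Fin lam ≃ R.Ch (D b) := fun b => Classical.choice (e1 b)
  set e0 := E.equivFin.symm with he0
  set φ : CatV lam E.card → V := catMap R.root D (fun b t => ((el b) t).1) (fun t => (e0 t).1) with hφ
  have hl : ∀ b t, R.IsCh ((el b) t).1 (D b) := fun b t => R.mem_Ch.1 ((el b) t).2
  have hlr : ∀ b t, ¬ R.IsCh ((el b) t).1 R.root := by
    intro b t h
    have h1 := (hl b t).2
    rw [h.2] at h1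
    exact (hDch b).1 h1.symm
  have he : ∀ t, R.IsCh (e0 t).1 R.root ∧ ∀ b, (e0 t).1 ≠ D b := fun t => (hEmem _).1 (e0 t).2
  have hinj : Function.Injective φ := by
    refine catMap_inj ?_ ?_ ?_ ?_ ?_ ?_ ?_ ?_ ?_ ?_
    · intro b; exact (hDch b).1.symm
    · intro b t; exact (hl b t).1.symm
    · intro t; exact (he t).1.1.symm
    · exact hne
    · intro b b' t e
      exact hlr b' t (by rw [← e]; exact hDch b)
    · intro b t; exact ((he t).2 b).symm
    · intro b t t' e
      exact (el b).injective (Subtype.ext e)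
    · intro t t' e
      have h1 := (hl true t).2
      rw [e, (hl false t').2] at h1
      exact absurd h1 hne.symm
    · intro b t t' e
      exact hlr b t (by rw [e]; exact (he t').1)
    · intro t t' e
      exact e0.injective (Subtype.ext e)
  have hparφ : ∀ a, R.par (φ a) = φ (catPar a) := by
    intro a
    rcases a with _ | b | ⟨b, t⟩ | t
    · exact R.par_root
    · exact (hDch b).2
    · exact (hl b t).2
    · exact (he t).1.2
  have hrootφ : ∀ a, φ a = R.root ↔ a = CatV.c := by
    intro a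
    exact ⟨fun h => hinj h, fun h => by rw [h]; rfl⟩
  have hsurj : Function.Surjective φ := by
    intro v
    by_cases hv : v = R.root
    · exact ⟨.c, hv.symm⟩
    · have hcase : ∀ b, R.par v = D b → ∃ a, φ a = v := by
        intro b hb
        refine ⟨.l b ((el b).symm ⟨v, R.mem_Ch.2 ⟨hv, hb⟩⟩), ?_⟩
        show ((el b) ((el b).symm _)).1 = v
        rw [Equiv.apply_symm_apply]
      rcases hpar v hv with h | h | h
      · by_cases hvD : ∃ b, v = D b
        · obtain ⟨b, rfl⟩ := hvD
          exact ⟨.x b, rfl⟩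
        · push Not at hvD
          refine ⟨.e (e0.symm ⟨v, (hEmem v).2 ⟨⟨hv, h⟩, hvD⟩⟩), ?_⟩
          show (e0 (e0.symm _)).1 = v
          rw [Equiv.apply_symm_apply]
      · exact hcase true h
      · exact hcase false h
  refine ⟨(RelIso.symm ⟨Equiv.ofBijective φ ⟨hinj, hsurj⟩, ?_⟩)⟩
  intro a b
  show R.G.Adj (φ a) (φ b) ↔ (Cat _ _).Adj a b
  rw [R.adj_iff_ch]
  have hcp : ∀ a b : CatV lam E.card, a ≠ b → catPar a = b → a ≠ .c := by
    rintro a b hab h rfl
    exact hab h
  constructor
  · rintro (h | h)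
    · refine ⟨fun e => h.ne (by rw [e]), Or.inl ?_⟩
      have h3 := h.2
      rw [hparφ] at h3
      exact hinj h3
    · refine ⟨fun e => h.ne (by rw [e]), Or.inr ?_⟩
      have h3 := h.2
      rw [hparφ] at h3
      exact hinj h3
  · rintro ⟨hne, h | h⟩
    · left
      exact ⟨fun e => hcp a b hne h ((hrootφ a).1 e), by rw [hparφ, h]⟩
    · right
      exact ⟨fun e => hcp b a hne.symm h ((hrootφ b).1 e), by rw [hparφ, h]⟩

end WV
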