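import Pool.Agent.Helper29.WV.Sun

/-! a tree with a symmetric witness is not woven; the one vertex graph is woven -/

namespace WV

open SimpleGraph

/-- two copies of the sunflower, their centres joined by an edge -/
def DS {V : Type} (T : SimpleGraph V) (a b : V) (K : Set V) (I : Type) :
    SimpleGraph (Bool × Option (V × Option I)) where
  Adj x y := (x.1 = y.1 ∧ (Sun T a b K I).Adj x.2 y.2) ∨ (x.1 ≠ y.1 ∧ x.2 = none ∧ y.2 = none)
  symm := ⟨by
    rintro x y (⟨h1, h2⟩ | ⟨h1, h2, h3⟩)
    · exact Or.inl ⟨h1.symm, h2.symm⟩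
    · exact Or.inr ⟨h1.symm, h3, h2⟩⟩
  loopless := ⟨by
    rintro x (⟨h1, h2⟩ | ⟨h1, _⟩)
    · exact h2.ne rfl
    · exact h1 rfl⟩

theorem good_not_woven {V : Type} [Fintype V] {T : SimpleGraph V} (hT : T.IsTree) (hG : Good T) :
    ¬ Woven T := by
  classical
  rintro ⟨k, hk⟩
  obtain ⟨a, b, K, ⟨hab, haK, hbK, hKn⟩, hfree⟩ := hG
  set I := Fin (k + 1) with hI
  set F := DS T a b K I with hF
  set c : Bool → Bool × Option (V × Option I) := fun i => (i, none) with hc
  have hcc : c true ≠ c false := by simp [hc]
  obtain ⟨X, Y, hX, hY, hX', hY', hhit⟩ := hk _ F (c true) (c false) (Or.inr ⟨by simp [hc], rfl, rfl⟩) (by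
    intro f
    by_contra hcon
    push Not at hcon
    apply hfree I
    have hside : ∀ x y, T.Adj x y → (f x).1 = (f y).1 := by
      intro x y hxy
      have h1 : F.Adj (f x) (f y) := f.toHom.map_adj hxy
      rcases h1 with ⟨h1, _⟩ | ⟨h1, h2, h3⟩
      · exact h1
      · exfalso
        apply hcon x y hxy
        have e1 : f x = c (f x).1 := Prod.ext rfl h2
        have e2 : f y = c (f y).1 := Prod.ext rfl h3
        rw [e1, e2, Sym2.eq_iff]
        revert h1
        generalize (f x).1 = p
        generalize (f y).1 = q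
        intro h1
        cases p <;> cases q
        · exact absurd rfl h1
        · right; exact ⟨rfl, rfl⟩
        · left; exact ⟨rfl, rfl⟩
        · exact absurd rfl h1
    have hall : ∀ x y, (f x).1 = (f y).1 := by
      intro x y
      obtain ⟨p⟩ := hT.connected.preconnected x y
      induction p with
      | nil => rfl
      | cons h _ ih => exact (hside _ _ h).trans ih
    refine ⟨⟨⟨fun x => (f x).2, ?_⟩, ?_⟩⟩
    · intro x y hxy
      have h1 : F.Adj (f x) (f y) := f.toHom.map_adj hxy
      rcases h1 with ⟨_, h1⟩ | ⟨h1, _, _⟩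
      · exact h1
      · exact absurd (hall x y) h1
    · intro x y hxy
      exact f.injective (Prod.ext (hall x y) hxy))
  -- free petals
  have hfreep : ∀ (i : Bool) (Z : Finset (Sym2 (Bool × Option (V × Option I)))), Z.card ≤ k →
      (∀ e ∈ Z, c i ∈ e) → ∃ j : I, ∀ e ∈ Z, ∀ x, (i, some (x, some j)) ∉ e := by
    intro i Z hZ hZc
    by_contra hcon
    push Not at hcon
    choose e he x hx using hcon
    have hinj : Function.Injective e := by
      intro j j' hjj
      have h1 := (Sym2.mem_and_mem_iff (show c i ≠ (i, some (x j, some j)) by simp [hc])).1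
        ⟨hZc _ (he j), hx j⟩
      have h2 := (Sym2.mem_and_mem_iff (show c i ≠ (i, some (x j', some j')) by simp [hc])).1
        ⟨hZc _ (he j'), hx j'⟩
      rw [← hjj, h1, Sym2.eq_iff] at h2
      rcases h2 with h2 | h2
      · have := h2.2
        simp only [Prod.mk.injEq, Option.some.injEq, true_and] at this
        exact this.2
      · have := h2.1
        simp [hc] at this
    have h1 := Finset.card_le_card_of_injOn e (s := (Finset.univ : Finset I)) (t := Z)
      (fun j _ => he j) hinj.injOn
    have h2 : Fintype.card I = k + 1 := Fintype.card_fin _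
    rw [Finset.card_univ, h2] at h1
    omega
  obtain ⟨j1, hj1⟩ := hfreep true X hX (fun e he => (hX' e he).2.2)
  obtain ⟨j2, hj2⟩ := hfreep false Y hY (fun e he => (hY' e he).2.2)
  -- the copy
  obtain ⟨Q, hQ1, hQ2⟩ := exists_RT hT a
  subst hQ2
  have hba : Q.IsCh b Q.root := by
    rcases hab with h | h
    · exact absurd hQ1.symm h.1
    · rw [hQ1]; exact h
  have hab' : a ≠ b := by rw [← hQ1]; exact hba.1.symm
  have hnba : ¬ Q.Anc b a := by rw [← hQ1]; exact hba.not_anc
  set side : V → Bool := fun v => if Q.Anc b v then false else true with hside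
  have hsa : side a = true := by simp [hside, hnba]
  have hsb : side b = false := by simp [hside, Q.anc_refl]
  set J : Bool → I := fun i => cond i j1 j2 with hJ
  set φ : V → Bool × Option (V × Option I) := fun v => (side v, pi a b K v (J (side v))) with hφ
  have hφa : φ a = c true := by
    show (side a, pi a b K a _) = (true, none)
    rw [hsa, pi_a]
  have hφb : φ b = c false := by
    show (side b, pi a b K b _) = (false, none)
    rw [hsb, pi_b]
  have hsame : ∀ u v, Q.IsCh u v → u ≠ b → side u = side v := by
    intro u v huv hub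
    have : Q.Anc b u ↔ Q.Anc b v := by
      constructor
      · intro h; rw [← huv.2]; exact Q.anc_par h (Ne.symm hub)
      · intro h; exact Q.anc_trans h huv.anc
    simp only [hside, this]
  have hinj : Function.Injective φ := by
    intro u v huv
    have h1 : side u = side v := congrArg Prod.fst huv
    have h2 : pi a b K u (J (side u)) = pi a b K v (J (side v)) := congrArg Prod.snd huv
    by_cases hu : u = a ∨ u = b
    · rw [pi_eq_none.2 hu] at h2
      have h4 := pi_eq_none.1 h2.symm
      rcases hu with rfl | rfl <;> rcases h4 with rfl | rfl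
      · rfl
      · rw [hsa, hsb] at h1; exact absurd h1 (by decide)
      · rw [hsa, hsb] at h1; exact absurd h1 (by decide)
      · rfl
    · push Not at hu
      exact pi_inj h2 hu.1 hu.2
  have key : ∀ u v, Q.IsCh u v → F.Adj (φ u) (φ v) := by
    intro u v huv
    by_cases hub : u = b
    · have hva : v = a := by rw [← huv.2, hub, hba.2, hQ1]
      rw [hub, hva, hφa, hφb]
      exact Or.inr ⟨by simp [hc], rfl, rfl⟩
    · left
      refine ⟨hsame u v huv hub, ?_⟩
      show (Sun Q.G a b K I).Adj (pi a b K u (J (side u))) (pi a b K v (J (side v)))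
      rw [hsame u v huv hub]
      have hua : u ≠ a := by rw [← hQ1]; exact huv.1
      refine ⟨fun e => huv.ne (pi_inj e hua hub), u, v, _, Or.inl huv, ?_, rfl, rfl⟩
      intro e
      simp only [Sym2.eq_iff] at e
      tauto
  obtain ⟨x, y, hxy, hmem⟩ := hhit ⟨⟨φ, by
    intro u v huv
    rcases huv with h | h
    · exact key u v h
    · exact (key v u h).symm⟩, hinj⟩
  have hmem' : s(φ x, φ y) ∈ X ∨ s(φ x, φ y) ∈ Y := hmem
  -- an edge of the copy at `c i` other than the central edge goes to the free petal
  have hkey : ∀ (i : Bool) (Z : Finset (Sym2 (Bool × Option (V × Option I)))) (p : V), φ p = c i →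
      (p = a ∨ p = b) → (∀ e ∈ Z, e ≠ s(c true, c false)) →
      (∀ e ∈ Z, ∀ x, (i, some (x, some (J i))) ∉ e) → ∀ q, Q.G.Adj p q → s(φ p, φ q) ∈ Z → False := by
    intro i Z p hp hpab hZ1 hZ2 q hpq hZ
    have hadj := hpq
    have hφpq : F.Adj (φ p) (φ q) := by
      rcases hpq with h | h
      · exact key _ _ h
      · exact (key _ _ h).symm
    by_cases hq : q = a ∨ q = b
    · apply hZ1 _ hZ
      have hne := hpq.ne
      rcases hpab with rfl | rfl <;> rcases hq with rfl | rfl
      · exact absurd rfl hne
      · rw [hφa, hφb]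
      · rw [hφa, hφb, Sym2.eq_swap]
      · exact absurd rfl hne
    · have hqK : q ∉ K := by
        intro hqK
        push Not at hq
        have := hKn q hqK hq.1 hq.2
        rcases hpab with rfl | rfl
        · exact this.1 hpq
        · exact this.2 hpq
      have hs : side q = i := by
        rcases hφpq with ⟨h1, _⟩ | ⟨_, _, h1⟩
        · have h2 : side p = i := by
            have := congrArg Prod.fst hp
            exact this
          have h3 : side p = side q := h1
          rw [← h3, h2]
        · exfalso
          exact hq (pi_eq_none.1 h1)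
      have hφq : φ q = (i, some (q, some (J i))) := by
        show (side q, pi a b K q (J (side q))) = _
        rw [hs, pi_priv haK hbK hqK]
      apply hZ2 _ hZ q
      rw [← hφq]
      exact Sym2.mem_mk_right _ _
  have hφc : ∀ p i, φ p = c i → p = a ∨ p = b := by
    intro p i hp
    exact pi_eq_none.1 (congrArg Prod.snd hp)
  have hZZ : ∀ (i : Bool) (Z : Finset (Sym2 (Bool × Option (V × Option I)))),
      (∀ e ∈ Z, e ≠ s(c true, c false) ∧ c i ∈ e) →
      (∀ e ∈ Z, ∀ x, (i, some (x, some (J i))) ∉ e) → s(φ x, φ y) ∈ Z → False := by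
    intro i Z hZ1 hZ2 hZ
    have h1 := (hZ1 _ hZ).2
    rw [Sym2.mem_iff] at h1
    rcases h1 with h1 | h1
    · exact hkey i Z x h1.symm (hφc x i h1.symm) (fun e he => (hZ1 e he).1) hZ2 y hxy hZ
    · refine hkey i Z y h1.symm (hφc y i h1.symm) (fun e he => (hZ1 e he).1) hZ2 x hxy.symm ?_
      rwa [Sym2.eq_swap]
  rcases hmem' with h | h
  · exact hZZ true X (fun e he => (hX' e he).2) hj1 h
  · exact hZZ false Y (fun e he => (hY' e he).2) hj2 h

/-- the graph with one vertex is woven -/
theorem woven_one {V : Type} [Fintype V] {T : SimpleGraph V} (h : Fintype.card V = 1) : Woven T := by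
  refine ⟨0, ?_⟩
  intro W _ F u v huv hall
  exfalso
  have hsub : Subsingleton V := Fintype.card_le_one_iff_subsingleton.1 h.le
  obtain ⟨a, b, hab, _⟩ := hall ⟨⟨fun _ => u, fun {a b} hab => absurd (Subsingleton.elim a b) hab.ne⟩,
    fun a b _ => Subsingleton.elim a b⟩
  exact hab.ne (Subsingleton.elim a b)

end WV
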