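import Pool.Agent.Helper29.WV.FB
import Pool.Agent.Helper2.WV.P
import Pool.Agent.Helper26.WVChv

/-! Theorem B : `F → (T, K_t)` -/

namespace WV

open SimpleGraph

section
variable {V P : Type} (T : SimpleGraph V) (a b : V) (K : Set V) (GP : SimpleGraph P) (r N : ℕ)

lemma arrows_top [Fintype V] [Nonempty P] (hT : T.IsTree) (hN : Fintype.card V = N + 1) (hN1 : 1 ≤ N)
    (hK : Adm T a b K) (hP : Arrows GP T (⊤ : SimpleGraph (Fin (r + 1)))) :
    Arrows (FF T a b K GP r N) T (⊤ : SimpleGraph (Fin (r + 2))) := by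
  classical
  intro R hR
  by_contra hcon
  have hRT : ¬ T ⊑ R := fun h => hcon (Or.inl h)
  have hRB : ¬ (⊤ : SimpleGraph (Fin (r + 2))) ⊑ FF T a b K GP r N \ R := fun h => hcon (Or.inr h)
  obtain ⟨hab, haK, hbK, hKn⟩ := hK
  set F := FF T a b K GP r N with hFdef
  set S := Sun T a b K P with hS
  have hFadj : ∀ x y, F.Adj x y ↔ FAdj T a b K GP r N x y := fun x y => Iff.rfl
  -- (a) rigidity
  have hrig : ∀ (i : Fin (r + 2)) (x1 x2 : WW V P) (z z' : ZV r N), (ZG (r + 1) N).Adj z z' →
      (R.Adj (i, Sum.inr (x1, x2, z)) (i, Sum.inr (x1, x2, z')) ↔ z.1 = z'.1) := by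
    intro i x1 x2
    refine ZG_rigid hT hN hN1 hR (fun z => (i, Sum.inr (x1, x2, z))) ?_ ?_ hRT hRB
    · intro z z' h
      simpa using h
    · intro z z' h
      exact ⟨rfl, rfl, rfl, h⟩
  -- (b) everything leaving a gadget is blue
  have hsat : ∀ (i : Fin (r + 2)) (x x1 x2 : WW V P) (z : ZV r N),
      ¬ R.Adj (i, Sum.inl x) (i, Sum.inr (x1, x2, z)) := by
    intro i x x1 x2 z h
    apply hRT
    refine pendant hT hN hN1 (R := R) (fun c => (i, Sum.inr (x1, x2, (z.1, z.2.1, c)))) ?_ ?_ z.2.2
      (x := (i, Sum.inl x)) ?_ ?_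
    · intro c c' h
      simpa using h
    · intro c c' hcc
      rw [hrig]
      refine ⟨?_, fun _ => rfl⟩
      intro h
      simp only [Prod.mk.injEq, true_and] at h
      exact hcc h
    · intro j h
      simp at h
    · exact h.symm
  -- (c) sunflower edges away from `w` are red
  have hred : ∀ (i : Fin (r + 2)) (x1 x2 : WW V P), S.Adj x1 x2 → x1 ≠ none → x2 ≠ none →
      R.Adj (i, Sum.inl x1) (i, Sum.inl x2) := by
    intro i x1 x2 h12 hn1 hn2
    by_contra hblue
    apply hRB
    have hN0 : 0 < N := hN1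
    -- the clique
    set q : Fin r → XX V P r N := fun k => (i, Sum.inr (x1, x2, (Fin.castSucc k, false, ⟨0, hN0⟩))) with hq
    set κ : Fin (r + 2) → XX V P r N :=
      Fin.cons (i, Sum.inl x1) (Fin.cons (i, Sum.inl x2) q : Fin (r + 1) → XX V P r N) with hκ
    have hFq : ∀ k, F.Adj (i, Sum.inl x1) (q k) ∧ F.Adj (i, Sum.inl x2) (q k) := by
      intro k
      have hQ : QQ ((Fin.castSucc k, false, ⟨0, hN0⟩) : ZV r N) :=
        ⟨(Fin.castSucc_lt_last k).ne, rfl, rfl⟩
      exact ⟨⟨rfl, h12, hn1, hn2, Or.inl rfl, hQ⟩, ⟨rfl, h12, hn1, hn2, Or.inr rfl, hQ⟩⟩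
    have hbl : ∀ u v : Fin (r + 2), u < v → (F \ R).Adj (κ u) (κ v) := by
      intro u v huv
      rw [SimpleGraph.sdiff_adj]
      refine Fin.cases ?_ (fun u' => ?_) u (motive := fun u => u < v → F.Adj (κ u) (κ v) ∧ ¬R.Adj (κ u) (κ v)) huv
      · refine Fin.cases ?_ (fun v' => ?_) v (motive := fun v => (0 : Fin (r + 2)) < v → F.Adj (κ 0) (κ v) ∧ ¬R.Adj (κ 0) (κ v))
        · intro h; exact absurd h (lt_irrefl _)
        · intro _
          refine Fin.cases ?_ (fun v'' => ?_) v' (motive := fun v' => F.Adj (κ 0) (κ v'.succ) ∧ ¬R.Adj (κ 0) (κ v'.succ))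
          · simp only [hκ, Fin.cons_zero, Fin.cons_succ]
            exact ⟨Or.inl ⟨rfl, Or.inl h12⟩, hblue⟩
          · simp only [hκ, Fin.cons_zero, Fin.cons_succ]
            exact ⟨(hFq v'').1, hsat i x1 x1 x2 _⟩
      · refine Fin.cases ?_ (fun v' => ?_) v (motive := fun v => u'.succ < v → F.Adj (κ u'.succ) (κ v) ∧ ¬R.Adj (κ u'.succ) (κ v))
        · intro h; exact absurd h (Fin.not_lt_zero _)
        · intro h
          have h' : u' < v' := Fin.succ_lt_succ_iff.1 h
          refine Fin.cases ?_ (fun u'' => ?_) u' (motive := fun u' => u' < v' → F.Adj (κ u'.succ) (κ v'.succ) ∧ ¬R.Adj (κ u'.succ) (κ v'.succ)) h'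
          · refine Fin.cases ?_ (fun v'' => ?_) v' (motive := fun v' => (0 : Fin (r + 1)) < v' → F.Adj (κ (Fin.succ 0)) (κ v'.succ) ∧ ¬R.Adj (κ (Fin.succ 0)) (κ v'.succ))
            · intro h; exact absurd h (lt_irrefl _)
            · intro _
              simp only [hκ, Fin.cons_zero, Fin.cons_succ]
              exact ⟨(hFq v'').2, hsat i x2 x1 x2 _⟩
          · refine Fin.cases ?_ (fun v'' => ?_) v' (motive := fun v' => u''.succ < v' → F.Adj (κ u''.succ.succ) (κ v'.succ) ∧ ¬R.Adj (κ u''.succ.succ) (κ v'.succ))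
            · intro h; exact absurd h (Fin.not_lt_zero _)
            · intro h
              have h'' : u'' < v'' := Fin.succ_lt_succ_iff.1 h
              simp only [hκ, Fin.cons_succ]
              have hne : (Fin.castSucc u'' : Fin (r + 1)) ≠ Fin.castSucc v'' := fun e =>
                h''.ne (Fin.castSucc_injective _ e)
              have hZ : (ZG (r + 1) N).Adj (Fin.castSucc u'', false, ⟨0, hN0⟩) (Fin.castSucc v'', false, ⟨0, hN0⟩) :=
                ⟨fun e => hne (congrArg Prod.fst e), fun e => absurd e hne⟩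
              refine ⟨⟨rfl, rfl, rfl, hZ⟩, fun h => ?_⟩
              exact hne ((hrig i x1 x2 _ _ hZ).1 h)
    have hadj : ∀ u v : Fin (r + 2), u ≠ v → (F \ R).Adj (κ u) (κ v) := by
      intro u v huv
      rcases lt_or_gt_of_ne huv with h | h
      · exact hbl u v h
      · exact (hbl v u h).symm
    refine ⟨⟨⟨κ, fun {u v} huv => hadj u v huv⟩, ?_⟩⟩
    intro u v huv
    by_contra hne
    have := hadj u v hne
    rw [show κ u = κ v from huv] at this
    exact this.ne rfl
  -- (d) for every role a red edge at the centre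
  have hrole : ∀ (i : Fin (r + 2)) (v : V), v ∉ K → (T.Adj a v ∨ T.Adj b v) →
      ∃ p, R.Adj (i, Sum.inl none) (i, Sum.inl (some (v, some p))) := by
    intro i v hv hadj
    by_contra hno
    push Not at hno
    have hSn : ∀ p, S.Adj none (some (v, some p)) := by
      intro p
      refine ⟨by simp, ?_⟩
      have hpv : pi a b K v p = some (v, some p) := pi_priv haK hbK hv
      have hva : v ≠ a := fun e => hv (e ▸ haK)
      have hvb : v ≠ b := fun e => hv (e ▸ hbK)
      rcases hadj with h | h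
      · exact ⟨a, v, p, h, fun e => by simp only [Sym2.eq_iff] at e; tauto, (pi_a p).symm, hpv.symm⟩
      · exact ⟨b, v, p, h, fun e => by simp only [Sym2.eq_iff] at e; tauto, (pi_b p).symm, hpv.symm⟩
    set ι : P → XX V P r N := fun p => (i, Sum.inl (some (v, some p))) with hι
    have hιinj : Function.Injective ι := by
      intro p p' h
      simpa [hι] using h
    rcases hP (R.comap ι ⊓ GP) inf_le_right with ⟨⟨ψ⟩⟩ | ⟨⟨ψ⟩⟩
    · apply hRT
      refine ⟨⟨⟨fun u => ι (ψ u), ?_⟩, ?_⟩⟩
      · intro x y hxy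
        exact ((SimpleGraph.inf_adj _ _ _ _).1 (ψ.toHom.map_adj hxy)).1
      · intro x y hxy
        exact ψ.injective (hιinj hxy)
    · apply hRB
      have hblue : ∀ u w : Fin (r + 1), u ≠ w → (F \ R).Adj (ι (ψ u)) (ι (ψ w)) := by
        intro u w huw
        have h1 : (GP \ (R.comap ι ⊓ GP)).Adj (ψ u) (ψ w) :=
          ψ.toHom.map_adj (show (⊤ : SimpleGraph (Fin (r + 1))).Adj u w from huw)
        rw [SimpleGraph.sdiff_adj, SimpleGraph.inf_adj] at h1
        rw [SimpleGraph.sdiff_adj]
        refine ⟨Or.inl ⟨rfl, Or.inr ⟨v, ψ u, ψ w, hv, hadj, h1.1, rfl, rfl⟩⟩, fun h2 => h1.2 ⟨h2, h1.1⟩⟩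
      have hblue0 : ∀ u : Fin (r + 1), (F \ R).Adj (i, Sum.inl none) (ι (ψ u)) := by
        intro u
        rw [SimpleGraph.sdiff_adj]
        exact ⟨Or.inl ⟨rfl, Or.inl (hSn _)⟩, hno _⟩
      set κ : Fin (r + 2) → XX V P r N := Fin.cons (i, Sum.inl none) (fun u => ι (ψ u)) with hκ
      have hadj' : ∀ u w : Fin (r + 2), u ≠ w → (F \ R).Adj (κ u) (κ w) := by
        intro u w
        refine Fin.cases ?_ (fun u' => ?_) u <;> refine Fin.cases ?_ (fun w' => ?_) w
        · intro h; exact absurd rfl h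
        · intro _
          simp only [hκ, Fin.cons_zero, Fin.cons_succ]
          exact hblue0 w'
        · intro _
          simp only [hκ, Fin.cons_zero, Fin.cons_succ]
          exact (hblue0 u').symm
        · intro h
          simp only [hκ, Fin.cons_succ]
          exact hblue u' w' (fun e => h (by rw [e]))
      refine ⟨⟨⟨κ, fun {u w} huw => hadj' u w huw⟩, ?_⟩⟩
      intro u w huw
      by_contra hne
      have := hadj' u w hne
      rw [show κ u = κ w from huw] at this
      exact this.ne rfl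
  -- (f) a red central edge
  obtain ⟨i, i', hii, hc⟩ : ∃ i i' : Fin (r + 2), i ≠ i' ∧ R.Adj (i, Sum.inl none) (i', Sum.inl none) := by
    by_contra hno
    push Not at hno
    apply hRB
    refine ⟨⟨⟨fun i => (i, Sum.inl none), ?_⟩, ?_⟩⟩
    · intro i i' hii
      rw [SimpleGraph.sdiff_adj]
      exact ⟨Or.inr ⟨hii, rfl, rfl⟩, hno i i' hii⟩
    · intro i i' h
      simpa using h
  -- (g) the red tree
  apply hRT
  obtain ⟨Q, hQ1, hQ2⟩ := exists_RT hT a
  subst hQ2
  have hba : Q.IsCh b Q.root := by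
    rcases hab with h | h
    · exact absurd hQ1.symm h.1
    · rw [hQ1]; exact h
  have hab' : a ≠ b := by rw [← hQ1]; exact hba.1.symm
  set Z : Set V := {a, b} with hZ
  set ρ : V → V := fun v => Q.top Z v with hρ
  have hρspec : ∀ v, v ∉ Z → ρ v ∉ K ∧ (Q.G.Adj a (ρ v) ∨ Q.G.Adj b (ρ v)) := by
    intro v hv
    have hv' : v ≠ a ∧ v ≠ b := by
      simpa only [hZ, Set.mem_insert_iff, Set.mem_singleton_iff, not_or] using hv
    have h1 : ρ v ≠ a := (RT.top_hub (R := Q) (Z := Z) (h := a) (by simp [hZ]) (by rw [← hQ1]; exact Q.root_anc v) hv'.1).2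
    have h2 : ρ v ≠ b := by
      intro e
      have h3 : Q.Anc b v := by rw [← e]; exact RT.top_anc Z v
      exact (RT.top_hub (R := Q) (Z := Z) (by simp [hZ]) h3 hv'.2).2 e
    have h3 := (RT.top_spec (R := Q) Z v).resolve_left (by rw [hQ1]; exact h1)
    simp only [hZ, Set.mem_insert_iff, Set.mem_singleton_iff] at h3
    have h4 : Q.G.Adj a (ρ v) ∨ Q.G.Adj b (ρ v) := by
      rcases h3 with h3 | h3
      · left; exact Or.inr ⟨by rw [hQ1]; exact h1, h3⟩
      · right; exact Or.inr ⟨by rw [hQ1]; exact h1, h3⟩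
    refine ⟨fun h5 => ?_, h4⟩
    have := hKn _ h5 h1 h2
    tauto
  have hpex : ∀ (k : Fin (r + 2)) (v : V), ∃ p, v ∉ Z → R.Adj (k, Sum.inl none) (k, Sum.inl (some (ρ v, some p))) := by
    intro k v
    by_cases hv : v ∈ Z
    · exact ⟨Classical.arbitrary P, fun h => absurd hv h⟩
    · obtain ⟨h1, h2⟩ := hρspec v hv
      obtain ⟨p, hp⟩ := hrole k (ρ v) h1 h2
      exact ⟨p, fun _ => hp⟩
  -- the choice must depend on `ρ v` only
  have hpex' : ∀ (k : Fin (r + 2)) (x : V), ∃ p, (∃ v, v ∉ Z ∧ ρ v = x) →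
      R.Adj (k, Sum.inl none) (k, Sum.inl (some (x, some p))) := by
    intro k x
    by_cases hx : ∃ v, v ∉ Z ∧ ρ v = x
    · obtain ⟨v, hv, rfl⟩ := hx
      obtain ⟨p, hp⟩ := hpex k v
      exact ⟨p, fun _ => hp hv⟩
    · exact ⟨Classical.arbitrary P, fun h => absurd h hx⟩
  choose p hp using hpex'
  set side : V → Fin (r + 2) := fun v => if Q.Anc b v then i' else i with hside
  set φ : V → XX V P r N := fun v => (side v, Sum.inl (pi a b K v (p (side v) (ρ v)))) with hφ
  have key : ∀ u v, Q.IsCh u v → R.Adj (φ u) (φ v) := by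
    intro u v huv
    by_cases hub : u = b
    · have hva : v = a := by rw [← huv.2, hub, hba.2, hQ1]
      subst hub; subst hva
      have h1 : side u = i' := by simp [hside, Q.anc_refl]
      have h2 : side v = i := by
        have : ¬ Q.Anc u v := by rw [← hQ1]; exact hba.not_anc
        simp [hside, this]
      simp only [hφ, pi_a, pi_b, h1, h2]
      exact hc.symm
    · have hua : u ≠ a := by rw [← hQ1]; exact huv.1
      have huZ : u ∉ Z := by simp [hZ, hua, hub]
      have hs : side u = side v := by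
        have : Q.Anc b u ↔ Q.Anc b v := by
          constructor
          · intro h; rw [← huv.2]; exact Q.anc_par h (Ne.symm hub)
          · intro h; exact Q.anc_trans h huv.anc
        simp only [hside, this]
      by_cases hvZ : v ∈ Z
      · have hρu : ρ u = u := RT.top_self (Or.inr (by rw [huv.2]; exact hvZ))
        have h1 : ∀ j : P, pi a b K v j = none := by
          intro j
          simp only [hZ, Set.mem_insert_iff, Set.mem_singleton_iff] at hvZ
          exact pi_eq_none.2 hvZ
        have h2 : u ∉ K := by rw [← hρu]; exact (hρspec u huZ).1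
        simp only [hφ, h1, pi_priv haK hbK h2, hs, hρu]
        exact (hp (side v) u ⟨u, huZ, hρu⟩).symm
      · have hρuv : ρ u = ρ v := by
          have h1 : Q.top Z u = Q.top Z (Q.par u) := RT.top_step huv.1 (by rw [huv.2]; exact hvZ)
          rw [huv.2] at h1
          exact h1
        have hv' : v ≠ a ∧ v ≠ b := by
          simpa only [hZ, Set.mem_insert_iff, Set.mem_singleton_iff, not_or] using hvZ
        simp only [hφ, hs, hρuv]
        apply hred
        · refine ⟨fun e => ?_, u, v, _, Or.inl huv, ?_, rfl, rfl⟩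
          · exact huv.ne (pi_inj e hua hub)
          · intro e
            simp only [Sym2.eq_iff] at e
            tauto
        · intro e
          have := pi_eq_none.1 e
          tauto
        · intro e
          have := pi_eq_none.1 e
          tauto
  refine ⟨⟨⟨φ, ?_⟩, ?_⟩⟩
  · intro u v huv
    rcases huv with h | h
    · exact key u v h
    · exact (key v u h).symm
  · intro u v huv
    have h1 : side u = side v := congrArg Prod.fst huv
    have h2 : pi a b K u (p (side u) (ρ u)) = pi a b K v (p (side v) (ρ v)) := by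
      have := congrArg Prod.snd huv
      simpa [hφ] using this
    by_cases hu : u = a ∨ u = b
    · have h3 : pi a b K u (p (side u) (ρ u)) = none := pi_eq_none.2 hu
      rw [h3] at h2
      have h4 := pi_eq_none.1 h2.symm
      have hna : ¬ Q.Anc b a := by rw [← hQ1]; exact hba.not_anc
      rcases hu with rfl | rfl <;> rcases h4 with rfl | rfl
      · rfl
      · exfalso
        simp only [hside, hna, if_false, Q.anc_refl, if_true] at h1
        exact hii h1
      · exfalso
        simp only [hside, hna, if_false, Q.anc_refl, if_true] at h1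
        exact hii h1.symm
      · rfl
    · push Not at hu
      exact pi_inj h2 hu.1 hu.2

end

theorem thmB {V : Type} [Fintype V] {T : SimpleGraph V} (hT : T.IsTree) (hn : 2 ≤ Fintype.card V)
    (hG : Good T) (r : ℕ) (hr : 1 ≤ r) :
    ¬ REquiv T (⊤ : SimpleGraph (Fin (r + 2))) T (KPend (r + 2)) := by
  intro h
  obtain ⟨a, b, K, hK, hfree⟩ := hG
  obtain ⟨P, hPfin, GP, hP1, hP2⟩ := exists_P hT (r + 1) (by omega)
  have hPne : Nonempty P := by
    by_contra hemp
    rw [not_nonempty_iff] at hemp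
    rcases hP2 ⊥ bot_le with ⟨⟨ψ⟩⟩ | ⟨⟨ψ⟩⟩
    · obtain ⟨v⟩ := hT.connected.nonempty
      exact hemp.elim (ψ v)
    · exact hemp.elim (ψ 0)
  have hN : Fintype.card V = (Fintype.card V - 1) + 1 := by omega
  have h1 := arrows_top T a b K GP r (Fintype.card V - 1) hT hN (by omega) hK hP2
  have h2 := not_arrows_pend T a b K GP r (Fintype.card V - 1) hT hN (hfree P) hP1
  exact h2 ((h _ _).1 h1)

end WV
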