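import Mathlib

/-! MP_722e70_co : Ramsey equivalence of (T, K_t) and (T, K_t . K_2) for trees.  Definitions and block statements. -/

namespace WV

open SimpleGraph

/-- `F → (G, H)`: for every red/blue colouring of the edges of `F` (`R` is the graph of the red edges,
`F \ R` the graph of the blue ones) there is a red copy of `G` or a blue copy of `H`. -/
def Arrows {V A B : Type} (F : SimpleGraph V) (G : SimpleGraph A) (H : SimpleGraph B) : Prop :=
  ∀ R : SimpleGraph V, R ≤ F → G ⊑ R ∨ H ⊑ F \ R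

/-- The pairs `(G, H)` and `(G', H')` are Ramsey equivalent: the same finite graphs are Ramsey for them. -/
def REquiv {A B A' B' : Type} (G : SimpleGraph A) (H : SimpleGraph B)
    (G' : SimpleGraph A') (H' : SimpleGraph B') : Prop :=
  ∀ (V : Type) [Finite V] (F : SimpleGraph V), Arrows F G H ↔ Arrows F G' H'

/-- The complete graph on `t` vertices with one pendant edge (at the vertex `0`): `K_t . K_2`. -/
def KPend (t : ℕ) : SimpleGraph (Option (Fin t)) where
  Adj x y := match x, y with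
    | some i, some j => i ≠ j
    | none, some j => j.val = 0
    | some i, none => i.val = 0
    | none, none => False
  symm := ⟨by
    intro x y h
    cases x <;> cases y <;> simp_all [eq_comm]⟩
  loopless := ⟨by
    intro x h
    cases x <;> simp_all⟩

/-- `G` is `k`-woven. -/
def KWoven {A : Type} (k : ℕ) (G : SimpleGraph A) : Prop :=
  ∀ (V : Type) [Finite V] (F : SimpleGraph V) (u v : V), F.Adj u v →
    (∀ f : Copy G F, ∃ a b, G.Adj a b ∧ s(f a, f b) = s(u, v)) →
    ∃ X Y : Finset (Sym2 V), X.card ≤ k ∧ Y.card ≤ k ∧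
      (∀ e ∈ X, e ∈ F.edgeSet ∧ e ≠ s(u, v) ∧ u ∈ e) ∧
      (∀ e ∈ Y, e ∈ F.edgeSet ∧ e ≠ s(u, v) ∧ v ∈ e) ∧
      ∀ f : Copy G F, ∃ a b, G.Adj a b ∧ (s(f a, f b) ∈ X ∨ s(f a, f b) ∈ Y)

/-- `G` is woven. -/
def Woven {A : Type} (G : SimpleGraph A) : Prop := ∃ k, KWoven k G

/-! ### The sunflower of `T / ab` with kernel `K` -/

section Sun
variable {V : Type} (T : SimpleGraph V) (a b : V) (K : Set V) (I : Type)

open Classical in
/-- the place of the vertex `u` of petal `j`: `none` for `u = a, b`, shared for `u ∈ K`. -/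
noncomputable def pi {V : Type} (a b : V) (K : Set V) {I : Type} (u : V) (j : I) : Option (V × Option I) :=
  if u = a ∨ u = b then none else if u ∈ K then some (u, none) else some (u, some j)

/-- the `I`-fold sunflower of `T / ab` with kernel `K`. -/
def Sun : SimpleGraph (Option (V × Option I)) where
  Adj x y := x ≠ y ∧ ∃ u v j, T.Adj u v ∧ s(u, v) ≠ s(a, b) ∧ x = pi a b K u j ∧ y = pi a b K v j
  symm := ⟨by
    rintro x y ⟨h, u, v, j, h1, h2, h3, h4⟩
    exact ⟨h.symm, v, u, j, h1.symm, by rwa [Sym2.eq_swap], h4, h3⟩⟩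
  loopless := ⟨fun x h => h.1 rfl⟩

/-- admissible kernel data: `ab` is an edge of `T`, `a, b ∈ K`, no further neighbour of `a` or `b` is in `K`. -/
def Adm : Prop := T.Adj a b ∧ a ∈ K ∧ b ∈ K ∧ ∀ u ∈ K, u ≠ a → u ≠ b → ¬ T.Adj a u ∧ ¬ T.Adj b u

end Sun

/-- `T` has a symmetric witness. -/
def Good {V : Type} (T : SimpleGraph V) : Prop :=
  ∃ a b : V, ∃ K : Set V, Adm T a b K ∧ ∀ (I : Type) [Finite I], ¬ T ⊑ Sun T a b K I

/-- the rigid gadget: cocktail party graph on `q` pairs, every vertex blown up to a clique of size `n`. -/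
def ZG (q n : ℕ) : SimpleGraph (Fin q × Bool × Fin n) where
  Adj x y := x ≠ y ∧ (x.1 = y.1 → x.2.1 = y.2.1)
  symm := ⟨fun x y h => ⟨h.1.symm, fun e => (h.2 e.symm).symm⟩⟩
  loopless := ⟨fun x h => h.1 rfl⟩

end WV
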