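import Pool.Agent.Helper29.WV.ThmA

/-! the graph `F` of Theorem B -/

namespace WV

open SimpleGraph

section
variable {V P : Type} (T : SimpleGraph V) (a b : V) (K : Set V) (GP : SimpleGraph P) (r N : ℕ)

abbrev WW (V P : Type) := Option (V × Option P)

abbrev ZV (r N : ℕ) := Fin (r + 1) × Bool × Fin N

/-- vertices of `F` -/
abbrev XX (V P : Type) (r N : ℕ) := Fin (r + 2) × (WW V P ⊕ (WW V P × WW V P × ZV r N))

/-- representatives in the rigid gadget -/
def QQ {r N : ℕ} (z : ZV r N) : Prop := z.1 ≠ Fin.last r ∧ z.2.1 = false ∧ z.2.2.val = 0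

def PE (x y : WW V P) : Prop :=
  ∃ v p p', v ∉ K ∧ (T.Adj a v ∨ T.Adj b v) ∧ GP.Adj p p' ∧ x = some (v, some p) ∧ y = some (v, some p')

def att {r N : ℕ} (x x1 x2 : WW V P) (z : ZV r N) : Prop :=
  (Sun T a b K P).Adj x1 x2 ∧ x1 ≠ none ∧ x2 ≠ none ∧ (x = x1 ∨ x = x2) ∧ QQ z

def FAdj : XX V P r N → XX V P r N → Prop
  | (i, Sum.inl x), (i', Sum.inl x') =>
      (i = i' ∧ ((Sun T a b K P).Adj x x' ∨ PE T a b K GP x x')) ∨ (i ≠ i' ∧ x = none ∧ x' = none)
  | (i, Sum.inl x), (i', Sum.inr (x1, x2, z)) => i = i' ∧ att T a b K x x1 x2 z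
  | (i, Sum.inr (x1, x2, z)), (i', Sum.inl x) => i = i' ∧ att T a b K x x1 x2 z
  | (i, Sum.inr (x1, x2, z)), (i', Sum.inr (x1', x2', z')) =>
      i = i' ∧ x1 = x1' ∧ x2 = x2' ∧ (ZG (r + 1) N).Adj z z'

def RAdj : XX V P r N → XX V P r N → Prop
  | (i, Sum.inl x), (i', Sum.inl x') => i = i' ∧ (Sun T a b K P).Adj x x'
  | (_, Sum.inl _), (_, Sum.inr _) => False
  | (_, Sum.inr _), (_, Sum.inl _) => False
  | (i, Sum.inr (x1, x2, z)), (i', Sum.inr (x1', x2', z')) =>
      i = i' ∧ x1 = x1' ∧ x2 = x2' ∧ (ZG (r + 1) N).Adj z z' ∧ z.1 = z'.1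

lemma PE_symm {x y : WW V P} (h : PE T a b K GP x y) : PE T a b K GP y x := by
  obtain ⟨v, p, p', h1, h2, h3, h4, h5⟩ := h
  exact ⟨v, p', p, h1, h2, h3.symm, h5, h4⟩

lemma PE_irr {x : WW V P} (h : PE T a b K GP x x) : False := by
  obtain ⟨v, p, p', h1, h2, h3, h4, h5⟩ := h
  rw [h4] at h5
  simp only [Option.some.injEq, Prod.mk.injEq, true_and] at h5
  rw [h5] at h3
  exact h3.ne rfl

def FF : SimpleGraph (XX V P r N) where
  Adj := FAdj T a b K GP r N
  symm := ⟨by
    rintro ⟨i, x | ⟨x1, x2, z⟩⟩ ⟨i', x' | ⟨x1', x2', z'⟩⟩ h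
    · rcases h with ⟨h1, h2 | h2⟩ | ⟨h1, h2, h3⟩
      · exact Or.inl ⟨h1.symm, Or.inl h2.symm⟩
      · exact Or.inl ⟨h1.symm, Or.inr (PE_symm _ _ _ _ _ h2)⟩
      · exact Or.inr ⟨fun e => h1 e.symm, h3, h2⟩
    · exact ⟨h.1.symm, h.2⟩
    · exact ⟨h.1.symm, h.2⟩
    · exact ⟨h.1.symm, h.2.1.symm, h.2.2.1.symm, h.2.2.2.symm⟩⟩
  loopless := ⟨by
    rintro ⟨i, x | ⟨x1, x2, z⟩⟩ h
    · rcases h with ⟨h1, h2 | h2⟩ | ⟨h1, h2, h3⟩
      · exact h2.ne rfl
      · exact PE_irr _ _ _ _ _ h2
      · exact h1 rfl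
    · exact h.2.2.2.ne rfl⟩

def RR : SimpleGraph (XX V P r N) where
  Adj := RAdj T a b K r N
  symm := ⟨by
    rintro ⟨i, x | ⟨x1, x2, z⟩⟩ ⟨i', x' | ⟨x1', x2', z'⟩⟩ h
    · exact ⟨h.1.symm, h.2.symm⟩
    · exact h
    · exact h
    · exact ⟨h.1.symm, h.2.1.symm, h.2.2.1.symm, h.2.2.2.1.symm, h.2.2.2.2.symm⟩⟩
  loopless := ⟨by
    rintro ⟨i, x | ⟨x1, x2, z⟩⟩ h
    · exact h.2.ne rfl
    · exact h.2.2.2.1.ne rfl⟩

lemma RR_le : RR T a b K r N ≤ FF T a b K GP r N := by
  rintro ⟨i, x | ⟨x1, x2, z⟩⟩ ⟨i', x' | ⟨x1', x2', z'⟩⟩ h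
  · exact Or.inl ⟨h.1, Or.inl h.2⟩
  · exact absurd h id
  · exact absurd h id
  · exact ⟨h.1, h.2.1, h.2.2.1, h.2.2.2.1⟩

lemma const_of_conn {A B : Type} {T : SimpleGraph A} (hT : T.Connected) (l : A → B)
    (h : ∀ u v, T.Adj u v → l u = l v) (u v : A) : l u = l v := by
  obtain ⟨w⟩ := hT.preconnected u v
  induction w with
  | nil => rfl
  | cons hadj _ ih => exact (h _ _ hadj).trans ih

/-- no red `T` -/
lemma no_red [Fintype V] (hT : T.IsTree) (hN : Fintype.card V = N + 1)
    (hfree : ¬ T ⊑ Sun T a b K P) : ¬ T ⊑ RR T a b K (P := P) r N := by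
  classical
  rintro ⟨ψ⟩
  have hadj : ∀ u v, T.Adj u v → RAdj T a b K r N (ψ u) (ψ v) := fun u v h => ψ.toHom.map_adj h
  set l : V → Fin (r + 2) × Option (WW V P × WW V P × Fin (r + 1) × Bool) := fun u =>
    match ψ u with
    | (i, Sum.inl _) => (i, none)
    | (i, Sum.inr (x1, x2, z)) => (i, some (x1, x2, z.1, z.2.1)) with hl
  have hconst := const_of_conn hT.connected l (by
    intro u v huv
    have h := hadj u v huv
    simp only [hl]
    rcases hu : ψ u with ⟨i, x | ⟨x1, x2, z⟩⟩ <;> rcases hv : ψ v with ⟨i', x' | ⟨x1', x2', z'⟩⟩ <;>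
      rw [hu, hv] at h
    · simp only [Prod.mk.injEq, and_true]; exact h.1
    · exact absurd h id
    · exact absurd h id
    · obtain ⟨h1, h2, h3, h4, h5⟩ := h
      have h6 := h4.2 h5
      subst h1; subst h2; subst h3
      simp only [Prod.mk.injEq, Option.some.injEq, true_and]
      exact ⟨h5, h6⟩)
  obtain ⟨v₀⟩ := hT.connected.nonempty
  rcases h0 : ψ v₀ with ⟨i, x | ⟨x1, x2, z⟩⟩
  · -- in the sunflower
    have hall : ∀ v, ∃ x, ψ v = (i, Sum.inl x) := by
      intro v
      have h := hconst v v₀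
      simp only [hl] at h
      rw [h0] at h
      rcases hv : ψ v with ⟨i', x' | ⟨x1', x2', z'⟩⟩ <;> rw [hv] at h
      · simp only [Prod.mk.injEq, and_true] at h
        exact ⟨x', by rw [h]⟩
      · simp at h
    choose x hx using hall
    apply hfree
    refine ⟨⟨⟨x, ?_⟩, ?_⟩⟩
    · intro u v huv
      have h := hadj u v huv
      rw [hx u, hx v] at h
      exact h.2
    · intro u v huv
      apply ψ.injective
      show ψ u = ψ v
      rw [hx u, hx v, show x u = x v from huv]
  · have hall : ∀ v, ∃ c, ψ v = (i, Sum.inr (x1, x2, (z.1, z.2.1, c))) := by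
      intro v
      have h := hconst v v₀
      simp only [hl] at h
      rw [h0] at h
      rcases hv : ψ v with ⟨i', x' | ⟨x1', x2', z'⟩⟩ <;> rw [hv] at h
      · simp at h
      · simp only [Prod.mk.injEq, Option.some.injEq] at h
        obtain ⟨h1, h2, h3, h4, h5⟩ := h
        exact ⟨z'.2.2, by rw [h1, h2, h3, ← h4, ← h5]⟩
    choose c hc using hall
    have hinj : Function.Injective c := by
      intro u v huv
      apply ψ.injective
      show ψ u = ψ v
      rw [hc u, hc v, huv]
    have := Fintype.card_le_of_injective c hinj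
    rw [hN, Fintype.card_fin] at this
    omega

/-- blue neighbours of the centre -/
lemma blue_center (i : Fin (r + 2)) {y : XX V P r N}
    (h : (FF T a b K GP r N \ RR T a b K r N).Adj (i, Sum.inl none) y) : ∃ i', y = (i', Sum.inl none) := by
  rw [SimpleGraph.sdiff_adj] at h
  obtain ⟨h1, h2⟩ := h
  rcases y with ⟨i', x' | ⟨x1', x2', z'⟩⟩
  · rcases h1 with ⟨h3, h4 | h4⟩ | ⟨h3, h4, h5⟩
    · exact absurd (show RAdj T a b K r N (i, Sum.inl none) (i', Sum.inl x') from ⟨h3, h4⟩) h2
    · obtain ⟨v, p, p', _, _, _, h5, _⟩ := h4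
      simp at h5
    · exact ⟨i', by rw [h5]⟩
  · obtain ⟨_, _, h3, h4, h5, _⟩ := h1
    rcases h5 with h5 | h5
    · exact absurd h5.symm h3
    · exact absurd h5.symm h4

lemma no_blue (hP : ¬ (⊤ : SimpleGraph (Fin (r + 2))) ⊑ GP) :
    ¬ KPend (r + 2) ⊑ FF T a b K GP r N \ RR T a b K r N := by
  classical
  rintro ⟨κ⟩
  have hadjB : ∀ i j : Fin (r + 2), i ≠ j →
      (FF T a b K GP r N \ RR T a b K r N).Adj (κ (some i)) (κ (some j)) := fun i j h =>
    κ.toHom.map_adj (show (KPend (r + 2)).Adj (some i) (some j) from h)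
  have hadj : ∀ i j : Fin (r + 2), i ≠ j → FAdj T a b K GP r N (κ (some i)) (κ (some j)) ∧
      ¬ RAdj T a b K r N (κ (some i)) (κ (some j)) := by
    intro i j h
    have h1 := hadjB i j h
    rw [SimpleGraph.sdiff_adj] at h1
    exact h1
  have hpend : (FF T a b K GP r N \ RR T a b K r N).Adj (κ (some 0)) (κ none) :=
    κ.toHom.map_adj (show (KPend (r + 2)).Adj (some 0) none from rfl)
  by_cases hc : ∃ i₀ i, κ (some i₀) = (i, Sum.inl none)
  · -- all central
    obtain ⟨i₀, i, h0⟩ := hc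
    have hall : ∀ j, ∃ i', κ (some j) = (i', Sum.inl none) := by
      intro j
      by_cases hj : i₀ = j
      · exact ⟨i, by rw [← hj]; exact h0⟩
      · have := hadjB i₀ j hj
        rw [h0] at this
        exact blue_center T a b K GP r N i this
    choose σ hσ using hall
    have hinj : Function.Injective σ := by
      intro u v huv
      have : κ (some u) = κ (some v) := by rw [hσ u, hσ v, huv]
      exact Option.some_injective _ (κ.injective this)
    have hsurj := Finite.surjective_of_injective hinj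
    rw [hσ 0] at hpend
    obtain ⟨i', hi'⟩ := blue_center T a b K GP r N _ hpend
    obtain ⟨j, hj⟩ := hsurj i'
    have : κ none = κ (some j) := by rw [hi', hσ j, hj]
    have h2 := κ.injective this
    simp at h2
  · push Not at hc
    -- equal index
    have hidx : ∀ i j, (κ (some i)).1 = (κ (some j)).1 := by
      intro i j
      by_cases hij : i = j
      · rw [hij]
      · have h1 := (hadj i j hij).1
        rcases hu : κ (some i) with ⟨k, x | ⟨x1, x2, z⟩⟩ <;>
          rcases hv : κ (some j) with ⟨k', x' | ⟨x1', x2', z'⟩⟩ <;> rw [hu, hv] at h1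
        · rcases h1 with ⟨h3, _⟩ | ⟨_, h4, _⟩
          · exact h3
          · exact absurd (by rw [hu, h4]) (hc i k)
        · exact h1.1
        · exact h1.1
        · exact h1.1
    by_cases hA : ∃ j k x1 x2 z, κ (some j) = (k, Sum.inr (x1, x2, z))
    · obtain ⟨j₀, k, x1, x2, z₀, h0⟩ := hA
      -- colouring with r + 1 colours
      have hall : ∀ j, (∃ z, κ (some j) = (k, Sum.inr (x1, x2, z))) ∨
          (∃ x, κ (some j) = (k, Sum.inl x) ∧ (x = x1 ∨ x = x2) ∧ (Sun T a b K P).Adj x1 x2) := by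
        intro j
        by_cases hj : j₀ = j
        · left; exact ⟨z₀, by rw [← hj]; exact h0⟩
        · have h1 := (hadj j₀ j hj).1
          rw [h0] at h1
          rcases hv : κ (some j) with ⟨k', x' | ⟨x1', x2', z'⟩⟩ <;> rw [hv] at h1
          · right
            obtain ⟨h2, h3, _, _, h6, _⟩ := h1
            exact ⟨x', by rw [h2], h6, h3⟩
          · left
            obtain ⟨h2, h3, h4, _⟩ := h1
            exact ⟨z', by rw [h2, h3, h4]⟩
      set χ : Fin (r + 2) → Fin (r + 1) := fun j =>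
        match κ (some j) with
        | (_, Sum.inl _) => Fin.last r
        | (_, Sum.inr (_, _, z)) => z.1 with hχ
      have hinj : Function.Injective χ := by
        intro j j' hjj
        by_contra hne
        obtain ⟨h1, h2⟩ := hadj j j' hne
        simp only [hχ] at hjj
        rcases hall j with ⟨z, hz⟩ | ⟨x, hx, hx', hS⟩ <;> rcases hall j' with ⟨z', hz'⟩ | ⟨y, hy, hy', _⟩
        · rw [hz, hz'] at h1 h2 hjj
          exact h2 ⟨rfl, rfl, rfl, h1.2.2.2, hjj⟩
        · rw [hz, hy] at h1 hjj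
          obtain ⟨_, _, _, _, _, hq⟩ := h1
          exact hq.1 hjj
        · rw [hx, hz'] at h1 hjj
          obtain ⟨_, _, _, _, _, hq⟩ := h1
          exact hq.1 hjj.symm
        · rw [hx, hy] at h2
          have hxy : x ≠ y := by
            rintro rfl
            exact hne (Option.some_injective _ (κ.injective (hx.trans hy.symm)))
          apply h2
          refine ⟨rfl, ?_⟩
          rcases hx' with rfl | rfl <;> rcases hy' with rfl | rfl
          · exact absurd rfl hxy
          · exact hS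
          · exact hS.symm
          · exact absurd rfl hxy
      have := Fintype.card_le_of_injective χ hinj
      rw [Fintype.card_fin, Fintype.card_fin] at this
      omega
    · push Not at hA
      -- a clique in GP
      have hall : ∀ j, ∃ x, κ (some j) = ((κ (some 0)).1, Sum.inl x) := by
        intro j
        rcases hv : κ (some j) with ⟨k', x' | ⟨x1', x2', z'⟩⟩
        · have := hidx j 0
          rw [hv] at this
          exact ⟨x', by rw [← this]⟩
        · exact absurd hv (hA j k' x1' x2' z')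
      choose x hx using hall
      have hPE : ∀ i j, i ≠ j → PE T a b K GP (x i) (x j) := by
        intro i j hij
        obtain ⟨h1, h2⟩ := hadj i j hij
        rw [hx i, hx j] at h1 h2
        rcases h1 with ⟨_, h3 | h3⟩ | ⟨h3, _⟩
        · exact absurd ⟨rfl, h3⟩ h2
        · exact h3
        · exact absurd rfl h3
      obtain ⟨v, p0, p1, _, _, _, hv0, _⟩ := hPE 0 1 (by simp [Fin.ext_iff])
      have hp : ∀ j, ∃ p, x j = some (v, some p) := by
        intro j
        by_cases hj : j = 0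
        · exact ⟨p0, by rw [hj]; exact hv0⟩
        · obtain ⟨v', q0, q1, _, _, _, h3, h4⟩ := hPE 0 j (fun e => hj e.symm)
          rw [hv0] at h3
          simp only [Option.some.injEq, Prod.mk.injEq] at h3
          exact ⟨q1, by rw [h4, h3.1]⟩
      choose p hp using hp
      apply hP
      refine ⟨⟨⟨p, ?_⟩, ?_⟩⟩
      · intro i j hij
        obtain ⟨v', q0, q1, _, _, h2, h3, h4⟩ := hPE i j hij
        rw [hp i] at h3
        rw [hp j] at h4
        simp only [Option.some.injEq, Prod.mk.injEq] at h3 h4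
        rw [h3.2, h4.2]
        exact h2
      · intro i j hij
        have h1 : κ (some i) = κ (some j) := by
          rw [hx i, hx j, hp i, hp j, show p i = p j from hij]
        exact Option.some_injective _ (κ.injective h1)

lemma not_arrows_pend [Fintype V] (hT : T.IsTree) (hN : Fintype.card V = N + 1)
    (hfree : ¬ T ⊑ Sun T a b K P) (hP : ¬ (⊤ : SimpleGraph (Fin (r + 2))) ⊑ GP) :
    ¬ Arrows (FF T a b K GP r N) T (KPend (r + 2)) := by
  intro h
  rcases h _ (RR_le T a b K GP r N) with h | h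
  · exact no_red T a b K r N hT hN hfree h
  · exact no_blue T a b K GP r N hP h

end

end WV
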