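import Pool.Agent.Helper29.WV.Multi

/-! the structure at an edge `d - g` below the root -/

namespace WV

open SimpleGraph

/-- siblings of `g` of size `γ` -/
def Sib {V : Type} [Fintype V] (R : RT V) (d g : V) (γ : ℕ) (c : V) : Prop :=
  R.IsCh c d ∧ c ≠ g ∧ R.sz c = γ

/-- the kernel -/
def KG {V : Type} [Fintype V] (R : RT V) (d g dp : V) (γ : ℕ) (hub : V → V) : Set V :=
  {u | u = d ∨ u = g ∨ u = dp ∨ ∃ c, Sib R d g γ c ∧ R.Anc (hub c) u}

structure GamSet {V : Type} [Fintype V] (R : RT V) (d g dp : V) (γ μ : ℕ) (hub : V → V) : Prop where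
  hd : R.IsCh d R.root
  hdp : R.IsCh dp R.root
  hne : d ≠ dp
  hg : R.IsCh g d
  hdμ : R.sz d = μ
  hdpμ : R.sz dp = μ
  hgγ : R.sz g = γ
  hdγ : ∀ c, R.IsCh c d → R.sz c ≤ γ
  hdpγ : ∀ c, R.IsCh c dp → R.sz c ≤ γ
  hcard : Fintype.card V < 3 * μ
  hhub : ∀ c, Sib R d g γ c → R.IsCh (hub c) c

section
variable {V : Type} {R : RT V} [Fintype V] {μ γ : ℕ} {d g dp : V} {hub : V → V}

lemma GamSet.adm (S : GamSet R d g dp γ μ hub) : Adm R.G d g (KG R d g dp γ hub) := by
  refine ⟨Or.inr S.hg, Or.inl rfl, Or.inr (Or.inl rfl), ?_⟩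
  intro u hu h1 h2
  have hgr : g ≠ R.root := S.hg.1
  rcases hu with hu | hu | hu | ⟨c, hc, hu⟩
  · exact absurd hu h1
  · exact absurd hu h2
  · subst hu
    constructor
    · rintro (h4 | h4)
      · have := S.hd.2; rw [h4.2] at this; exact S.hdp.1 this
      · have := S.hdp.2; rw [h4.2] at this; exact S.hd.1 this
    · rintro (h4 | h4)
      · have := S.hg.2; rw [h4.2] at this; exact S.hne this.symm
      · have := S.hdp.2; rw [h4.2] at this; exact hgr this
  · have h3 : R.Anc c u := R.anc_trans (S.hhub c hc).anc hu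
    have h4 : R.Anc d u := R.anc_trans hc.1.anc h3
    constructor
    · rintro (h5 | h5)
      · have := S.hd.2; rw [h5.2] at this
        subst this
        exact S.hd.1 (R.anc_root_right h4)
      · have := R.ch_disj hc.1 h5 h3 (R.anc_refl u)
        subst this
        exact (S.hhub c hc).not_anc hu
    · rintro (h5 | h5)
      · have := S.hg.2; rw [h5.2] at this
        exact h1 this
      · exact hc.2.1 (R.ch_disj hc.1 S.hg h3 ⟨1, h5.2⟩)

theorem gam (S : GamSet R d g dp γ μ hub) {I : Type}
    (hΓ : (∃ c, R.IsCh c dp ∧ R.sz c = γ) →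
      ((R.Ch d).filter (fun c => R.sz c = γ)).card ≤ ((R.Ch dp).filter (fun c => R.sz c = γ)).card)
    (ψ : Copy R.G (Sun R.G d g (KG R d g dp γ hub) I)) :
    ∃ m c, (m = d ∨ m = dp) ∧ R.IsCh c m ∧ R.sz c = γ ∧ (R.Ch c).card + 2 ≤ (R.Ch R.root).card := by
  classical
  obtain ⟨hd, hdp, hne, hg, hdμ, hdpμ, hgγ, hdγ, hdpγ, hcard, hhub⟩ := S
  set f := R.root with hf
  set K := KG R d g dp γ hub with hK
  have haK : d ∈ K := Or.inl rfl
  have hbK : g ∈ K := Or.inr (Or.inl rfl)
  have hdpK : dp ∈ K := Or.inr (Or.inr (Or.inl rfl))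
  have hV : ∃ v, v ≠ R.root := ⟨d, hd.1⟩
  have hγμ : γ < μ := by rw [← hgγ, ← hdμ]; exact R.sz_lt hg
  -- basic positions
  have hdpd : ∀ u, R.Anc d u → ¬ R.Anc dp u := fun u h1 h2 => hne (R.ch_disj hd hdp h1 h2)
  have hfd : ¬ R.Anc d f := hd.not_anc
  have hfdp : ¬ R.Anc dp f := hdp.not_anc
  have hKout : ∀ u, ¬ R.Anc d u → u ≠ dp → u ∉ K := by
    rintro u h1 h2 (h3 | h3 | h3 | ⟨c, hc, h3⟩)
    · exact h1 (h3 ▸ R.anc_refl _)
    · exact h1 (h3 ▸ hg.anc)
    · exact h2 h3
    · exact h1 (R.anc_trans hc.1.anc (R.anc_trans (hhub c hc).anc h3))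
  have hfK : f ∉ K := hKout f hfd hdp.1.symm
  have hbelowdp : ∀ u, R.Anc dp u → u ≠ dp → u ∉ K := fun u h1 h2 => hKout u (fun h3 => hdpd u h3 h1) h2
  have hdpdg : dp ≠ d ∧ dp ≠ g := ⟨hne.symm, fun e => hdpd g hg.anc (e ▸ R.anc_refl _)⟩
  have hhubd : ∀ c, Sib R d g γ c → hub c ≠ d ∧ hub c ≠ g := by
    intro c hc
    constructor
    · intro e
      exact hc.1.not_anc (by have := (hhub c hc).anc; rw [e] at this; exact this)
    · intro e
      have := (hhub c hc).anc
      rw [e] at this
      exact hc.2.1 (R.ch_disj hc.1 hg this (R.anc_refl _))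
  have hhubK : ∀ c, Sib R d g γ c → hub c ∈ K := fun c hc =>
    Or.inr (Or.inr (Or.inr ⟨c, hc, R.anc_refl _⟩))
  have hpidp : ∀ j : I, pi d g K dp j = some (dp, none) := fun j => pi_K hdpK hdpdg.1 hdpdg.2
  have hpihub : ∀ c, Sib R d g γ c → ∀ j : I, pi d g K (hub c) j = some (hub c, none) := fun c hc j =>
    pi_K (hhubK c hc) (hhubd c hc).1 (hhubd c hc).2
  have hsibK : ∀ c, Sib R d g γ c → c ∉ K := by
    rintro c hc (h3 | h3 | h3 | ⟨c', hc', h3⟩)
    · exact hc.1.ne h3
    · exact hc.2.1 h3
    · exact hdpd c hc.1.anc (h3 ▸ R.anc_refl _)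
    · have := R.ch_disj hc'.1 hc.1 (R.anc_trans (hhub c' hc').anc h3) (R.anc_refl _)
      subst this
      exact (hhub c' hc').not_anc h3
  -- Z
  set Z : Set V := {u | u = d ∨ u = g ∨ u = dp ∨ ∃ c, Sib R d g γ c ∧ u = hub c} with hZ
  have hdZ : d ∈ Z := Or.inl rfl
  have hgZ : g ∈ Z := Or.inr (Or.inl rfl)
  have hdpZ : dp ∈ Z := Or.inr (Or.inr (Or.inl rfl))
  have hhubZ : ∀ c, Sib R d g γ c → hub c ∈ Z := fun c hc => Or.inr (Or.inr (Or.inr ⟨c, hc, rfl⟩))
  have hcl : ∀ u, u ∉ Z → u ≠ R.root → R.par u ∉ Z → (u ∈ K ↔ R.par u ∈ K) := by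
    intro u h1 h2 h3
    constructor
    · rintro (h4 | h4 | h4 | ⟨c, h4, h6⟩)
      · exact absurd (Or.inl h4) h1
      · exact absurd (Or.inr (Or.inl h4)) h1
      · exact absurd (Or.inr (Or.inr (Or.inl h4))) h1
      · exact Or.inr (Or.inr (Or.inr ⟨c, h4, R.anc_par h6 (fun e => h1 (e ▸ hhubZ c h4))⟩))
    · rintro (h4 | h4 | h4 | ⟨c, h4, h6⟩)
      · exact absurd (Or.inl h4) h3
      · exact absurd (Or.inr (Or.inl h4)) h3
      · exact absurd (Or.inr (Or.inr (Or.inl h4))) h3
      · exact Or.inr (Or.inr (Or.inr ⟨c, h4, R.anc_of_par h6⟩))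
  have hinZ : ∀ x, InZ d g K I Z x → x = none ∨ x = some (dp, none) ∨ ∃ c, Sib R d g γ c ∧ x = some (hub c, none) := by
    rintro x ⟨z, hz, j, hzj⟩
    rcases hz with rfl | rfl | rfl | ⟨c, hc, rfl⟩
    · left; rw [hzj]; exact pi_a j
    · left; rw [hzj]; exact pi_b j
    · right; left; rw [hzj]; exact hpidp j
    · right; right; exact ⟨c, hc, by rw [hzj]; exact hpihub c hc j⟩
  -- class sizes
  have hclsroot : (R.cls Z f).card < μ := by
    have h1 : R.cls Z f ∪ (R.De d ∪ R.De dp) ⊆ Finset.univ := Finset.subset_univ _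
    have h2 : Disjoint (R.De d) (R.De dp) := by
      rw [Finset.disjoint_left]; intro u hu hu'
      rw [RT.mem_De] at hu hu'; exact hdpd u hu hu'
    have h3 : Disjoint (R.cls Z f) (R.De d ∪ R.De dp) := by
      rw [Finset.disjoint_left]; intro u hu hu'
      rw [RT.mem_cls] at hu
      rcases Finset.mem_union.1 hu' with hu' | hu' <;> rw [RT.mem_De] at hu'
      · have := (RT.top_hub hdZ hu' (fun e => hu.1 (e ▸ hdZ))).1
        rw [hu.2] at this; exact hfd this
      · have := (RT.top_hub hdpZ hu' (fun e => hu.1 (e ▸ hdpZ))).1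
        rw [hu.2] at this; exact hfdp this
    have h4 := Finset.card_le_card h1
    rw [Finset.card_union_of_disjoint h3, Finset.card_union_of_disjoint h2] at h4
    have h5 : (R.De d).card = R.sz d := rfl
    have h6 : (R.De dp).card = R.sz dp := rfl
    have h7 : (Finset.univ : Finset V).card = Fintype.card V := rfl
    omega
  have hclass : ∀ u, u ∉ Z → R.top Z u = f ∨ (R.top Z u ≠ f ∧ R.IsCh (R.top Z u) dp) ∨
      (R.Anc d (R.top Z u) ∧ (R.cls Z (R.top Z u)).card < γ) := by
    intro u hu
    rcases RT.top_spec (R := R) Z u with h | h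
    · left; exact h
    · by_cases hc0 : R.top Z u = f
      · left; exact hc0
      · right
        rcases h with h | h | h | ⟨c, hc, h⟩
        · right
          have hch : R.IsCh (R.top Z u) d := ⟨hc0, h⟩
          refine ⟨hch.anc, ?_⟩
          have hng : R.top Z u ≠ g := by
            intro e
            have h1 : R.Anc g u := by rw [← e]; exact RT.top_anc Z u
            exact (RT.top_hub (Z := Z) hgZ h1 (fun e => hu (e ▸ hgZ))).2 e
          by_cases hs : R.sz (R.top Z u) = γ
          · have hsib : Sib R d g γ (R.top Z u) := ⟨hch, hng, hs⟩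
            have h1 := RT.cls_card_hub (R := R) (Z := Z) (c := R.top Z u) (h := hub (R.top Z u))
              (hhubZ _ hsib) (hhub _ hsib).anc
            have h2 := R.sz_pos (hub (R.top Z u))
            omega
          · have h1 := hdγ _ hch
            exact lt_of_le_of_lt (RT.cls_card_le Z _) (by omega)
        · right
          have hch : R.IsCh (R.top Z u) g := ⟨hc0, h⟩
          refine ⟨R.anc_trans hg.anc hch.anc, ?_⟩
          have := R.sz_lt hch
          exact lt_of_le_of_lt (RT.cls_card_le Z _) (by omega)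
        · left
          exact ⟨hc0, hc0, h⟩
        · right
          have hch : R.IsCh (R.top Z u) (hub c) := ⟨hc0, h⟩
          refine ⟨R.anc_trans hc.1.anc (R.anc_trans (hhub c hc).anc hch.anc), ?_⟩
          have h1 := R.sz_lt hch
          have h2 := R.sz_lt (hhub c hc)
          have h3 := hc.2.2
          exact lt_of_le_of_lt (RT.cls_card_le Z _) (by omega)
  have hclassμ : ∀ u, u ∉ Z → (R.cls Z (R.top Z u)).card < μ := by
    intro u hu
    rcases hclass u hu with h | ⟨_, h⟩ | ⟨_, h⟩
    · rw [h]; exact hclsroot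
    · have := hdpγ _ h
      exact lt_of_le_of_lt (RT.cls_card_le Z _) (by omega)
    · omega
  -- disjointness
  have hrt : ∀ m v, R.IsCh m f → R.Anc m v → ψ v ≠ ψ f := by
    intro m v h1 h2 h3
    have := psi_inj ψ h3
    subst this
    exact h1.not_anc h2
  have hconnDe : ∀ m, Conn R.G ((R.De m : Finset V) : Set V) := by
    intro m
    have := R.conn_De m
    convert this using 1
    ext u; simp
  -- label with Z3 = {d, g, dp}
  set Z3 : Set V := {d, g, dp} with hZ3
  have hinZ3 : ∀ x, InZ d g K I Z3 x → x = none ∨ x = some (dp, none) := by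
    rintro x ⟨z, hz, j, hzj⟩
    simp only [hZ3, Set.mem_insert_iff, Set.mem_singleton_iff] at hz
    rcases hz with rfl | rfl | rfl
    · left; rw [hzj]; exact pi_a j
    · left; rw [hzj]; exact pi_b j
    · right; rw [hzj]; exact hpidp j
  have htophub : ∀ c, Sib R d g γ c → R.top Z3 (hub c) = c := by
    intro c hc
    rw [RT.top_step (hhub c hc).1, (hhub c hc).2, RT.top_self]
    · right; rw [hc.1.2]; simp [hZ3]
    · rw [(hhub c hc).2]
      simp only [hZ3, Set.mem_insert_iff, Set.mem_singleton_iff, not_or]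
      exact ⟨hc.1.ne, hc.2.1, fun e => hdpd c hc.1.anc (e ▸ R.anc_refl _)⟩
  -- Claim 1
  have claim1 : ∀ m, (m = d ∨ m = dp) → (∀ v, R.Anc m v → ψ v ≠ none) →
      (∀ v, R.Anc m v → ψ v ≠ some (dp, none)) →
      m = dp ∧ (∃ c, Sib R d g γ c ∧ ψ m = some (hub c, none)) ∧ ∀ c', R.IsCh c' m → R.sz c' < γ := by
    intro m hm hav1 hav2
    have hmμ : R.sz m = μ := by rcases hm with rfl | rfl <;> assumption
    have hmγ : ∀ c, R.IsCh c m → R.sz c ≤ γ := by rcases hm with rfl | rfl <;> assumption
    obtain ⟨v0, hv0, c0, hc0, hv0c⟩ : ∃ v0, R.Anc m v0 ∧ ∃ c0, Sib R d g γ c0 ∧ ψ v0 = some (hub c0, none) := by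
      by_contra hcon
      push Not at hcon
      obtain ⟨u₀, o, h2, h3, h4, _⟩ := card_le_cls ψ haK hbK hdZ hgZ hcl hV
        (C := R.De m) (hconnDe m) (by
          intro v hv h
          rw [RT.mem_De] at hv
          rcases hinZ _ h with h | h | ⟨c, h, h'⟩
          · exact hav1 v hv h
          · exact hav2 v hv h
          · exact hcon v hv c h h') (v₀ := m) (by simp [R.anc_refl])
      have h5 := hclassμ u₀ h3
      have h7 : (R.De m).card = R.sz m := rfl
      omega
    -- everything is below c0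
    have hlab : ∀ v, R.Anc m v → ∃ u j, ψ v = pi d g K u j ∧ R.Anc c0 u := by
      obtain ⟨c2, hc2⟩ := label_coarse ψ (Z := Z3) (by simp [hZ3]) (by simp [hZ3]) hV
        (R.conn_De m) (by
          intro v hv h
          rcases hinZ3 _ h with h | h
          · exact hav1 v hv h
          · exact hav2 v hv h) (v₀ := v0) hv0
      obtain ⟨u', j', h5, h6, h7⟩ := hc2 v0 hv0
      rw [hv0c] at h5
      have h8 := (pi_some h5.symm).1
      rw [h8, htophub c0 hc0] at h7
      intro v hv
      obtain ⟨u, j, h10, h11, h12⟩ := hc2 v hv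
      refine ⟨u, j, h10, ?_⟩
      rw [h7, ← h12]
      exact RT.top_anc Z3 u
    have hhubuniq : ∀ v, R.Anc m v → ∀ c, Sib R d g γ c → ψ v = some (hub c, none) → v = v0 := by
      intro v hv c hc hvc
      obtain ⟨u, j, h1, h2⟩ := hlab v hv
      rw [hvc] at h1
      have h3 := (pi_some h1.symm).1
      rw [h3] at h2
      have := R.ch_disj hc0.1 hc.1 h2 (hhub c hc).anc
      subst this
      exact psi_inj ψ (hvc.trans hv0c.symm)
    -- classes met by De m are small
    have hsmall : ∀ (C : Finset V), Conn R.G (C : Set V) → (∀ v ∈ C, R.Anc m v) → v0 ∉ C → C.Nonempty →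
        C.card < γ := by
      intro C hC hCm hv0C ⟨v1, hv1⟩
      obtain ⟨u₀, o, h2, h3, h4, _⟩ := card_le_cls ψ haK hbK hdZ hgZ hcl hV hC (by
          intro v hv h
          rcases hinZ _ h with h | h | ⟨c, h, h'⟩
          · exact hav1 v (hCm v hv) h
          · exact hav2 v (hCm v hv) h
          · exact hv0C (by rw [← hhubuniq v (hCm v hv) c h h']; exact hv)) hv1
      obtain ⟨u, j, h5, h6⟩ := hlab v1 (hCm v1 hv1)
      rw [h2] at h5
      have h7 := (pi_some h5.symm).1
      subst h7
      have h8 : R.Anc d u := R.anc_trans hc0.1.anc h6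
      have h9 := RT.top_hub hdZ h8 (fun e => h3 (e ▸ hdZ))
      rcases hclass u h3 with h | ⟨_, h⟩ | ⟨_, h⟩
      · rw [h] at h9; exact absurd h9.1 hfd
      · exact absurd h.anc (hdpd _ h9.1)
      · omega
    have hv0m : v0 = m := by
      by_contra hvm
      obtain ⟨c, hc, hcv⟩ := R.exists_ch hv0 (Ne.symm hvm)
      have h1 : (R.De m \ R.De c).card < γ := by
        refine hsmall _ ?_ ?_ ?_ ⟨m, ?_⟩
        · have := R.conn_diff hc
          convert this using 1
          ext u; simp
        · intro v hv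
          simp only [Finset.mem_sdiff, RT.mem_De] at hv
          exact hv.1
        · simp only [Finset.mem_sdiff, RT.mem_De, not_and, not_not]
          exact fun _ => hcv
        · simp only [Finset.mem_sdiff, RT.mem_De]
          exact ⟨R.anc_refl _, hc.not_anc⟩
      have h2 : (R.De m \ R.De c).card = (R.De m).card - (R.De c).card := by
        rw [Finset.card_sdiff_of_subset]
        intro u hu
        rw [RT.mem_De] at hu ⊢
        exact R.anc_trans hc.anc hu
      have h3 : (R.De m).card = R.sz m := rfl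
      have h4 : (R.De c).card = R.sz c := rfl
      have h5 := hmγ c hc
      -- sz d ≥ 1 + 2γ
      have h6 : R.sz g + R.sz c0 ≤ ∑ c ∈ R.Ch d, R.sz c := by
        have h7 : ({g, c0} : Finset V) ⊆ R.Ch d := by
          intro x hx
          simp only [Finset.mem_insert, Finset.mem_singleton] at hx
          rcases hx with rfl | rfl
          · exact R.mem_Ch.2 hg
          · exact R.mem_Ch.2 hc0.1
        have h8 := Finset.sum_le_sum_of_subset (f := R.sz) h7
        rwa [Finset.sum_pair (Ne.symm hc0.2.1)] at h8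
      have h7 := R.sz_eq d
      have h8 := hc0.2.2
      omega
    subst hv0m
    have hch : ∀ c', R.IsCh c' v0 → R.sz c' < γ := by
      intro c' hc'
      refine hsmall (R.De c') (hconnDe c') ?_ ?_ ⟨c', by simp [R.anc_refl]⟩
      · intro v hv
        rw [RT.mem_De] at hv
        exact R.anc_trans hc'.anc hv
      · rw [RT.mem_De]; exact hc'.not_anc
    refine ⟨?_, ⟨c0, hc0, hv0c⟩, hch⟩
    rcases hm with rfl | rfl
    · have := hch g hg
      omega
    · rfl
  -- index set of the hubs
  set Γd := (R.Ch d).filter (fun c => R.sz c = γ) with hΓd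
  have hgΓ : g ∈ Γd := Finset.mem_filter.2 ⟨R.mem_Ch.2 hg, hgγ⟩
  set Om : V → Option (V × Option I) := fun c => if c = g then some (dp, none) else some (hub c, none) with hOm
  have hsibΓ : ∀ c ∈ Γd, c ≠ g → Sib R d g γ c := by
    intro c hc hcg
    rw [hΓd, Finset.mem_filter, RT.mem_Ch] at hc
    exact ⟨hc.1, hcg, hc.2⟩
  have hΓsib : ∀ c, Sib R d g γ c → c ∈ Γd := fun c hc => Finset.mem_filter.2 ⟨R.mem_Ch.2 hc.1, hc.2.2⟩
  -- children of a vertex sent to `(f, j)`
  have hrootimg : ∀ (z : V) (j : I), ψ z = pi d g K f j → (∀ c, R.IsCh c z → ψ c ≠ none) →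
      (∀ c, R.IsCh c z → ψ c ≠ some (dp, none)) → (R.Ch z).card + 2 ≤ (R.Ch f).card := by
    intro z j hz h1 h2
    have h3 : (R.Ch z).card ≤ (((R.Ch f).erase d).erase dp).card := by
      refine card_le_of_pi ψ (fun u => pi d g K u j) (fun c hc => ?_)
      rw [RT.mem_Ch] at hc
      have h4 := psi_adj ψ (u := z) (v := c) (Or.inr hc)
      rw [hz] at h4
      obtain ⟨u, h5, h6⟩ := sun_adj_priv haK hbK hfK h4
      have h7 : R.IsCh u f := by
        rcases h5 with h5 | h5
        · exact absurd rfl h5.1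
        · exact h5
      refine ⟨u, ?_, h6⟩
      rw [Finset.mem_erase, Finset.mem_erase, RT.mem_Ch]
      refine ⟨?_, ?_, h7⟩
      · rintro rfl
        exact h2 c hc (by rw [h6]; exact hpidp j)
      · rintro rfl
        exact h1 c hc (by rw [h6]; exact pi_a j)
    have h4 : d ∈ R.Ch f := R.mem_Ch.2 hd
    have h5 : dp ∈ (R.Ch f).erase d := Finset.mem_erase.2 ⟨hne.symm, R.mem_Ch.2 hdp⟩
    have h6 := Finset.card_erase_add_one h4
    have h7 := Finset.card_erase_add_one h5
    omega
  -- at w
  have atw : ∀ m m', ((m = d ∧ m' = dp) ∨ (m = dp ∧ m' = d)) → ψ m = none →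
      (∃ i ∈ Γd, ∃ v, R.Anc m' v ∧ ψ v = Om i) →
      Γd.card ≤ ((R.Ch m).filter (fun c => R.sz c = γ)).card →
      ∃ c, R.IsCh c m ∧ R.sz c = γ ∧ (R.Ch c).card + 2 ≤ (R.Ch f).card := by
    intro m m' hmm hm ⟨i0, hi0, v', hv', hvi⟩ hle
    have hmf : R.IsCh m f := by rcases hmm with ⟨rfl, _⟩ | ⟨rfl, _⟩ <;> assumption
    have hm'f : R.IsCh m' f := by rcases hmm with ⟨_, rfl⟩ | ⟨_, rfl⟩ <;> assumption
    have hmm' : m ≠ m' := by
      rcases hmm with ⟨rfl, rfl⟩ | ⟨rfl, rfl⟩
      · exact hne
      · exact hne.symm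
    by_contra hcon
    push Not at hcon
    have h1 : ∀ c ∈ (R.Ch m).filter (fun c => R.sz c = γ), ∃ i ∈ Γd, ∃ v, R.Anc c v ∧ ψ v = Om i := by
      intro c hc
      rw [Finset.mem_filter, RT.mem_Ch] at hc
      by_contra hcon2
      push Not at hcon2
      have hnn : ∀ v, R.Anc c v → ψ v ≠ none := by
        intro v hv e
        have := psi_inj ψ (e.trans hm.symm)
        subst this
        exact hc.1.not_anc hv
      have hndp : ∀ v, R.Anc c v → ψ v ≠ some (dp, none) := by
        intro v hv e
        exact hcon2 g hgΓ v hv (by rw [e, hOm]; simp)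
      obtain ⟨u₀, o, h2, h3, h4, _⟩ := card_le_cls ψ haK hbK hdZ hgZ hcl hV
        (C := R.De c) (hconnDe c) (by
          intro v hv h
          rw [RT.mem_De] at hv
          rcases hinZ _ h with h | h | ⟨c', h, h'⟩
          · exact hnn v hv h
          · exact hndp v hv h
          · exact hcon2 c' (hΓsib c' h) v hv (by rw [h', hOm]; simp [h.2.1])) (v₀ := c)
          (by simp [R.anc_refl])
      have h7 : (R.De c).card = R.sz c := rfl
      have h8 := psi_adj ψ (u := m) (v := c) (Or.inr hc.1)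
      rw [hm] at h8
      have hadm : Adm R.G d g K := GamSet.adm ⟨hd, hdp, hne, hg, hdμ, hdpμ, hgγ, hdγ, hdpγ, hcard, hhub⟩
      obtain ⟨v, j, h9, h10, h11⟩ := sun_adj_w hadm h8
      rw [h2] at h11
      have h12 := (pi_some h11.symm).1
      subst h12
      rcases hclass v h3 with h | ⟨h, h'⟩ | ⟨_, h⟩
      · -- class of the root
        have hvf : v = f := by
          rcases h9 with (h9 | h9) | (h9 | h9)
          · rw [← h9.2]; exact hd.2
          · exfalso
            have : R.top Z v = v := RT.top_self (Or.inr (by rw [h9.2]; exact hdZ))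
            rw [this] at h
            exact h9.1 h
          · exfalso
            apply h10
            rw [← h9.2, hg.2]; exact haK
          · exfalso
            have : R.top Z v = v := RT.top_self (Or.inr (by rw [h9.2]; exact hgZ))
            rw [this] at h
            exact h9.1 h
        subst hvf
        have h13 := hrootimg c j (h2.trans h11) (fun c' hc' => hnn c' hc'.anc)
          (fun c' hc' => hndp c' hc'.anc)
        exact absurd h13 (by have := hcon c hc.1 hc.2; omega)
      · -- a child of dp: not adjacent to w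
        rcases h9 with (h9 | h9) | (h9 | h9)
        · have : v = f := by rw [← h9.2]; exact hd.2
          rw [this, RT.top_self (Or.inl rfl)] at h
          exact h rfl
        · have : R.top Z v = v := RT.top_self (Or.inr (by rw [h9.2]; exact hdZ))
          rw [this] at h'
          exact hne (h9.2.symm.trans h'.2)
        · apply h10
          rw [← h9.2, hg.2]; exact haK
        · have : R.top Z v = v := RT.top_self (Or.inr (by rw [h9.2]; exact hgZ))
          rw [this] at h'
          exact hdpdg.2 (h'.2.symm.trans h9.2)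
      · omega
    choose! κ hκ1 hκ2 using h1
    have h2 : ((R.Ch m).filter (fun c => R.sz c = γ)).card ≤ (Γd.erase i0).card := by
      refine Finset.card_le_card_of_injOn κ (fun c hc => ?_) ?_
      · have hc := Finset.mem_coe.1 hc
        refine Finset.mem_coe.2 (Finset.mem_erase.2 ⟨?_, hκ1 c hc⟩)
        intro e
        obtain ⟨v, h3, h4⟩ := hκ2 c hc
        rw [e, ← hvi] at h4
        have h5 := psi_inj ψ h4
        subst h5
        rw [Finset.mem_filter, RT.mem_Ch] at hc
        exact hmm' (R.ch_disj hmf hm'f (R.anc_trans hc.1.anc h3) hv')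
      · intro c hc c' hc' hcc
        have hc := Finset.mem_coe.1 hc
        have hc' := Finset.mem_coe.1 hc'
        obtain ⟨v, h3, h4⟩ := hκ2 c hc
        obtain ⟨v', h5, h6⟩ := hκ2 c' hc'
        rw [hcc, ← h6] at h4
        have h7 := psi_inj ψ h4
        subst h7
        rw [Finset.mem_filter, RT.mem_Ch] at hc hc'
        exact R.ch_disj hc.1 hc'.1 h3 h5
    have h3 := Finset.card_erase_add_one hi0
    omega
  have hOmg : Om g = some (dp, none) := by rw [hOm]; simp
  have hOmsib : ∀ c, Sib R d g γ c → Om c = some (hub c, none) := by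
    intro c hc; rw [hOm]; simp [hc.2.1]
  have hadm : Adm R.G d g K := GamSet.adm ⟨hd, hdp, hne, hg, hdμ, hdpμ, hgγ, hdγ, hdpγ, hcard, hhub⟩
  -- the branch at dp if it avoids both
  have hdmeet : (∃ v, R.Anc d v ∧ ψ v = none) ∨ ∃ v, R.Anc d v ∧ ψ v = some (dp, none) := by
    by_contra hcon
    push Not at hcon
    exact hne (claim1 d (Or.inl rfl) hcon.1 hcon.2).1
  have hdis : ∀ v v', R.Anc d v → R.Anc dp v' → ψ v ≠ ψ v' := by
    intro v v' h1 h2 h3
    have := psi_inj ψ h3
    subst this
    exact hdpd v h1 h2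
  by_cases hyw : ψ f = none
  · exfalso
    have h1 : ∀ v, R.Anc d v → ψ v ≠ none := fun v hv e => hrt d v hd hv (e.trans hyw.symm)
    have h2 : ∀ v, R.Anc dp v → ψ v ≠ none := fun v hv e => hrt dp v hdp hv (e.trans hyw.symm)
    rcases hdmeet with ⟨v, hv, hv'⟩ | ⟨v, hv, hv'⟩
    · exact h1 v hv hv'
    · obtain ⟨_, ⟨c, hc, hc'⟩, _⟩ := claim1 dp (Or.inr rfl) h2 (fun v' hv1 e => hdis v v' hv hv1 (hv'.trans e.symm))
      have h3 := psi_adj ψ (u := f) (v := dp) (Or.inr hdp)
      rw [hyw] at h3
      obtain ⟨v, j, _, h5, h6⟩ := sun_adj_w hadm h3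
      rw [hc', pi_priv haK hbK h5] at h6
      simp at h6
  by_cases hydp : ψ f = some (dp, none)
  · exfalso
    have h1 : ∀ v, R.Anc d v → ψ v ≠ some (dp, none) := fun v hv e => hrt d v hd hv (e.trans hydp.symm)
    have h2 : ∀ v, R.Anc dp v → ψ v ≠ some (dp, none) := fun v hv e => hrt dp v hdp hv (e.trans hydp.symm)
    rcases hdmeet with ⟨v, hv, hv'⟩ | ⟨v, hv, hv'⟩
    · obtain ⟨_, ⟨c, hc, hc'⟩, _⟩ := claim1 dp (Or.inr rfl) (fun v' hv1 e => hdis v v' hv hv1 (hv'.trans e.symm)) h2
      have h3 := psi_adj ψ (u := f) (v := dp) (Or.inr hdp)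
      obtain ⟨_, j, _⟩ := img_pi ψ hV f
      rw [hydp, ← hpidp j] at h3
      obtain ⟨z, j', h5, h6⟩ := sun_adj_K hdpdg.1 hdpdg.2 h3
      rw [hc'] at h6
      have h7 := (pi_some h6.symm).1
      subst h7
      rcases h5 with h5 | h5
      · have := hdp.2
        rw [h5.2] at this
        exact (hhub c hc).1 this
      · have := (hhub c hc).2
        rw [h5.2] at this
        rw [← this] at hc
        exact hdpd dp hc.1.anc (R.anc_refl _)
    · exact h1 v hv hv'
  by_cases hdpavoid : (∀ v, R.Anc dp v → ψ v ≠ none) ∧ (∀ v, R.Anc dp v → ψ v ≠ some (dp, none))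
  · -- Sub-case I
    obtain ⟨_, ⟨c0, hc0, hc0'⟩, _⟩ := claim1 dp (Or.inr rfl) hdpavoid.1 hdpavoid.2
    obtain ⟨_, j₀, _⟩ := img_pi ψ hV f
    have h3 := (psi_adj ψ (u := f) (v := dp) (Or.inr hdp)).symm
    rw [hc0', ← hpihub c0 hc0 j₀] at h3
    obtain ⟨u, j, h5, h6⟩ := sun_adj_K (hhubd c0 hc0).1 (hhubd c0 hc0).2 h3
    have hdhub : ∀ v, R.Anc d v → ψ v ≠ some (hub c0, none) := fun v hv e =>
      hdis v dp hv (R.anc_refl _) (e.trans hc0'.symm)
    have huc : u = c0 := by
      rcases h5 with h5 | h5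
      · rw [← h5.2, (hhub c0 hc0).2]
      · exfalso
        have hbel : ∀ z, R.Anc (hub c0) z → R.Anc c0 z := fun z hz => R.anc_trans (hhub c0 hc0).anc hz
        have hbz : ∀ z, R.Anc (hub c0) z → z ≠ d ∧ z ≠ g ∧ z ≠ dp := by
          intro z hz
          refine ⟨?_, ?_, ?_⟩
          · rintro rfl; exact hc0.1.not_anc (hbel _ hz)
          · rintro rfl; exact hc0.2.1 (R.ch_disj hc0.1 hg (hbel _ hz) (R.anc_refl _))
          · rintro rfl; exact hdpd _ (R.anc_trans hc0.1.anc (hbel _ hz)) (R.anc_refl _)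
        have hP := R.conn_root_De hd (fun v => ∃ u', R.Anc (hub c0) u' ∧ u' ≠ hub c0 ∧ ∃ j', ψ v = pi d g K u' j') (by
          rintro v hv v' hv' hvv ⟨u', h1, h2, j', h3⟩
          have h4 := psi_adj ψ hvv
          have h5 := hbz u' h1
          rw [h3] at h4
          obtain ⟨u'', j'', h6, h7⟩ := sun_adj_K h5.1 h5.2.1 h4
          rcases h6 with h6 | h6
          · have h8 : R.Anc (hub c0) u'' := by rw [← h6.2]; exact R.anc_par h1 (Ne.symm h2)
            refine ⟨u'', h8, ?_, j'', h7⟩
            rintro rfl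
            rw [hpihub c0 hc0 j''] at h7
            rcases hv' with hv' | hv'
            · rw [hv', ← hc0'] at h7
              exact hrt dp dp hdp (R.anc_refl _) h7.symm
            · exact hdhub v' hv' h7
          · have h8 : R.Anc (hub c0) u'' := R.anc_trans h1 ⟨1, h6.2⟩
            refine ⟨u'', h8, ?_, j'', h7⟩
            rintro rfl
            rw [← h6.2] at h1
            exact h2 (by rw [← h6.2]; exact R.anc_antisymm (R.anc_self_par _) h1)) f (Or.inl rfl)
        have hP0 : ∃ u', R.Anc (hub c0) u' ∧ u' ≠ hub c0 ∧ ∃ j', ψ f = pi d g K u' j' :=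
          ⟨u, ⟨1, h5.2⟩, fun e => R.par_ne h5.1 (by rw [h5.2, e]), j, h6⟩
        rcases hdmeet with ⟨v, hv, hv'⟩ | ⟨v, hv, hv'⟩
        · obtain ⟨u', k1, _, j', k3⟩ := hP v (Or.inr hv) hP0
          rw [hv'] at k3
          have := pi_eq_none.1 k3.symm
          have := hbz u' k1
          tauto
        · obtain ⟨u', k1, _, j', k3⟩ := hP v (Or.inr hv) hP0
          rw [hv'] at k3
          exact (hbz u' k1).2.2 (pi_some k3.symm).1
    subst huc
    have hc0K := hsibK u hc0
    -- image of d
    have h7 := psi_adj ψ (u := f) (v := d) (Or.inr hd)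
    rw [h6] at h7
    obtain ⟨u', h8, h9⟩ := sun_adj_priv haK hbK hc0K h7
    have hψd : ψ d = none := by
      rcases h8 with h8 | h8
      · rw [h9, ← h8.2, hc0.1.2]; exact pi_a j
      · exfalso
        by_cases huh : u' = hub u
        · rw [huh, hpihub u hc0 j] at h9
          exact hdhub d (R.anc_refl _) h9
        · have hprivu : ∀ z, R.Anc u' z → z ∉ K := by
            rintro z hz (h3 | h3 | h3 | ⟨c', hc', h3⟩)
            · have h10 : R.Anc u z := R.anc_trans ⟨1, h8.2⟩ hz
              rw [h3] at h10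
              exact hc0.1.not_anc h10
            · have h10 : R.Anc u z := R.anc_trans ⟨1, h8.2⟩ hz
              rw [h3] at h10
              exact hc0.2.1 (R.ch_disj hc0.1 hg h10 (R.anc_refl _))
            · have h10 : R.Anc u z := R.anc_trans ⟨1, h8.2⟩ hz
              rw [h3] at h10
              exact hdpd dp (R.anc_trans hc0.1.anc h10) (R.anc_refl _)
            · have h10 : R.Anc u z := R.anc_trans ⟨1, h8.2⟩ hz
              have h11 := R.ch_disj hc0.1 hc'.1 h10 (R.anc_trans (hhub c' hc').anc h3)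
              subst h11
              exact huh (R.ch_disj h8 (hhub u hc0) hz h3)
          have h10 := confine ψ haK hbK (c := u') hprivu j (R.conn_De d) (by
            intro v hv
            rw [show R.par u' = u from h8.2, ← h6]
            exact hrt d v hd hv) (v := d) (R.anc_refl _) ⟨u', R.anc_refl _, h9⟩
          rcases hdmeet with ⟨v, hv, hv'⟩ | ⟨v, hv, hv'⟩
          · obtain ⟨z, h11, h12⟩ := h10 v hv
            rw [hv', pi_priv haK hbK (hprivu z h11)] at h12
            simp at h12
          · obtain ⟨z, h11, h12⟩ := h10 v hv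
            rw [hv', pi_priv haK hbK (hprivu z h11)] at h12
            simp at h12
    obtain ⟨c, k1, k2, k3⟩ := atw d dp (Or.inl ⟨rfl, rfl⟩) hψd
      ⟨u, hΓsib u hc0, dp, R.anc_refl _, by rw [hc0', hOmsib u hc0]⟩ le_rfl
    exact ⟨d, c, Or.inl rfl, k1, k2, k3⟩
  · -- Sub-case II
    obtain ⟨m1, m2, hmm, v1, hv1, hw, v2, hv2, hhb⟩ :
        ∃ m1 m2, ((m1 = d ∧ m2 = dp) ∨ (m1 = dp ∧ m2 = d)) ∧
          ∃ v1, R.Anc m1 v1 ∧ ψ v1 = none ∧ ∃ v2, R.Anc m2 v2 ∧ ψ v2 = some (dp, none) := by
      have h1 : (∃ v, R.Anc dp v ∧ ψ v = none) ∨ ∃ v, R.Anc dp v ∧ ψ v = some (dp, none) := by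
        by_contra hcon
        push Not at hcon
        exact hdpavoid hcon
      rcases hdmeet with ⟨v, hv, hv'⟩ | ⟨v, hv, hv'⟩ <;> rcases h1 with ⟨z, hz, hz'⟩ | ⟨z, hz, hz'⟩
      · exact absurd (hv'.trans hz'.symm) (hdis v z hv hz)
      · exact ⟨d, dp, Or.inl ⟨rfl, rfl⟩, v, hv, hv', z, hz, hz'⟩
      · exact ⟨dp, d, Or.inr ⟨rfl, rfl⟩, z, hz, hz', v, hv, hv'⟩
      · exact absurd (hv'.trans hz'.symm) (hdis v z hv hz)
    have hm1 : R.IsCh m1 f := by rcases hmm with ⟨rfl, _⟩ | ⟨rfl, _⟩ <;> assumption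
    have hm2 : R.IsCh m2 f := by rcases hmm with ⟨_, rfl⟩ | ⟨_, rfl⟩ <;> assumption
    have hm12 : m1 ≠ m2 := by
      rcases hmm with ⟨rfl, rfl⟩ | ⟨rfl, rfl⟩
      · exact hne
      · exact hne.symm
    have hdisj : ∀ v v', R.Anc m1 v → R.Anc m2 v' → ψ v ≠ ψ v' := by
      intro v v' h1 h2 h3
      have := psi_inj ψ h3
      subst this
      exact hm12 (R.ch_disj hm1 hm2 h1 h2)
    have hm1dp : ∀ v, R.Anc m1 v → ψ v ≠ some (dp, none) := fun v hv e => hdisj v v2 hv hv2 (e.trans hhb.symm)
    have hm2w : ∀ v, R.Anc m2 v → ψ v ≠ none := fun v hv e => hdisj v1 v hv1 hv (hw.trans e.symm)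
    obtain ⟨u, j, hyu⟩ := img_pi ψ hV f
    have hud : ¬ R.Anc d u := by
      intro hdu
      have hune : u ≠ d := by
        rintro rfl; exact hyw (by rw [hyu]; exact pi_a j)
      set Z4 : Set V := {d, g} with hZ4
      have hav : ∀ v ∈ insert f {v | R.Anc m2 v}, ¬ InZ d g K I Z4 (ψ v) := by
        intro v hv
        rintro ⟨z, hz, j, hzj⟩
        have hn : ψ v = none := by
          simp only [hZ4, Set.mem_insert_iff, Set.mem_singleton_iff] at hz
          rw [hzj]; exact pi_eq_none.2 hz
        rcases hv with hv | hv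
        · exact hyw (hv ▸ hn)
        · exact hm2w v hv hn
      obtain ⟨c2, hc2⟩ := label_coarse ψ (Z := Z4) (by simp [hZ4]) (by simp [hZ4]) hV
        (R.conn_root_De hm2) hav (v₀ := f) (Or.inl rfl)
      obtain ⟨u', j', h5, h6, h7⟩ := hc2 v2 (Or.inr hv2)
      rw [hhb] at h5
      have h8 := (pi_some h5.symm).1
      have h9 : R.top Z4 u' = f := by
        rw [h8, RT.top_step hdp.1, hdp.2, RT.top_self (Or.inl rfl)]
        rw [hdp.2]
        simp only [hZ4, Set.mem_insert_iff, Set.mem_singleton_iff, not_or]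
        exact ⟨hd.1.symm, hg.1.symm⟩
      obtain ⟨u'', j'', h10, h11, h12⟩ := hc2 f (Or.inl rfl)
      have hug : u ≠ g := by
        rintro rfl; exact hyw (by rw [hyu]; exact pi_b j)
      have h13 : u = u'' := pi_inj (hyu.symm.trans h10) hune hug
      subst h13
      have h14 := RT.top_hub (Z := Z4) (by simp [hZ4]) hdu hune
      rw [h12, ← h7, h9] at h14
      exact hfd h14.1
    have hudp : ¬ R.Anc dp u := by
      intro hdu
      have hune : u ≠ dp := by
        rintro rfl; exact hydp (by rw [hyu]; exact hpidp j)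
      have hP := R.conn_root_De hm1 (fun v => ∃ u', R.Anc dp u' ∧ u' ≠ dp ∧ ∃ j', ψ v = pi d g K u' j') (by
        rintro v hv v' hv' hvv ⟨u', h1, h2, j', h3⟩
        have h4 := psi_adj ψ hvv
        rw [h3] at h4
        obtain ⟨u'', h6, h7⟩ := sun_adj_priv haK hbK (hbelowdp u' h1 h2) h4
        rcases h6 with h6 | h6
        · have h8 : R.Anc dp u'' := by rw [← h6.2]; exact R.anc_par h1 (Ne.symm h2)
          refine ⟨u'', h8, ?_, j', h7⟩
          rintro rfl
          rw [hpidp j'] at h7
          rcases hv' with hv' | hv'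
          · rw [hv'] at h7; exact hydp h7
          · exact hm1dp v' hv' h7
        · have h8 : R.Anc dp u'' := R.anc_trans h1 ⟨1, h6.2⟩
          refine ⟨u'', h8, ?_, j', h7⟩
          rintro rfl
          rw [← h6.2] at h1
          exact h2 (by rw [← h6.2]; exact R.anc_antisymm (R.anc_self_par _) h1)) f (Or.inl rfl) v1
          (Or.inr hv1) ⟨u, hdu, hune, j, hyu⟩
      obtain ⟨u', h1, h2, j', h3⟩ := hP
      rw [hw] at h3
      have h4 := pi_eq_none.1 h3.symm
      rcases h4 with h4 | h4
      · exact hdpd d (R.anc_refl _) (h4 ▸ h1)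
      · exact hdpd g hg.anc (h4 ▸ h1)
    have huK : u ∉ K := hKout u hud (fun e => hudp (e ▸ R.anc_refl _))
    -- confinement
    have hprivu : ∀ u', R.IsCh u' u → u' ≠ d → u' ≠ dp → ∀ z, R.Anc u' z → z ∉ K := by
      intro u' hu' h1 h2 z hz
      have h3 : ∀ x, (x = d ∨ x = dp) → ¬ R.Anc x z := by
        intro x hx hxz
        have hxf : R.IsCh x f := by rcases hx with rfl | rfl <;> assumption
        have hxu' : x ≠ u' := by rcases hx with rfl | rfl <;> [exact h1.symm; exact h2.symm]
        have hxu : ¬ R.Anc x u := by rcases hx with rfl | rfl <;> assumption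
        rcases R.anc_total hxz hz with h4 | h4
        · exact hxu (by rw [← hu'.2]; exact R.anc_par h4 hxu')
        · -- u' is an ancestor of x
          by_cases e : u' = x
          · exact hxu' e.symm
          · have h5 := R.anc_par h4 e
            rw [hxf.2] at h5
            have h6 := R.anc_root_right h5
            exact hu'.1 h6
      exact hKout z (h3 d (Or.inl rfl)) (fun e => h3 dp (Or.inr rfl) (e ▸ R.anc_refl _))
    have hnb : ∀ m, R.IsCh m f → ∃ u', R.G.Adj u u' ∧ ψ m = pi d g K u' j := by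
      intro m hm
      have h1 := psi_adj ψ (u := f) (v := m) (Or.inr hm)
      rw [hyu] at h1
      exact sun_adj_priv haK hbK huK h1
    have hconf : ∀ m u', (m = m1 ∨ m = m2) → R.IsCh u' u → u' ≠ d → u' ≠ dp → ψ m ≠ pi d g K u' j := by
      intro m u' hm hu' h1 h2 h3
      have hmf : R.IsCh m f := by rcases hm with rfl | rfl <;> assumption
      have h4 := confine ψ haK hbK (c := u') (hprivu u' hu' h1 h2) j (R.conn_De m) (by
            intro v hv
            rw [hu'.2, ← hyu]
            exact hrt m v hmf hv) (v := m) (R.anc_refl _) ⟨u', R.anc_refl _, h3⟩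
      rcases hm with rfl | rfl
      · obtain ⟨z, h5, h6⟩ := h4 v1 hv1
        rw [hw, pi_priv haK hbK (hprivu u' hu' h1 h2 z h5)] at h6
        simp at h6
      · obtain ⟨z, h5, h6⟩ := h4 v2 hv2
        rw [hhb, pi_priv haK hbK (hprivu u' hu' h1 h2 z h5)] at h6
        simp at h6
    have huf : u = f := by
      by_contra huf
      have h1 : ∀ m, (m = m1 ∨ m = m2) → ψ m = pi d g K (R.par u) j := by
        intro m hm
        have hmf : R.IsCh m f := by rcases hm with rfl | rfl <;> assumption
        obtain ⟨u', h2, h3⟩ := hnb m hmf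
        rcases h2 with h2 | h2
        · rw [h3, h2.2]
        · exfalso
          have h4 : u' ≠ d := by
            rintro rfl
            have := hd.2
            rw [h2.2] at this
            exact huf this
          have h5 : u' ≠ dp := by
            rintro rfl
            have := hdp.2
            rw [h2.2] at this
            exact huf this
          exact hconf m u' hm h2 h4 h5 h3
      exact hm12 (psi_inj ψ ((h1 m1 (Or.inl rfl)).trans (h1 m2 (Or.inr rfl)).symm))
    subst huf
    have hψm1 : ψ m1 = none := by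
      obtain ⟨u', h2, h3⟩ := hnb m1 hm1
      have h2' : R.IsCh u' f := by
        rcases h2 with h2 | h2
        · exact absurd rfl h2.1
        · exact h2
      by_cases h4 : u' = d
      · rw [h3, h4]; exact pi_a j
      · by_cases h5 : u' = dp
        · rw [h5, hpidp j] at h3
          exact absurd h3 (hm1dp m1 (R.anc_refl _))
        · exact absurd h3 (hconf m1 u' (Or.inl rfl) h2' h4 h5)
    have hψm2 : ψ m2 = some (dp, none) := by
      obtain ⟨u', h2, h3⟩ := hnb m2 hm2
      have h2' : R.IsCh u' f := by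
        rcases h2 with h2 | h2
        · exact absurd rfl h2.1
        · exact h2
      by_cases h4 : u' = d
      · rw [h4, pi_a j] at h3
        exact absurd h3 (hm2w m2 (R.anc_refl _))
      · by_cases h5 : u' = dp
        · rw [h5, hpidp j] at h3
          exact h3
        · exact absurd h3 (hconf m2 u' (Or.inr rfl) h2' h4 h5)
    rcases hmm with ⟨e1, e2⟩ | ⟨e1, e2⟩
    · subst e1; subst e2
      obtain ⟨c, k1, k2, k3⟩ := atw m1 m2 (Or.inl ⟨rfl, rfl⟩) hψm1
        ⟨g, hgΓ, m2, R.anc_refl _, by rw [hψm2, hOmg]⟩ le_rfl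
      exact ⟨m1, c, Or.inl rfl, k1, k2, k3⟩
    · subst e1; subst e2
      by_cases hex : ∃ c, R.IsCh c m1 ∧ R.sz c = γ
      · obtain ⟨c, k1, k2, k3⟩ := atw m1 m2 (Or.inr ⟨rfl, rfl⟩) hψm1
          ⟨g, hgΓ, m2, R.anc_refl _, by rw [hψm2, hOmg]⟩ (hΓ hex)
        exact ⟨m1, c, Or.inr rfl, k1, k2, k3⟩
      · push Not at hex
        -- g below d = m2
        have hgn : ∀ v, R.Anc g v → ψ v ≠ none := by
          intro v hv e
          have := psi_inj ψ (e.trans hψm1.symm)
          subst this
          exact hdpd v (R.anc_trans hg.anc hv) (R.anc_refl _)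
        have hgdp : ∀ v, R.Anc g v → ψ v ≠ some (m1, none) := by
          intro v hv e
          have := psi_inj ψ (e.trans hψm2.symm)
          subst this
          exact hg.not_anc hv
        have h3 := psi_adj ψ (u := m2) (v := g) (Or.inr hg)
        rw [hψm2, ← hpidp j] at h3
        obtain ⟨u', j', h5, h6⟩ := sun_adj_K hdpdg.1 hdpdg.2 h3
        -- label
        obtain ⟨c2, hc2⟩ := label_coarse ψ (Z := Z3) (by simp [hZ3]) (by simp [hZ3]) hV
          (R.conn_De g) (by
            intro v hv h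
            rcases hinZ3 _ h with h | h
            · exact hgn v hv h
            · exact hgdp v hv h) (v₀ := g) (R.anc_refl _)
        have hu'ne : u' ≠ m2 ∧ u' ≠ g := by
          constructor
          · rintro rfl
            rw [pi_a] at h6
            exact hgn g (R.anc_refl _) h6
          · rintro rfl
            rw [pi_b] at h6
            exact hgn u' (R.anc_refl _) h6
        have htop3 : R.top Z3 u' = u' := by
          rcases h5 with h5 | h5
          · have : u' = R.root := by rw [← h5.2]; exact hdp.2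
            rw [RT.top_self (Or.inl this)]
          · exact RT.top_self (Or.inr (by rw [h5.2]; simp [hZ3]))
        have hc2' : c2 = u' := by
          obtain ⟨z, jz, k1, k2, k3⟩ := hc2 g (R.anc_refl _)
          have : u' = z := pi_inj (h6.symm.trans k1) hu'ne.1 hu'ne.2
          rw [← k3, ← this, htop3]
        have hnohub : ∀ v, R.Anc g v → ∀ c, Sib R m2 g γ c → ψ v ≠ some (hub c, none) := by
          intro v hv c hc e
          obtain ⟨z, jz, k1, k2, k3⟩ := hc2 v hv
          rw [e] at k1
          have k4 := (pi_some k1.symm).1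
          rw [k4, htophub c hc, hc2'] at k3
          rw [← k3] at h5
          rcases h5 with h5 | h5
          · have := hdp.2
            rw [h5.2] at this
            exact hc.1.1 this
          · exact hne (hc.1.2.symm.trans h5.2)
        obtain ⟨u₀, o, k2, k3, k4, _⟩ := card_le_cls ψ haK hbK hdZ hgZ hcl hV
          (C := R.De g) (hconnDe g) (by
            intro v hv h
            rw [RT.mem_De] at hv
            rcases hinZ _ h with h | h | ⟨c', h, h'⟩
            · exact hgn v hv h
            · exact hgdp v hv h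
            · exact hnohub v hv c' h h') (v₀ := g)
            (by simp [R.anc_refl])
        have k5 : (R.De g).card = R.sz g := rfl
        have k6 : u₀ = u' := by
          have := k2.symm.trans h6
          exact ((pi_some this.symm).1).symm
        subst k6
        rcases h5 with h5 | h5
        · have h7 : u₀ = R.root := by rw [← h5.2]; exact hdp.2
          rw [h7] at h6
          refine ⟨m2, g, Or.inl rfl, hg, hgγ, ?_⟩
          exact hrootimg g j' h6 (fun c hc => hgn c hc.anc) (fun c hc => hgdp c hc.anc)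
        · exfalso
          have h7 : R.top Z u₀ = u₀ := RT.top_self (Or.inr (by rw [h5.2]; exact hdpZ))
          rw [h7] at k4
          have h8 := RT.cls_card_le (R := R) Z u₀
          have h9 := hdpγ u₀ h5
          have h10 := hex u₀ h5
          omega

end

end WV
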