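import Pool.Agent.Helper29.WV.OneHub

/-! at least three big branches, and exactly one big branch -/

namespace WV

open SimpleGraph

section
variable {V : Type} {R : RT V} [Fintype V] {μ : ℕ} {I : Type}

/-- one big branch only -/
theorem single {d : V} (hd : R.IsCh d R.root) (hdμ : R.sz d = μ)
    (hE : ∀ c, R.IsCh c R.root → c ≠ d → R.sz c < μ)
    (hmin : ∀ x : V, ∃ C : Finset V, x ∉ C ∧ Conn R.G (C : Set V) ∧ μ ≤ C.card)
    (ψ : Copy R.G (Sun R.G R.root d {R.root, d} I)) : False := by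
  classical
  have hV : ∃ v, v ≠ R.root := ⟨d, hd.1⟩
  set K : Set V := {R.root, d} with hK
  have hcl : ∀ u, u ∉ K → u ≠ R.root → R.par u ∉ K → (u ∈ K ↔ R.par u ∈ K) := by
    intro u h1 _ h2
    exact ⟨fun h => absurd h h1, fun h => absurd h h2⟩
  have hclass : ∀ u, u ∉ K → (R.cls K (R.top K u)).card < μ := by
    intro u hu
    have hu' : u ≠ R.root ∧ u ≠ d := by
      simpa only [hK, Set.mem_insert_iff, Set.mem_singleton_iff, not_or] using hu
    have hc0 : R.top K u ≠ R.root :=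
      (RT.top_hub (Z := K) (h := R.root) (by simp [hK]) (R.root_anc u) hu'.1).2
    have hcd : R.top K u ≠ d := by
      intro e
      have h1 : R.Anc d u := by rw [← e]; exact RT.top_anc K u
      exact (RT.top_hub (Z := K) (by simp [hK]) h1 hu'.2).2 e
    have hs := (RT.top_spec (R := R) K u).resolve_left hc0
    simp only [hK, Set.mem_insert_iff, Set.mem_singleton_iff] at hs
    rw [← hK] at hs
    refine lt_of_le_of_lt (RT.cls_card_le K _) ?_
    rcases hs with hs | hs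
    · exact hE _ ⟨hc0, hs⟩ hcd
    · rw [← hdμ]; exact R.sz_lt ⟨hc0, hs⟩
  have hnone : ∀ x, InZ R.root d K I K x → x = none := by
    rintro x ⟨z, hz, j, hzj⟩
    rw [hzj]
    simp only [hK, Set.mem_insert_iff, Set.mem_singleton_iff] at hz
    exact pi_eq_none.2 hz
  have hμ : 0 < μ := by rw [← hdμ]; exact R.sz_pos d
  have key : ∀ C : Finset V, Conn R.G (C : Set V) → μ ≤ C.card → (∀ v ∈ C, ψ v ≠ none) → False := by
    intro C hC hcard hav
    obtain ⟨v₀, hv₀⟩ : C.Nonempty := Finset.card_pos.1 (by omega)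
    obtain ⟨u₀, o, h2, h3, h4, _⟩ := card_le_cls ψ (by simp [hK]) (by simp [hK]) (by simp [hK])
      (by simp [hK]) hcl hV hC (fun v hv h => hav v hv (hnone _ h)) hv₀
    have := hclass u₀ h3
    omega
  by_cases hx : ∃ x, ψ x = none
  · obtain ⟨x, hx⟩ := hx
    obtain ⟨C, h1, h2, h3⟩ := hmin x
    exact key C h2 h3 (fun v hv e => h1 (by rw [← psi_inj ψ (e.trans hx.symm)]; exact hv))
  · push Not at hx
    refine key (R.De d) ?_ (by rw [← hdμ]; rfl) (fun v _ => hx v)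
    have := R.conn_De d
    convert this using 1
    ext u; simp

/-- the kernel -/
def KM {V : Type} (R : RT V) (M : Finset V) (d : V) (g : V → V) : Set V :=
  {u | u = R.root ∨ u = d ∨ ∃ m ∈ M, m ≠ d ∧ R.Anc (g m) u}

lemma KM_adm {M : Finset V} {d : V} {g : V → V} (hM : ∀ m ∈ M, R.IsCh m R.root) (hd : d ∈ M)
    (hg : ∀ m ∈ M, m ≠ d → R.IsCh (g m) m) : Adm R.G R.root d (KM R M d g) := by
  refine ⟨Or.inr (hM d hd), Or.inl rfl, Or.inr (Or.inl rfl), ?_⟩
  intro u hu h1 h2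
  rcases hu with hu | hu | ⟨m, hm, hmd, hu⟩
  · exact absurd hu h1
  · exact absurd hu h2
  · have h3 : R.Anc m u := R.anc_trans (hg m hm hmd).anc hu
    constructor
    · rintro (h4 | h4)
      · exact h4.1 rfl
      · have := R.ch_disj (hM m hm) h4 h3 (R.anc_refl u)
        subst this
        exact (hg m hm hmd).not_anc hu
    · rintro (h4 | h4)
      · exact h1 (by rw [← h4.2, (hM d hd).2])
      · exact hmd (R.ch_disj (hM m hm) (hM d hd) h3 ⟨1, h4.2⟩)

theorem multihub {M : Finset V} {d : V} {g : V → V} (hM : ∀ m ∈ M, R.IsCh m R.root) (hd : d ∈ M)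
    (hg : ∀ m ∈ M, m ≠ d → R.IsCh (g m) m) (hMμ : ∀ m ∈ M, R.sz m = μ)
    (hE : ∀ c, R.IsCh c R.root → c ∉ M → R.sz c < μ) (h3M : 3 ≤ M.card)
    (ψ : Copy R.G (Sun R.G R.root d (KM R M d g) I)) : False := by
  classical
  set f := R.root with hf
  set K := KM R M d g with hK
  have hdch := hM d hd
  have haK : f ∈ K := Or.inl rfl
  have hbK : d ∈ K := Or.inr (Or.inl rfl)
  have hV : ∃ v, v ≠ R.root := ⟨d, hdch.1⟩
  set Z : Set V := {u | u = f ∨ u = d ∨ ∃ m ∈ M, m ≠ d ∧ u = g m} with hZ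
  have hfZ : f ∈ Z := Or.inl rfl
  have hdZ : d ∈ Z := Or.inr (Or.inl rfl)
  have hgZ : ∀ m ∈ M, m ≠ d → g m ∈ Z := fun m h1 h2 => Or.inr (Or.inr ⟨m, h1, h2, rfl⟩)
  have hgf : ∀ m ∈ M, m ≠ d → g m ≠ f := fun m h1 h2 => (hg m h1 h2).1
  have hgd : ∀ m ∈ M, m ≠ d → g m ≠ d := by
    intro m h1 h2 e
    exact h2 (R.ch_disj (hM m h1) hdch (hg m h1 h2).anc (e ▸ R.anc_refl _))
  have hhub : ∀ m ∈ M, m ≠ d → ∀ j : I, pi f d K (g m) j = some (g m, none) := fun m h1 h2 j =>
    pi_K (Or.inr (Or.inr ⟨m, h1, h2, R.anc_refl _⟩)) (hgf m h1 h2) (hgd m h1 h2)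
  have hcl : ∀ u, u ∉ Z → u ≠ R.root → R.par u ∉ Z → (u ∈ K ↔ R.par u ∈ K) := by
    intro u h1 h2 h3
    constructor
    · rintro (h4 | h4 | ⟨m, h4, h5, h6⟩)
      · exact absurd h4 h2
      · exact absurd (Or.inr (Or.inl h4)) h1
      · exact Or.inr (Or.inr ⟨m, h4, h5, R.anc_par h6 (fun e => h1 (e ▸ hgZ m h4 h5))⟩)
    · rintro (h4 | h4 | ⟨m, h4, h5, h6⟩)
      · exact absurd (Or.inl h4) h3
      · exact absurd (Or.inr (Or.inl h4)) h3
      · exact Or.inr (Or.inr ⟨m, h4, h5, R.anc_of_par h6⟩)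
  have hclass : ∀ u, u ∉ Z → (R.cls Z (R.top Z u)).card < μ := by
    intro u hu
    have hc0 : R.top Z u ≠ f :=
      (RT.top_hub (Z := Z) (h := f) hfZ (R.root_anc u) (fun e => hu (e ▸ hfZ))).2
    have hcd : R.top Z u ≠ d := by
      intro e
      have h1 : R.Anc d u := by rw [← e]; exact RT.top_anc Z u
      exact (RT.top_hub (Z := Z) hdZ h1 (fun e => hu (e ▸ hdZ))).2 e
    rcases (RT.top_spec (R := R) Z u).resolve_left hc0 with hs | hs | ⟨m, hm, hmd, hs⟩
    · have hch : R.IsCh (R.top Z u) R.root := ⟨hc0, hs⟩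
      by_cases hcx : R.top Z u ∈ M
      · have h1 := RT.cls_card_hub (R := R) (Z := Z) (c := R.top Z u) (h := g (R.top Z u))
          (hgZ _ hcx hcd) (hg _ hcx hcd).anc
        have h2 := R.sz_pos (g (R.top Z u))
        have h3 := hMμ _ hcx
        omega
      · exact lt_of_le_of_lt (RT.cls_card_le Z _) (hE _ hch hcx)
    · have := R.sz_lt (c := R.top Z u) ⟨hc0, hs⟩
      have h2 := hMμ d hd
      exact lt_of_le_of_lt (RT.cls_card_le Z _) (by omega)
    · have := R.sz_lt (c := R.top Z u) ⟨hc0, hs⟩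
      have h2 := hMμ m hm
      have h3 := R.sz_lt (hg m hm hmd)
      exact lt_of_le_of_lt (RT.cls_card_le Z _) (by omega)
  have hmeet : ∀ m ∈ M, ∃ v, R.Anc m v ∧ (ψ v = none ∨ ∃ m' ∈ M, m' ≠ d ∧ ψ v = some (g m', none)) := by
    intro m hm
    by_contra hcon
    push Not at hcon
    have h1 : ∀ v ∈ R.De m, ¬ InZ f d K I Z (ψ v) := by
      intro v hv
      rw [RT.mem_De] at hv
      rintro ⟨z, hz, j, hzj⟩
      rcases hz with rfl | rfl | ⟨m', h1, h2, rfl⟩
      · exact (hcon v hv).1 (by rw [hzj]; exact pi_a j)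
      · exact (hcon v hv).1 (by rw [hzj]; exact pi_b j)
      · exact (hcon v hv).2 m' h1 h2 (by rw [hzj]; exact hhub m' h1 h2 j)
    obtain ⟨u₀, o, h2, h3, h4, _⟩ := card_le_cls ψ haK hbK hfZ hdZ hcl hV
      (C := R.De m) (by
        have := R.conn_De m
        convert this using 1
        ext u; simp) h1 (v₀ := m) (by simp [R.anc_refl])
    have h5 := hclass u₀ h3
    have h6 : R.sz m = μ := hMμ m hm
    have h7 : (R.De m).card = R.sz m := rfl
    omega
  have hdisj : ∀ m m' v v', m ∈ M → m' ∈ M → m ≠ m' → R.Anc m v → R.Anc m' v' → ψ v ≠ ψ v' := by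
    intro m m' v v' h1 h2 h3 h4 h5 h6
    have := psi_inj ψ h6
    subst this
    exact h3 (R.ch_disj (hM m h1) (hM m' h2) h4 h5)
  by_cases hy : ψ f = none
  · -- every big branch contains a hub
    have h1 : ∀ m ∈ M, ∃ m' ∈ M.erase d, ∃ v, R.Anc m v ∧ ψ v = some (g m', none) := by
      intro m hm
      obtain ⟨v, hv, hv' | ⟨m', h2, h3, h4⟩⟩ := hmeet m hm
      · exfalso
        have := psi_inj ψ (hv'.trans hy.symm)
        subst this
        exact (hM m hm).not_anc hv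
      · exact ⟨m', Finset.mem_erase.2 ⟨h3, h2⟩, v, hv, h4⟩
    choose! τ hτ1 hτ2 using h1
    have h2 : M.card ≤ (M.erase d).card := by
      refine Finset.card_le_card_of_injOn τ (fun m hm => hτ1 m (Finset.mem_coe.1 hm)) ?_
      intro m hm m' hm' hmm
      by_contra hne
      obtain ⟨v, hv, hv'⟩ := hτ2 m (Finset.mem_coe.1 hm)
      obtain ⟨v', hv1, hv1'⟩ := hτ2 m' (Finset.mem_coe.1 hm')
      refine hdisj m m' v v' (Finset.mem_coe.1 hm) (Finset.mem_coe.1 hm') hne hv hv1 ?_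
      rw [hv', hv1', hmm]
    have h3 := Finset.card_erase_add_one hd
    omega
  · -- two big branches avoid `w`
    obtain ⟨m0, m1, hm0, hm1, hne, h0, h1⟩ : ∃ m0 m1, m0 ∈ M ∧ m1 ∈ M ∧ m0 ≠ m1 ∧
        (∀ v, R.Anc m0 v → ψ v ≠ none) ∧ (∀ v, R.Anc m1 v → ψ v ≠ none) := by
      by_cases hex : ∃ m ∈ M, ∃ v, R.Anc m v ∧ ψ v = none
      · obtain ⟨m, hm, v, hv, hv'⟩ := hex
        have h4 : 1 < (M.erase m).card := by
          have := Finset.card_erase_add_one hm
          omega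
        obtain ⟨m0, m1, h5, h6, h7⟩ := Finset.one_lt_card_iff.1 h4
        rw [Finset.mem_erase] at h5 h6
        refine ⟨m0, m1, h5.2, h6.2, h7, fun v' hv1 e => ?_, fun v' hv1 e => ?_⟩
        · exact hdisj m0 m v' v h5.2 hm h5.1 hv1 hv (e.trans hv'.symm)
        · exact hdisj m1 m v' v h6.2 hm h6.1 hv1 hv (e.trans hv'.symm)
      · push Not at hex
        obtain ⟨m0, m1, h5, h6, h7⟩ := Finset.one_lt_card_iff.1 (show 1 < M.card by omega)
        exact ⟨m0, m1, h5, h6, h7, fun v hv => hex m0 h5 v hv, fun v hv => hex m1 h6 v hv⟩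
    set Z2 : Set V := {f, d} with hZ2
    have key : ∀ m ∈ M, (∀ v, R.Anc m v → ψ v ≠ none) → ∃ m' ∈ M, m' ≠ d ∧
        (∃ v, R.Anc m v ∧ ψ v = some (g m', none)) ∧ ∃ u j, ψ f = pi f d K u j ∧ R.Anc m' u := by
      intro m hm hav
      obtain ⟨v, hv, hv' | ⟨m', h2, h3, h4⟩⟩ := hmeet m hm
      · exact absurd hv' (hav v hv)
      · refine ⟨m', h2, h3, ⟨v, hv, h4⟩, ?_⟩
        have hav' : ∀ v ∈ insert f {v | R.Anc m v}, ¬ InZ f d K I Z2 (ψ v) := by
          intro v hv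
          rintro ⟨z, hz, j, hzj⟩
          have hn : ψ v = none := by
            simp only [hZ2, Set.mem_insert_iff, Set.mem_singleton_iff] at hz
            rw [hzj]; exact pi_eq_none.2 hz
          rcases hv with hv | hv
          · exact hy (hv ▸ hn)
          · exact hav v hv hn
        obtain ⟨c2, hc2⟩ := label_coarse ψ (Z := Z2) (by simp [hZ2]) (by simp [hZ2]) hV
          (R.conn_root_De (hM m hm)) hav' (v₀ := f) (Or.inl rfl)
        obtain ⟨u', j', h5, h6, h7⟩ := hc2 v (Or.inr hv)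
        rw [h4] at h5
        have h8 := (pi_some h5.symm).1
        have h9 : R.top Z2 u' = m' := by
          rw [h8, RT.top_step (hg m' h2 h3).1, (hg m' h2 h3).2, RT.top_self]
          · right; rw [(hM m' h2).2]; simp [hZ2, hf]
          · rw [(hg m' h2 h3).2]
            simp only [hZ2, Set.mem_insert_iff, Set.mem_singleton_iff, not_or]
            exact ⟨(hM m' h2).1, h3⟩
        obtain ⟨u, j, h10, h11, h12⟩ := hc2 f (Or.inl rfl)
        refine ⟨u, j, h10, ?_⟩
        rw [← h9, h7, ← h12]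
        exact RT.top_anc Z2 u
    obtain ⟨m0', h2, h3, ⟨v0, h4, h5⟩, u, j, h6, h7⟩ := key m0 hm0 h0
    obtain ⟨m1', k2, k3, ⟨v1, k4, k5⟩, u', j', k6, k7⟩ := key m1 hm1 h1
    have e1 : u = u' := by
      refine pi_inj (h6.symm.trans k6) (fun e => ?_) (fun e => ?_)
      · rw [e] at h7; exact (hM m0' h2).not_anc h7
      · rw [e] at h7; exact h3 (R.ch_disj (hM m0' h2) hdch h7 (R.anc_refl _))
    subst e1
    have e2 : m0' = m1' := R.ch_disj (hM _ h2) (hM _ k2) h7 k7
    subst e2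
    exact hdisj m0 m1 v0 v1 hm0 hm1 hne h4 k4 (h5.trans k5.symm)

end

end WV
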