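import Pool.Agent.Helper29.WV.Sun

/-! the one hub structure: edge `root - y0`, kernel `{root, y0} ∪ De h`, `h` below `x0` -/

namespace WV

open SimpleGraph

namespace RT

variable {V : Type} {R : RT V}

lemma ch_not_anc_root {c : V} (h : R.IsCh c R.root) : ¬ R.Anc c R.root := h.not_anc

lemma anc_ch_root {x u : V} (hx : R.IsCh x R.root) (h : R.Anc x u) : u ≠ R.root := by
  rintro rfl; exact hx.not_anc h

end RT

/-- the kernel -/
def K1 {V : Type} (R : RT V) (y0 h : V) : Set V := {u | u = R.root ∨ u = y0 ∨ R.Anc h u}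

section
variable {V : Type} {R : RT V} {x0 y0 h : V}

lemma K1_adm (hx : R.IsCh x0 R.root) (hy : R.IsCh y0 R.root) (hxy : x0 ≠ y0) (hh : R.Anc x0 h)
    (hne : h ≠ x0) : Adm R.G R.root y0 (K1 R y0 h) := by
  refine ⟨Or.inr hy, Or.inl rfl, Or.inr (Or.inl rfl), ?_⟩
  intro u hu h1 h2
  rcases hu with hu | hu | hu
  · exact absurd hu h1
  · exact absurd hu h2
  · have h3 : R.Anc x0 u := R.anc_trans hh hu
    constructor
    · rintro (h4 | h4)
      · exact h4.1 rfl
      · have := R.ch_disj hx h4 h3 (R.anc_refl u)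
        subst this
        exact hne (R.anc_antisymm hu hh)
    · rintro (h4 | h4)
      · exact h1 (by rw [← h4.2, hy.2])
      · exact hxy (R.ch_disj hx hy h3 ⟨1, h4.2⟩)

variable [Fintype V] {μ : ℕ}

theorem onehub (hx : R.IsCh x0 R.root) (hy : R.IsCh y0 R.root) (hxy : x0 ≠ y0) (hh : R.Anc x0 h)
    (hne : h ≠ x0) (hx0 : R.sz x0 = μ) (hy0 : R.sz y0 = μ)
    (hE : ∀ c, R.IsCh c R.root → c ≠ x0 → c ≠ y0 → R.sz c < μ) {I : Type}
    (ψ : Copy R.G (Sun R.G R.root y0 (K1 R y0 h) I)) :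
    ∃ u c m, R.Anc x0 u ∧ R.IsCh c u ∧ R.Anc c h ∧ (m = x0 ∨ m = y0) ∧
      (R.Ch R.root).card ≤ (R.Ch u).card + 1 ∧
      (∑ e ∈ R.Ch R.root, R.sz e) + R.sz c ≤ 2 * μ + ∑ e ∈ R.Ch u, R.sz e ∧
      (c ≠ h → (R.Ch m).card ≤ (R.Ch c).card) ∧
      ∀ e, R.IsCh e R.root → e ≠ x0 → e ≠ y0 → ∃ c', R.IsCh c' u ∧ R.sz e ≤ R.sz c' := by
  classical
  set f := R.root with hf
  set K := K1 R y0 h with hK
  have haK : f ∈ K := Or.inl rfl
  have hbK : y0 ∈ K := Or.inr (Or.inl rfl)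
  have hhK : h ∈ K := Or.inr (Or.inr (R.anc_refl h))
  have hhf : h ≠ f := RT.anc_ch_root hx hh
  have hhy : h ≠ y0 := fun e => hxy (R.ch_disj hx hy hh (e ▸ R.anc_refl _))
  have hV : ∃ v, v ≠ R.root := ⟨x0, hx.1⟩
  -- elements of De x0 outside De h are private
  have hpriv : ∀ u, R.Anc x0 u → ¬ R.Anc h u → u ∉ K := by
    intro u h1 h2 h3
    rcases h3 with h3 | h3 | h3
    · exact RT.anc_ch_root hx h1 h3
    · exact hxy (R.ch_disj hx hy h1 (h3 ▸ R.anc_refl _))
    · exact h2 h3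
  have hnab : ∀ u, R.Anc x0 u → u ≠ f ∧ u ≠ y0 := by
    intro u h1
    exact ⟨RT.anc_ch_root hx h1, fun e => hxy (R.ch_disj hx hy h1 (e ▸ R.anc_refl _))⟩
  have hhub : ∀ j : I, pi f y0 K h j = some (h, none) := fun j => pi_K hhK hhf hhy
  have hpnone : ∀ u (j : I), R.Anc x0 u → pi f y0 K u j ≠ none := by
    intro u j h1 h2
    have := pi_eq_none.1 h2
    have h3 := hnab u h1
    tauto
  -- the class bound
  set Z : Set V := {f, y0, h} with hZ
  have hcl : ∀ u, u ∉ Z → u ≠ R.root → R.par u ∉ Z → (u ∈ K ↔ R.par u ∈ K) := by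
    intro u h1 h2 h3
    simp only [hZ, Set.mem_insert_iff, Set.mem_singleton_iff, not_or] at h1 h3
    constructor
    · rintro (h4 | h4 | h4)
      · exact absurd h4 h2
      · exact absurd h4 h1.2.1
      · exact Or.inr (Or.inr (R.anc_par h4 (Ne.symm h1.2.2)))
    · rintro (h4 | h4 | h4)
      · exact absurd h4 h3.1
      · exact absurd h4 h3.2.1
      · exact Or.inr (Or.inr (R.anc_of_par h4))
  have hclass : ∀ u, u ∉ Z → (R.cls Z (R.top Z u)).card < μ := by
    intro u hu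
    have hu' : u ≠ f ∧ u ≠ y0 ∧ u ≠ h := by
      simpa only [hZ, Set.mem_insert_iff, Set.mem_singleton_iff, not_or] using hu
    have hc0 : R.top Z u ≠ f :=
      (RT.top_hub (Z := Z) (h := f) (by simp [hZ]) (R.root_anc u) hu'.1).2
    have hcy : R.top Z u ≠ y0 := by
      intro e
      have h1 : R.Anc y0 u := by rw [← e]; exact RT.top_anc Z u
      exact (RT.top_hub (Z := Z) (by simp [hZ]) h1 hu'.2.1).2 e
    have hs := (RT.top_spec (R := R) Z u).resolve_left hc0
    simp only [hZ, Set.mem_insert_iff, Set.mem_singleton_iff] at hs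
    rw [← hZ] at hs
    rcases hs with hs | hs | hs
    · have hch : R.IsCh (R.top Z u) R.root := ⟨hc0, hs⟩
      by_cases hcx : R.top Z u = x0
      · have := RT.cls_card_hub (R := R) (Z := Z) (c := R.top Z u) (h := h) (by simp [hZ])
          (by rw [hcx]; exact hh)
        have h2 := R.sz_pos h
        rw [hcx] at this ⊢
        omega
      · exact lt_of_le_of_lt (RT.cls_card_le Z _) (hE _ hch hcx hcy)
    · have hch : R.IsCh (R.top Z u) y0 := ⟨hc0, hs⟩
      have := R.sz_lt hch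
      exact lt_of_le_of_lt (RT.cls_card_le Z _) (by omega)
    · have hch : R.IsCh (R.top Z u) h := ⟨hc0, hs⟩
      have := R.sz_lt hch
      have h2 := R.sz_le_of_anc hh
      exact lt_of_le_of_lt (RT.cls_card_le Z _) (by omega)
  -- big branches meet `π(Z)`
  have hmeet : ∀ m, (m = x0 ∨ m = y0) → ∃ v, R.Anc m v ∧ (ψ v = none ∨ ψ v = some (h, none)) := by
    intro m hm
    by_contra hcon
    push Not at hcon
    have h1 : ∀ v ∈ R.De m, ¬ InZ f y0 K I Z (ψ v) := by
      intro v hv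
      rw [RT.mem_De] at hv
      rintro ⟨z, hz, j, hzj⟩
      simp only [hZ, Set.mem_insert_iff, Set.mem_singleton_iff] at hz
      rcases hz with rfl | rfl | rfl
      · exact (hcon v hv).1 (by rw [hzj]; exact pi_a j)
      · exact (hcon v hv).1 (by rw [hzj]; exact pi_b j)
      · exact (hcon v hv).2 (by rw [hzj]; exact hhub j)
    obtain ⟨u₀, o, h2, h3, h4, _⟩ := card_le_cls ψ haK hbK (by simp [hZ]) (by simp [hZ]) hcl hV
      (C := R.De m) (by
        have := R.conn_De m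
        convert this using 1
        ext u; simp) h1 (v₀ := m) (by simp [R.anc_refl])
    have h5 := hclass u₀ h3
    have h6 : R.sz m = μ := by rcases hm with rfl | rfl <;> assumption
    have h7 : (R.De m).card = R.sz m := rfl
    omega
  -- disjointness
  have hdisj : ∀ m m' v v', R.IsCh m f → R.IsCh m' f → m ≠ m' → R.Anc m v → R.Anc m' v' → ψ v ≠ ψ v' := by
    intro m m' v v' h1 h2 h3 h4 h5 h6
    have := psi_inj ψ h6
    subst this
    exact h3 (R.ch_disj h1 h2 h4 h5)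
  have hrt : ∀ m v, R.IsCh m f → R.Anc m v → ψ v ≠ ψ f := by
    intro m v h1 h2 h3
    have := psi_inj ψ h3
    subst this
    exact h1.not_anc h2
  -- split
  obtain ⟨m1, m2, hm1, hm2, hm12, hmm, v1, hv1, hw, v2, hv2, hhb⟩ :
      ∃ m1 m2, R.IsCh m1 f ∧ R.IsCh m2 f ∧ m1 ≠ m2 ∧ ((m1 = x0 ∧ m2 = y0) ∨ (m1 = y0 ∧ m2 = x0)) ∧
        ∃ v1, R.Anc m1 v1 ∧ ψ v1 = none ∧ ∃ v2, R.Anc m2 v2 ∧ ψ v2 = some (h, none) := by
    obtain ⟨v, hv, hv'⟩ := hmeet x0 (Or.inl rfl)
    obtain ⟨v', hv1, hv1'⟩ := hmeet y0 (Or.inr rfl)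
    rcases hv' with hv' | hv' <;> rcases hv1' with hv1' | hv1'
    · exact absurd (hv'.trans hv1'.symm) (hdisj x0 y0 v v' hx hy hxy hv hv1)
    · exact ⟨x0, y0, hx, hy, hxy, Or.inl ⟨rfl, rfl⟩, v, hv, hv', v', hv1, hv1'⟩
    · exact ⟨y0, x0, hy, hx, hxy.symm, Or.inr ⟨rfl, rfl⟩, v', hv1, hv1', v, hv, hv'⟩
    · exact absurd (hv'.trans hv1'.symm) (hdisj x0 y0 v v' hx hy hxy hv hv1)
  have hyw : ψ f ≠ none := fun e => hrt m1 v1 hm1 hv1 (hw.trans e.symm)
  have hyh : ψ f ≠ some (h, none) := fun e => hrt m2 v2 hm2 hv2 (hhb.trans e.symm)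
  have hm1h : ∀ v, R.Anc m1 v → ψ v ≠ some (h, none) := fun v hv e =>
    hdisj m1 m2 v v2 hm1 hm2 hm12 hv hv2 (e.trans hhb.symm)
  have hm2w : ∀ v, R.Anc m2 v → ψ v ≠ none := fun v hv e =>
    hdisj m2 m1 v v1 hm2 hm1 hm12.symm hv hv1 (e.trans hw.symm)
  -- locate y
  obtain ⟨u, j, hyu, hxu⟩ : ∃ u j, ψ f = pi f y0 K u j ∧ R.Anc x0 u := by
    set Z2 : Set V := {f, y0} with hZ2
    have hav : ∀ v ∈ insert f {v | R.Anc m2 v}, ¬ InZ f y0 K I Z2 (ψ v) := by
      intro v hv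
      rintro ⟨z, hz, j, hzj⟩
      have hn : ψ v = none := by
        simp only [hZ2, Set.mem_insert_iff, Set.mem_singleton_iff] at hz
        rw [hzj]; exact pi_eq_none.2 hz
      rcases hv with hv | hv
      · exact hyw (hv ▸ hn)
      · exact hm2w v hv hn
    obtain ⟨c2, hc2⟩ := label_coarse ψ (Z := Z2) (by simp [hZ2]) (by simp [hZ2]) hV
      (R.conn_root_De hm2) hav (v₀ := f) (Or.inl rfl)
    obtain ⟨u', j', h1, h2, h3⟩ := hc2 v2 (Or.inr hv2)
    rw [hhb] at h1
    have h4 := (pi_some h1.symm).1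
    subst h4
    have h5 : R.top Z2 u' ≠ f := (RT.top_hub (Z := Z2) (h := f) (by simp [hZ2]) (R.root_anc u') hhf).2
    have h6 := (RT.top_spec (R := R) Z2 u').resolve_left h5
    have h7 := RT.top_anc (R := R) Z2 u'
    have h8 : c2 = x0 := by
      simp only [hZ2, Set.mem_insert_iff, Set.mem_singleton_iff] at h6
      rw [← hZ2, h3] at h6
      rw [h3] at h5 h7
      rcases h6 with h6 | h6
      · exact R.ch_disj ⟨h5, h6⟩ hx h7 hh
      · exact absurd (R.ch_disj hx hy hh (R.anc_trans ⟨1, h6⟩ h7)) hxy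
    obtain ⟨u, j, h9, h10, h11⟩ := hc2 f (Or.inl rfl)
    refine ⟨u, j, h9, ?_⟩
    rw [← h8, ← h11]
    exact RT.top_anc Z2 u
  -- y is not below the hub
  have huh : ¬ R.Anc h u := by
    intro hhu
    have hne' : u ≠ h := by
      rintro rfl
      exact hyh (by rw [hyu]; exact hhub j)
    have hav1 : ∀ v ∈ insert f {v | R.Anc m1 v}, ψ v ≠ some (h, none) := by
      rintro v (hv | hv)
      · rw [hv]; exact hyh
      · exact hm1h v hv
    have := R.conn_root_De hm1 (fun v => ∃ u', R.Anc h u' ∧ u' ≠ h ∧ ∃ j', ψ v = pi f y0 K u' j') (by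
      rintro v hv v' hv' hvv ⟨u', h1, h2, j', h3⟩
      have h4 := psi_adj ψ hvv
      have h5 := hnab u' (R.anc_trans hh h1)
      rw [h3] at h4
      obtain ⟨u'', j'', h6, h7⟩ := sun_adj_K h5.1 h5.2 h4
      rcases h6 with h6 | h6
      · have h8 : R.Anc h u'' := by rw [← h6.2]; exact R.anc_par h1 (Ne.symm h2)
        refine ⟨u'', h8, ?_, j'', h7⟩
        rintro rfl
        exact hav1 v' hv' (by rw [h7]; exact hhub j'')
      · have h8 : R.Anc h u'' := R.anc_trans h1 ⟨1, h6.2⟩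
        refine ⟨u'', h8, ?_, j'', h7⟩
        rintro rfl
        rw [← h6.2] at h1
        exact h2 (by rw [← h6.2]; exact R.anc_antisymm (R.anc_self_par _) h1)) f (Or.inl rfl) v1
        (Or.inr hv1) ⟨u, hhu, hne', j, hyu⟩
    obtain ⟨u', h1, h2, j', h3⟩ := this
    rw [hw] at h3
    exact hpnone u' j' (R.anc_trans hh h1) h3.symm
  have huK : u ∉ K := hpriv u hxu huh
  have hpu : ∀ c, R.IsCh c u → R.Anc x0 c := fun c hc => R.anc_trans hxu hc.anc
  -- confinement below a child which is not towards h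
  have hconf : ∀ m c, R.IsCh m f → R.IsCh c u → ¬ R.Anc c h → ψ m = pi f y0 K c j →
      ∀ v, R.Anc m v → ∃ u', R.Anc c u' ∧ ψ v = pi f y0 K u' j := by
    intro m c hm hc hch hmc v hv
    refine confine ψ haK hbK (c := c) ?_ j (R.conn_De m) ?_ (v := m) (R.anc_refl m)
      ⟨c, R.anc_refl c, hmc⟩ v hv
    · intro z hz
      refine hpriv z (R.anc_trans (hpu c hc) hz) (fun hhz => ?_)
      rcases R.anc_total hz hhz with h1 | h1
      · exact hch h1
      · by_cases e : h = c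
        · exact hch (e ▸ R.anc_refl _)
        · exact huh (by rw [← hc.2]; exact R.anc_par h1 e)
    · intro z hz
      rw [hc.2, ← hyu]
      exact hrt m z hm hz
  have hprivc : ∀ c u', R.IsCh c u → ¬ R.Anc c h → R.Anc c u' → u' ∉ K := by
    intro c z hc hch hz
    refine hpriv z (R.anc_trans (hpu c hc) hz) (fun hhz => ?_)
    rcases R.anc_total hz hhz with h1 | h1
    · exact hch h1
    · by_cases e : h = c
      · exact hch (e ▸ R.anc_refl _)
      · exact huh (by rw [← hc.2]; exact R.anc_par h1 e)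
  -- images of the neighbours of the root
  have hnb : ∀ m, R.IsCh m f → ∃ u', R.G.Adj u u' ∧ ψ m = pi f y0 K u' j := by
    intro m hm
    have h1 := psi_adj ψ (u := f) (v := m) (Or.inr hm)
    rw [hyu] at h1
    exact sun_adj_priv haK hbK huK h1
  -- for m1, m2
  have hdir : ∀ m, (m = m1 ∨ m = m2) → ψ m = pi f y0 K (R.par u) j ∨
      ∃ c, R.IsCh c u ∧ R.Anc c h ∧ ψ m = pi f y0 K c j := by
    intro m hm
    have hmf : R.IsCh m f := by rcases hm with rfl | rfl <;> assumption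
    obtain ⟨u', h1, h2⟩ := hnb m hmf
    rcases h1 with h1 | h1
    · left; rw [h2, h1.2]
    · right
      refine ⟨u', h1, ?_, h2⟩
      by_contra hcon
      have h3 := hconf m u' hmf h1 hcon h2
      rcases hm with rfl | rfl
      · obtain ⟨u'', h4, h5⟩ := h3 v1 hv1
        rw [hw] at h5
        exact hpnone u'' j (R.anc_trans (hpu _ h1) h4) h5.symm
      · obtain ⟨u'', h4, h5⟩ := h3 v2 hv2
        rw [hhb, pi_priv haK hbK (hprivc u' u'' h1 hcon h4)] at h5
        simp at h5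
  -- the child towards h
  obtain ⟨c, hc, hch⟩ : ∃ c, R.IsCh c u ∧ R.Anc c h := by
    rcases hdir m1 (Or.inl rfl) with e1 | ⟨c, h1, h2, _⟩
    · rcases hdir m2 (Or.inr rfl) with e2 | ⟨c, h1, h2, _⟩
      · exact absurd (psi_inj ψ (e1.trans e2.symm)) hm12
      · exact ⟨c, h1, h2⟩
    · exact ⟨c, h1, h2⟩
  have huniq : ∀ c', R.IsCh c' u → R.Anc c' h → c' = c := fun c' h1 h2 => R.ch_disj h1 hc h2 hch
  have hm1c : ψ m1 ≠ pi f y0 K c j := by
    intro e
    by_cases ech : c = h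
    · rw [ech] at e
      exact hm1h m1 (R.anc_refl _) (e.trans (hhub j))
    · have := R.conn_De m1 (fun v => ∃ z, R.Anc c z ∧ ¬ R.Anc h z ∧ ψ v = pi f y0 K z j) (by
        rintro v hv v' hv' hvv ⟨z, h1, h2, h3⟩
        have hzx : R.Anc x0 z := R.anc_trans (hpu c hc) h1
        have h4 := psi_adj ψ hvv
        rw [h3] at h4
        obtain ⟨z', h6, h7⟩ := sun_adj_priv haK hbK (hpriv z hzx h2) h4
        rcases h6 with h6 | h6
        · by_cases ez : c = z
          · exfalso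
            have : z' = u := by rw [← h6.2, ← ez, hc.2]
            rw [this, ← hyu] at h7
            exact hrt m1 v' hm1 hv' h7
          · refine ⟨z', by rw [← h6.2]; exact R.anc_par h1 ez, ?_, h7⟩
            intro h8
            rw [← h6.2] at h8
            exact h2 (R.anc_of_par h8)
        · refine ⟨z', R.anc_trans h1 ⟨1, h6.2⟩, ?_, h7⟩
          intro h8
          by_cases ez : h = z'
          · rw [← ez] at h7
            exact hm1h v' hv' (h7.trans (hhub j))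
          · exact h2 (by rw [← h6.2]; exact R.anc_par h8 ez)) m1 (R.anc_refl _) v1 hv1
          ⟨c, R.anc_refl c, fun h8 => ech (R.anc_antisymm hch h8), e⟩
      obtain ⟨z, h1, h2, h3⟩ := this
      rw [hw] at h3
      exact hpnone z j (R.anc_trans (hpu c hc) h1) h3.symm
  have e1 : ψ m1 = pi f y0 K (R.par u) j := by
    rcases hdir m1 (Or.inl rfl) with e | ⟨c', h1, h2, h3⟩
    · exact e
    · rw [huniq c' h1 h2] at h3
      exact absurd h3 hm1c
  have e2 : ψ m2 = pi f y0 K c j := by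
    rcases hdir m2 (Or.inr rfl) with e | ⟨c', h1, h2, h3⟩
    · exact absurd (psi_inj ψ (e1.trans e.symm)) hm12
    · rw [huniq c' h1 h2] at h3
      exact h3
  -- the other branches
  have hother : ∀ e, R.IsCh e f → e ≠ m1 → e ≠ m2 → ∃ c', R.IsCh c' u ∧ c' ≠ c ∧ ψ e = pi f y0 K c' j ∧
      R.sz e ≤ R.sz c' := by
    intro e he h1 h2
    obtain ⟨u', h3, h4⟩ := hnb e he
    rcases h3 with h3 | h3
    · rw [← h3.2, ← e1] at h4
      exact absurd (psi_inj ψ h4) h1
    · have h5 : u' ≠ c := by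
        rintro rfl
        rw [← e2] at h4
        exact h2 (psi_inj ψ h4)
      refine ⟨u', h3, h5, h4, ?_⟩
      have h6 : ¬ R.Anc u' h := fun h7 => h5 (huniq u' h3 h7)
      have h7 := hconf e u' he h3 h6 h4
      refine card_le_of_pi ψ (fun z => pi f y0 K z j) (fun v hv => ?_)
      rw [RT.mem_De] at hv
      obtain ⟨z, h8, h9⟩ := h7 v hv
      exact ⟨z, by rw [RT.mem_De]; exact h8, h9⟩
  have hm1C : m1 ∈ R.Ch f := R.mem_Ch.2 hm1
  have hm2C : m2 ∈ R.Ch f := R.mem_Ch.2 hm2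
  have hcC : c ∈ R.Ch u := R.mem_Ch.2 hc
  have hothers : ∀ e ∈ ((R.Ch f).erase m1).erase m2, ∃ c' ∈ (R.Ch u).erase c,
      ψ e = pi f y0 K c' j ∧ R.sz e ≤ R.sz c' := by
    intro e he
    rw [Finset.mem_erase, Finset.mem_erase, RT.mem_Ch] at he
    obtain ⟨c', h1, h2, h3, h4⟩ := hother e he.2.2 he.2.1 he.1
    exact ⟨c', Finset.mem_erase.2 ⟨h2, R.mem_Ch.2 h1⟩, h3, h4⟩
  choose! σ hσ1 hσ2 hσ3 using hothers
  have hσinj : Set.InjOn σ ((((R.Ch f).erase m1).erase m2 : Finset V) : Set V) := by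
    intro e he e' he' hee
    apply psi_inj ψ
    rw [hσ2 e (Finset.mem_coe.1 he), hσ2 e' (Finset.mem_coe.1 he'), hee]
  have hcard : (((R.Ch f).erase m1).erase m2).card ≤ ((R.Ch u).erase c).card :=
    Finset.card_le_card_of_injOn σ (fun e he => hσ1 e (Finset.mem_coe.1 he)) hσinj
  have hm2C' : m2 ∈ (R.Ch f).erase m1 := Finset.mem_erase.2 ⟨hm12.symm, hm2C⟩
  have hcards : (R.Ch f).card = (((R.Ch f).erase m1).erase m2).card + 2 := by
    have h1 := Finset.card_erase_add_one hm2C'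
    have h2 := Finset.card_erase_add_one hm1C
    omega
  have hcardu : ((R.Ch u).erase c).card + 1 = (R.Ch u).card := Finset.card_erase_add_one hcC
  have hsum : ∑ e ∈ ((R.Ch f).erase m1).erase m2, R.sz e ≤ ∑ e ∈ (R.Ch u).erase c, R.sz e := by
    calc ∑ e ∈ ((R.Ch f).erase m1).erase m2, R.sz e
        ≤ ∑ e ∈ ((R.Ch f).erase m1).erase m2, R.sz (σ e) :=
          Finset.sum_le_sum (fun e he => hσ3 e he)
      _ = ∑ e ∈ (((R.Ch f).erase m1).erase m2).image σ, R.sz e := by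
          rw [Finset.sum_image]
          intro e he e' he' hee
          exact hσinj he he' hee
      _ ≤ ∑ e ∈ (R.Ch u).erase c, R.sz e := by
          apply Finset.sum_le_sum_of_subset
          intro e he
          rw [Finset.mem_image] at he
          obtain ⟨e', he', rfl⟩ := he
          exact hσ1 e' he'
  refine ⟨u, c, m2, hxu, hc, hch, ?_, ?_, ?_, ?_, ?_⟩
  · rcases hmm with ⟨_, h2⟩ | ⟨_, h2⟩
    · right; exact h2
    · left; exact h2
  · omega
  · have h1 := Finset.add_sum_erase (R.Ch f) R.sz hm1C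
    have h2 := Finset.add_sum_erase ((R.Ch f).erase m1) R.sz hm2C'
    have h3 := Finset.add_sum_erase (R.Ch u) R.sz hcC
    have h4 : R.sz m1 = μ := by rcases hmm with ⟨e, _⟩ | ⟨e, _⟩ <;> rw [e] <;> assumption
    have h5 : R.sz m2 = μ := by rcases hmm with ⟨_, e⟩ | ⟨_, e⟩ <;> rw [e] <;> assumption
    omega
  · intro hcne
    have hcK : c ∉ K := hpriv c (hpu c hc) (fun h8 => hcne (R.anc_antisymm hch h8))
    have hz : ∀ z ∈ R.Ch m2, ∃ z' ∈ R.Ch c, ψ z = pi f y0 K z' j := by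
      intro z hz
      rw [RT.mem_Ch] at hz
      have h1 := psi_adj ψ (u := m2) (v := z) (Or.inr hz)
      rw [e2] at h1
      obtain ⟨z', h2, h3⟩ := sun_adj_priv haK hbK hcK h1
      rcases h2 with h2 | h2
      · exfalso
        rw [← h2.2, hc.2, ← hyu] at h3
        exact hrt m2 z hm2 hz.anc h3
      · exact ⟨z', R.mem_Ch.2 h2, h3⟩
    exact card_le_of_pi ψ (fun z' => pi f y0 K z' j) hz
  · intro e he h1 h2
    have h3 : e ≠ m1 := by rcases hmm with ⟨e1, _⟩ | ⟨e1, _⟩ <;> rw [e1] <;> assumption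
    have h4 : e ≠ m2 := by rcases hmm with ⟨_, e1⟩ | ⟨_, e1⟩ <;> rw [e1] <;> assumption
    obtain ⟨c', h5, _, _, h6⟩ := hother e he h3 h4
    exact ⟨c', h5, h6⟩

end

end WV
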