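import Pool.Agent.Helper29.WV.Defs

/-! rooted trees by a parent function -/

namespace WV

open SimpleGraph

structure RT (V : Type) where
  par : V → V
  root : V
  dep : V → ℕ
  par_root : par root = root
  dep_par : ∀ v, v ≠ root → dep v = dep (par v) + 1

namespace RT
variable {V : Type} (R : RT V)

def G : SimpleGraph V where
  Adj u v := (u ≠ R.root ∧ R.par u = v) ∨ (v ≠ R.root ∧ R.par v = u)
  symm := ⟨fun _ _ h => h.symm⟩
  loopless := ⟨by
    intro x h
    have h' : x ≠ R.root ∧ R.par x = x := by tauto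
    have := R.dep_par x h'.1
    rw [h'.2] at this; omega⟩

lemma adj_iff (u v : V) : R.G.Adj u v ↔ (u ≠ R.root ∧ R.par u = v) ∨ (v ≠ R.root ∧ R.par v = u) := Iff.rfl

lemma adj_par {u : V} (h : u ≠ R.root) : R.G.Adj u (R.par u) := Or.inl ⟨h, rfl⟩

lemma par_ne {u : V} (h : u ≠ R.root) : R.par u ≠ u := fun e => by
  have := R.dep_par u h; rw [e] at this; omega

lemma par_par_ne {u : V} (h : u ≠ R.root) : R.par (R.par u) ≠ u := fun e => by
  have h1 := R.dep_par u h
  by_cases h2 : R.par u = R.root
  · rw [h2, R.par_root] at e; exact h e.symm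
  · have := R.dep_par _ h2; rw [e] at this; omega

/-- `v` is an ancestor of `u` (or `u` itself). -/
def Anc (v u : V) : Prop := ∃ i : ℕ, R.par^[i] u = v

lemma anc_refl (v : V) : R.Anc v v := ⟨0, rfl⟩

lemma anc_of_par {v u : V} (h : R.Anc v (R.par u)) : R.Anc v u := by
  obtain ⟨i, hi⟩ := h
  exact ⟨i + 1, by rw [Function.iterate_succ_apply]; exact hi⟩

lemma anc_par {v u : V} (h : R.Anc v u) (hne : v ≠ u) : R.Anc v (R.par u) := by
  obtain ⟨i, hi⟩ := h
  cases i with
  | zero => exact absurd hi.symm hne
  | succ i => exact ⟨i, by rw [Function.iterate_succ_apply] at hi; exact hi⟩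

lemma anc_self_par (u : V) : R.Anc (R.par u) u := ⟨1, rfl⟩

lemma anc_trans {a b c : V} (h : R.Anc a b) (h' : R.Anc b c) : R.Anc a c := by
  obtain ⟨i, hi⟩ := h
  obtain ⟨j, hj⟩ := h'
  exact ⟨i + j, by rw [Function.iterate_add_apply, hj, hi]⟩

lemma iter_root (i : ℕ) : R.par^[i] R.root = R.root := by
  induction i with
  | zero => rfl
  | succ i ih => rw [Function.iterate_succ_apply, R.par_root, ih]

lemma anc_root_right {v : V} (h : R.Anc v R.root) : v = R.root := by
  obtain ⟨i, hi⟩ := h
  rw [R.iter_root] at hi; exact hi.symm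

lemma dep_anc {v u : V} (h : R.Anc v u) : v = u ∨ R.dep v < R.dep u := by
  obtain ⟨i, hi⟩ := h
  induction i generalizing u with
  | zero => left; exact hi.symm
  | succ i ih =>
    rw [Function.iterate_succ_apply] at hi
    by_cases hu : u = R.root
    · left; rw [hu, R.par_root, R.iter_root] at hi; rw [hu, hi]
    · right
      have h1 := R.dep_par u hu
      rcases ih hi with h | h
      · rw [h]; omega
      · omega

lemma anc_antisymm {v u : V} (h : R.Anc v u) (h' : R.Anc u v) : v = u := by
  rcases R.dep_anc h with e | e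
  · exact e
  · rcases R.dep_anc h' with e' | e'
    · exact e'.symm
    · omega

lemma root_anc (u : V) : R.Anc R.root u := by
  induction hn : R.dep u using Nat.strong_induction_on generalizing u with
  | _ n ih =>
    by_cases hu : u = R.root
    · rw [hu]; exact R.anc_refl _
    · have := R.dep_par u hu
      exact R.anc_of_par (ih _ (by omega) _ rfl)

/-- two ancestors of the same vertex are comparable -/
lemma anc_total {a b u : V} (h : R.Anc a u) (h' : R.Anc b u) : R.Anc a b ∨ R.Anc b a := by
  obtain ⟨i, hi⟩ := h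
  obtain ⟨j, hj⟩ := h'
  rcases le_total i j with hij | hij
  · right
    refine ⟨j - i, ?_⟩
    rw [← hi, ← Function.iterate_add_apply, Nat.sub_add_cancel hij, hj]
  · left
    refine ⟨i - j, ?_⟩
    rw [← hj, ← Function.iterate_add_apply, Nat.sub_add_cancel hij, hi]

/-- children -/
def IsCh (c v : V) : Prop := c ≠ R.root ∧ R.par c = v

lemma adj_iff_ch (u v : V) : R.G.Adj u v ↔ R.IsCh u v ∨ R.IsCh v u := Iff.rfl

lemma IsCh.anc {R : RT V} {c v : V} (h : R.IsCh c v) : R.Anc v c := ⟨1, h.2⟩

lemma IsCh.ne {R : RT V} {c v : V} (h : R.IsCh c v) : c ≠ v := fun e => R.par_ne h.1 (by rw [h.2, e])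

lemma IsCh.not_anc {R : RT V} {c v : V} (h : R.IsCh c v) : ¬ R.Anc c v := fun h' =>
  h.ne (R.anc_antisymm h' h.anc)

lemma IsCh.dep {R : RT V} {c v : V} (h : R.IsCh c v) : R.dep c = R.dep v + 1 := by
  rw [← h.2]; exact R.dep_par c h.1

/-- the subtrees below two different children are disjoint -/
lemma ch_disj {c c' v u : V} (h : R.IsCh c v) (h' : R.IsCh c' v) (hu : R.Anc c u) (hu' : R.Anc c' u) :
    c = c' := by
  rcases R.anc_total hu hu' with e | e
  · rcases R.dep_anc e with e | e
    · exact e
    · have := h.dep; have := h'.dep; omega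
  · rcases R.dep_anc e with e | e
    · exact e.symm
    · have := h.dep; have := h'.dep; omega

/-- a proper descendant of `v` is below a child of `v` -/
lemma exists_ch {v u : V} (h : R.Anc v u) (hne : v ≠ u) : ∃ c, R.IsCh c v ∧ R.Anc c u := by
  obtain ⟨i, hi⟩ := h
  induction i generalizing u with
  | zero => exact absurd hi.symm hne
  | succ i ih =>
    rw [Function.iterate_succ_apply] at hi
    have hu : u ≠ R.root := by
      rintro rfl
      rw [R.par_root, R.iter_root] at hi
      exact hne hi.symm
    by_cases h1 : v = R.par u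
    · exact ⟨u, ⟨hu, h1.symm⟩, R.anc_refl _⟩
    · obtain ⟨c, hc, hcu⟩ := ih h1 hi
      exact ⟨c, hc, R.anc_of_par hcu⟩

section Fin
variable [Fintype V]

open Classical in
/-- the subtree below `v` -/
noncomputable def De (v : V) : Finset V := Finset.univ.filter (fun u => R.Anc v u)

@[simp] lemma mem_De {v u : V} : u ∈ R.De v ↔ R.Anc v u := by simp [De]

open Classical in
/-- the children of `v` -/
noncomputable def Ch (v : V) : Finset V := Finset.univ.filter (fun c => R.IsCh c v)

@[simp] lemma mem_Ch {v c : V} : c ∈ R.Ch v ↔ R.IsCh c v := by simp [Ch]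

noncomputable def sz (v : V) : ℕ := (R.De v).card

lemma sz_pos (v : V) : 0 < R.sz v := Finset.card_pos.2 ⟨v, by simp [anc_refl]⟩

lemma sz_root : R.sz R.root = Fintype.card V := by
  rw [sz, show R.De R.root = Finset.univ from by ext u; simp [R.root_anc u]]; rfl

open Classical in
lemma De_eq (v : V) : R.De v = insert v ((R.Ch v).biUnion R.De) := by
  ext u
  simp only [mem_De, Finset.mem_insert, Finset.mem_biUnion, mem_Ch]
  constructor
  · intro h
    by_cases e : v = u
    · left; exact e.symm
    · right; exact R.exists_ch h e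
  · rintro (h | ⟨c, hc, hcu⟩)
    · rw [h]; exact R.anc_refl _
    · exact R.anc_trans hc.anc hcu

lemma sz_eq (v : V) : R.sz v = 1 + ∑ c ∈ R.Ch v, R.sz c := by
  classical
  rw [sz, De_eq, Finset.card_insert_of_notMem, Finset.card_biUnion, add_comm]
  · rfl
  · intro c hc c' hc' hne
    rw [Function.onFun, Finset.disjoint_left]
    intro u hu hu'
    rw [mem_De] at hu hu'
    rw [Finset.mem_coe, mem_Ch] at hc hc'
    exact hne (R.ch_disj hc hc' hu hu')
  · simp only [Finset.mem_biUnion, mem_Ch, mem_De, not_exists, not_and]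
    intro c hc h
    exact hc.not_anc h

lemma sz_lt {c v : V} (h : R.IsCh c v) : R.sz c < R.sz v := by
  rw [R.sz_eq v]
  have := Finset.single_le_sum (f := R.sz) (fun x _ => Nat.zero_le _) (R.mem_Ch.2 h)
  omega

lemma sz_le_of_anc {v u : V} (h : R.Anc v u) : R.sz u ≤ R.sz v :=
  Finset.card_le_card (fun x hx => by rw [mem_De] at hx ⊢; exact R.anc_trans h hx)

end Fin

end RT

/-- every tree can be rooted at every vertex -/
lemma closer_unique {V : Type} {T : SimpleGraph V} (hT : T.IsTree) {f u v v' : V} (h : T.Adj u v)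
    (h' : T.Adj u v') (d : T.dist f u = T.dist f v + 1) (d' : T.dist f u = T.dist f v' + 1) : v = v' := by
  obtain ⟨q, hq, hq'⟩ := hT.connected.exists_path_of_dist f u
  have key : ∀ w, T.Adj u w → T.dist f u = T.dist f w + 1 → w = q.penultimate := by
    intro w hw dw
    obtain ⟨p, hp, hp'⟩ := hT.connected.exists_path_of_dist f w
    by_cases hu : u ∈ p.support
    · have := hT.isAcyclic.path_concat hq hp hw hu
      rw [this, q.length_concat] at hp'
      omega
    · exact hT.isAcyclic.eq_penultimate_of_adj_end hq hw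
        (hT.isAcyclic.mem_support_of_ne_mem_support_of_adj_of_isPath hq hp hw hu)
  rw [key v h d, key v' h' d']

lemma exists_closer {V : Type} {T : SimpleGraph V} (hT : T.IsTree) {f u : V} (h : u ≠ f) :
    ∃ w, T.Adj u w ∧ T.dist f u = T.dist f w + 1 := by
  obtain ⟨q, hq, hq'⟩ := hT.connected.exists_path_of_dist f u
  have hnil : ¬ q.Nil := fun hn => h hn.eq.symm
  refine ⟨q.penultimate, (q.adj_penultimate hnil).symm, ?_⟩
  rcases hT.dist_eq_dist_add_one_of_adj f (q.adj_penultimate hnil).symm with e | e
  · exact e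
  · exfalso
    have h1 : T.dist f q.penultimate ≤ q.dropLast.length := dist_le _
    have h2 : q.dropLast.length + 1 = q.length := by
      rw [Walk.length_dropLast_add_one hnil]
    omega

lemma exists_RT {V : Type} {T : SimpleGraph V} (hT : T.IsTree) (f : V) :
    ∃ R : RT V, R.root = f ∧ R.G = T := by
  classical
  have hex : ∀ u : V, ∃ w, (u = f → w = f) ∧ (u ≠ f → T.Adj u w ∧ T.dist f u = T.dist f w + 1) := by
    intro u
    by_cases h : u = f
    · exact ⟨f, fun _ => rfl, fun h' => absurd h h'⟩
    · obtain ⟨w, hw⟩ := exists_closer hT h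
      exact ⟨w, fun h' => absurd h' h, fun _ => hw⟩
  choose par hp1 hp2 using hex
  refine ⟨⟨par, f, fun u => T.dist f u, hp1 f rfl, fun v hv => (hp2 v hv).2⟩, rfl, ?_⟩
  ext u v
  rw [RT.adj_iff]
  constructor
  · rintro (⟨h1, h2⟩ | ⟨h1, h2⟩)
    · rw [← h2]; exact (hp2 u h1).1
    · rw [← h2]; exact (hp2 v h1).1.symm
  · intro h
    rcases hT.dist_eq_dist_add_one_of_adj f h with e | e
    · left
      have hu : u ≠ f := by
        rintro rfl
        rw [dist_self] at e; omega
      exact ⟨hu, closer_unique hT (hp2 u hu).1 h (hp2 u hu).2 e⟩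
    · right
      have hv : v ≠ f := by
        rintro rfl
        rw [dist_self] at e; omega
      exact ⟨hv, closer_unique hT (hp2 v hv).1 h.symm (hp2 v hv).2 e⟩

end WV
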