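import Pool.Agent.Helper29.WV.RT

/-! generic lemmas on copies of a rooted tree in a sunflower -/

namespace WV

open SimpleGraph

section pi
variable {V : Type} {a b : V} {K : Set V} {I : Type}

lemma pi_a (j : I) : pi a b K a j = none := by simp [pi]

lemma pi_b (j : I) : pi a b K b j = none := by simp [pi]

lemma pi_eq_none {u : V} {j : I} : pi a b K u j = none ↔ u = a ∨ u = b := by
  unfold pi; split_ifs <;> simp_all

lemma pi_K {u : V} {j : I} (h : u ∈ K) (h1 : u ≠ a) (h2 : u ≠ b) : pi a b K u j = some (u, none) := by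
  unfold pi; rw [if_neg (by tauto), if_pos h]

lemma pi_priv {u : V} {j : I} (ha : a ∈ K) (hb : b ∈ K) (h : u ∉ K) : pi a b K u j = some (u, some j) := by
  unfold pi
  rw [if_neg (by rintro (rfl | rfl) <;> exact h (by assumption)), if_neg h]

lemma pi_some {u v : V} {j : I} {o : Option I} (h : pi a b K u j = some (v, o)) : u = v ∧ u ≠ a ∧ u ≠ b := by
  unfold pi at h
  split_ifs at h with h1 h2
  · simp only [Option.some.injEq, Prod.mk.injEq] at h
    exact ⟨h.1, by tauto, by tauto⟩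
  · simp only [Option.some.injEq, Prod.mk.injEq] at h
    exact ⟨h.1, by tauto, by tauto⟩

/-- `pi` is injective up to kernel -/
lemma pi_inj {u v : V} {j j' : I} (h : pi a b K u j = pi a b K v j') (hu : u ≠ a) (hu' : u ≠ b) : u = v := by
  rcases hx : pi a b K u j with _ | ⟨w, o⟩
  · rw [pi_eq_none] at hx; tauto
  · rw [hx] at h
    rw [(pi_some hx).1, (pi_some h.symm).1]

lemma pi_inj_priv {u v : V} {j j' : I} (ha : a ∈ K) (hb : b ∈ K) (h : pi a b K u j = pi a b K v j')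
    (hu : u ∉ K) : u = v ∧ j = j' := by
  have h1 : u ≠ a := fun e => hu (e ▸ ha)
  have h2 : u ≠ b := fun e => hu (e ▸ hb)
  have h3 := pi_inj h h1 h2
  subst h3
  rw [pi_priv ha hb hu, pi_priv ha hb hu] at h
  simp only [Option.some.injEq, Prod.mk.injEq, true_and] at h
  exact ⟨rfl, h⟩

end pi

/-- connected sets of vertices, as an induction principle -/
def Conn {V : Type} (T : SimpleGraph V) (C : Set V) : Prop :=
  ∀ P : V → Prop, (∀ u ∈ C, ∀ v ∈ C, T.Adj u v → P u → P v) → ∀ u ∈ C, ∀ v ∈ C, P u → P v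

namespace RT
variable {V : Type} (R : RT V)

lemma conn_of_par {C : Set V} (r : V) (h : ∀ u ∈ C, u ≠ r → u ≠ R.root ∧ R.par u ∈ C)
    (hr : r ∈ C) : Conn R.G C := by
  intro P hP
  have key : ∀ n, ∀ u ∈ C, R.dep u = n → (P r ↔ P u) := by
    intro n
    induction n using Nat.strong_induction_on with
    | _ n ih =>
      intro u hu hn
      by_cases hur : u = r
      · rw [hur]
      · obtain ⟨h1, h2⟩ := h u hu hur
        have h3 := R.dep_par u h1
        rw [ih _ (by omega) _ h2 rfl]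
        exact ⟨hP _ h2 _ hu (R.adj_par h1).symm, hP _ hu _ h2 (R.adj_par h1)⟩
  intro u hu v hv hPu
  exact (key _ v hv rfl).1 ((key _ u hu rfl).2 hPu)

lemma conn_De (v : V) : Conn R.G {u | R.Anc v u} := by
  refine R.conn_of_par v ?_ (R.anc_refl v)
  intro u hu hne
  refine ⟨?_, R.anc_par hu (Ne.symm hne)⟩
  rintro rfl
  exact hne (R.anc_root_right hu).symm

lemma conn_root_De {m : V} (hm : R.IsCh m R.root) : Conn R.G (insert R.root {u | R.Anc m u}) := by
  refine R.conn_of_par R.root ?_ (Or.inl rfl)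
  intro u hu hne
  rcases hu with hu | hu
  · exact absurd hu hne
  · refine ⟨hne, ?_⟩
    by_cases e : m = u
    · left; rw [← e]; exact hm.2
    · right; exact R.anc_par hu e

lemma conn_diff {m c : V} (hc : R.IsCh c m) : Conn R.G {u | R.Anc m u ∧ ¬ R.Anc c u} := by
  refine R.conn_of_par m ?_ ⟨R.anc_refl m, hc.not_anc⟩
  intro u hu hne
  refine ⟨?_, R.anc_par hu.1 (Ne.symm hne), fun h => hu.2 (R.anc_of_par h)⟩
  rintro rfl
  exact hne (R.anc_root_right hu.1).symm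

open Classical in
/-- climb as long as the parent is not in `Z` -/
noncomputable def top (Z : Set V) (u : V) : V :=
  if h : u = R.root ∨ R.par u ∈ Z then u else top Z (R.par u)
termination_by R.dep u
decreasing_by
  have := R.dep_par u (fun e => h (Or.inl e))
  omega

variable {R}

lemma top_self {Z : Set V} {u : V} (h : u = R.root ∨ R.par u ∈ Z) : R.top Z u = u := by
  rw [top]; simp [h]

lemma top_step {Z : Set V} {u : V} (h : u ≠ R.root) (h' : R.par u ∉ Z) :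
    R.top Z u = R.top Z (R.par u) := by
  rw [top]; simp [h, h']

lemma top_anc (Z : Set V) (u : V) : R.Anc (R.top Z u) u := by
  induction hn : R.dep u using Nat.strong_induction_on generalizing u with
  | _ n ih =>
    by_cases h : u = R.root ∨ R.par u ∈ Z
    · rw [top_self h]; exact R.anc_refl u
    · push Not at h
      have h3 := R.dep_par u h.1
      rw [top_step h.1 h.2]
      exact R.anc_of_par (ih _ (by omega) _ rfl)

lemma top_spec (Z : Set V) (u : V) : R.top Z u = R.root ∨ R.par (R.top Z u) ∈ Z := by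
  induction hn : R.dep u using Nat.strong_induction_on generalizing u with
  | _ n ih =>
    by_cases h : u = R.root ∨ R.par u ∈ Z
    · rw [top_self h]; exact h
    · push Not at h
      have h3 := R.dep_par u h.1
      rw [top_step h.1 h.2]
      exact ih _ (by omega) _ rfl

lemma top_hub {Z : Set V} {u h : V} (hZ : h ∈ Z) (hu : R.Anc h u) (hne : u ≠ h) :
    R.Anc h (R.top Z u) ∧ R.top Z u ≠ h := by
  induction hn : R.dep u using Nat.strong_induction_on generalizing u with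
  | _ n ih =>
    by_cases h' : u = R.root ∨ R.par u ∈ Z
    · rw [top_self h']; exact ⟨hu, hne⟩
    · push Not at h'
      have h3 := R.dep_par u h'.1
      rw [top_step h'.1 h'.2]
      exact ih _ (by omega) (R.anc_par hu (Ne.symm hne)) (fun e => h'.2 (e ▸ hZ)) rfl

section Fin
variable [Fintype V]

open Classical in
/-- the class of `c` -/
noncomputable def cls (R : RT V) (Z : Set V) (c : V) : Finset V :=
  Finset.univ.filter (fun u => u ∉ Z ∧ R.top Z u = c)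

lemma mem_cls {Z : Set V} {c u : V} : u ∈ R.cls Z c ↔ u ∉ Z ∧ R.top Z u = c := by simp [cls]

lemma cls_subset (Z : Set V) (c : V) : R.cls Z c ⊆ R.De c := by
  intro u hu
  rw [mem_cls] at hu
  rw [mem_De, ← hu.2]
  exact top_anc Z u

lemma cls_card_le (Z : Set V) (c : V) : (R.cls Z c).card ≤ R.sz c :=
  Finset.card_le_card (cls_subset Z c)

lemma cls_card_hub {Z : Set V} {c h : V} (hZ : h ∈ Z) (hc : R.Anc c h) :
    (R.cls Z c).card + R.sz h ≤ R.sz c := by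
  classical
  have h1 : Disjoint (R.cls Z c) (R.De h) := by
    rw [Finset.disjoint_left]
    intro u hu hu'
    rw [mem_cls] at hu
    rw [mem_De] at hu'
    have h2 := top_hub hZ hu' (fun e => hu.1 (e ▸ hZ))
    rw [hu.2] at h2
    exact h2.2 (R.anc_antisymm hc h2.1)
  have h2 : R.cls Z c ∪ R.De h ⊆ R.De c := by
    intro u hu
    rcases Finset.mem_union.1 hu with hu | hu
    · exact cls_subset Z c hu
    · rw [mem_De] at hu ⊢; exact R.anc_trans hc hu
  have h3 := Finset.card_le_card h2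
  rw [Finset.card_union_of_disjoint h1] at h3
  exact h3

end Fin
end RT

section Copy
variable {V : Type} {R : RT V} {a b : V} {K : Set V} {I : Type}

lemma sun_adj {x y : Option (V × Option I)} (h : (Sun R.G a b K I).Adj x y) :
    ∃ u v j, R.G.Adj u v ∧ s(u, v) ≠ s(a, b) ∧ x = pi a b K u j ∧ y = pi a b K v j := h.2

/-- neighbours of a private vertex -/
lemma sun_adj_priv (ha : a ∈ K) (hb : b ∈ K) {u : V} {j : I} (hu : u ∉ K) {y : Option (V × Option I)}
    (h : (Sun R.G a b K I).Adj (pi a b K u j) y) : ∃ v, R.G.Adj u v ∧ y = pi a b K v j := by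
  obtain ⟨u', v, j', h1, _, h3, h4⟩ := sun_adj h
  obtain ⟨rfl, rfl⟩ := pi_inj_priv ha hb h3 hu
  exact ⟨v, h1, h4⟩

/-- neighbours of a kernel vertex -/
lemma sun_adj_K {u : V} {j : I} (h1 : u ≠ a) (h2 : u ≠ b) {y : Option (V × Option I)}
    (h : (Sun R.G a b K I).Adj (pi a b K u j) y) : ∃ v j', R.G.Adj u v ∧ y = pi a b K v j' := by
  obtain ⟨u', v, j', h3, _, h4, h5⟩ := sun_adj h
  have := pi_inj h4 h1 h2
  subst this
  exact ⟨v, j', h3, h5⟩

/-- neighbours of `w` -/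
lemma sun_adj_w (hK : Adm R.G a b K) {y : Option (V × Option I)}
    (h : (Sun R.G a b K I).Adj none y) :
    ∃ v j, (R.G.Adj a v ∨ R.G.Adj b v) ∧ v ∉ K ∧ y = pi a b K v j := by
  obtain ⟨u', v, j', h3, h6, h4, h5⟩ := sun_adj h
  have h7 := pi_eq_none.1 h4.symm
  have h8 : v ≠ a ∧ v ≠ b := by
    rcases h7 with rfl | rfl
    · exact ⟨h3.ne.symm, fun e => h6 (by rw [e])⟩
    · exact ⟨fun e => h6 (by rw [e, Sym2.eq_swap]), h3.ne.symm⟩
  have h9 : R.G.Adj a v ∨ R.G.Adj b v := by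
    rcases h7 with rfl | rfl
    · exact Or.inl h3
    · exact Or.inr h3
  refine ⟨v, j', h9, fun hv => ?_, h5⟩
  have := hK.2.2.2 v hv h8.1 h8.2
  tauto

/-- the vertices `π(Z)` -/
def InZ (a b : V) (K : Set V) (I : Type) (Z : Set V) (x : Option (V × Option I)) : Prop :=
  ∃ z ∈ Z, ∃ j : I, x = pi a b K z j

lemma inZ_none (ha : a ∈ K) {Z : Set V} (haZ : a ∈ Z) (j : I) : InZ a b K I Z none :=
  ⟨a, haZ, j, (pi_a j).symm⟩

variable (ψ : Copy R.G (Sun R.G a b K I))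

/-- all images are real vertices -/
lemma img_pi (hV : ∃ v, v ≠ R.root) (v : V) : ∃ u j, ψ v = pi a b K u j := by
  have h : ∃ v', R.G.Adj v v' := by
    by_cases hv : v = R.root
    · obtain ⟨x, hx⟩ := hV
      obtain ⟨c, hc, _⟩ := R.exists_ch (R.root_anc x) (Ne.symm hx)
      exact ⟨c, by rw [hv]; exact Or.inr hc⟩
    · exact ⟨R.par v, R.adj_par hv⟩
  obtain ⟨v', hv'⟩ := h
  obtain ⟨u, _, j, _, _, h3, _⟩ := sun_adj (ψ.toHom.map_adj hv')
  exact ⟨u, j, h3⟩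

lemma psi_adj {u v : V} (h : R.G.Adj u v) : (Sun R.G a b K I).Adj (ψ u) (ψ v) := ψ.toHom.map_adj h

lemma psi_inj {u v : V} (h : ψ u = ψ v) : u = v := ψ.injective h

/-- confinement in a private subtree -/
lemma confine (ha : a ∈ K) (hb : b ∈ K) {c : V} (hpriv : ∀ u, R.Anc c u → u ∉ K) (j : I)
    {C : Set V} (hC : Conn R.G C) (hav : ∀ v ∈ C, ψ v ≠ pi a b K (R.par c) j) {v : V} (hv : v ∈ C)
    (hv' : ∃ u, R.Anc c u ∧ ψ v = pi a b K u j) : ∀ v' ∈ C, ∃ u, R.Anc c u ∧ ψ v' = pi a b K u j := by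
  intro v' hv1
  refine hC (fun v => ∃ u, R.Anc c u ∧ ψ v = pi a b K u j) ?_ v hv v' hv1 hv'
  rintro x hx y hy hxy ⟨u, hu, hxu⟩
  have h1 := psi_adj ψ hxy
  rw [hxu] at h1
  obtain ⟨u', h2, h3⟩ := sun_adj_priv ha hb (hpriv u hu) h1
  rcases h2 with h2 | h2
  · -- u' is the parent of u
    by_cases e : c = u
    · exfalso
      apply hav y hy
      rw [h3, ← h2.2, e]
    · exact ⟨u', by rw [← h2.2]; exact R.anc_par hu e, h3⟩
  · exact ⟨u', R.anc_trans hu ⟨1, h2.2⟩, h3⟩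

lemma card_le_of_pi [Fintype V] {D : Finset V} {C : Finset V} (o : V → Option (V × Option I))
    (h : ∀ v ∈ C, ∃ u ∈ D, ψ v = o u) : C.card ≤ D.card := by
  classical
  choose! g hg using h
  refine Finset.card_le_card_of_injOn g (fun v hv => (hg v hv).1) ?_
  intro v hv v' hv' e
  apply psi_inj ψ
  rw [(hg v hv).2, (hg v' hv').2, e]

/-- coarse label -/
lemma label_coarse {Z : Set V} (haZ : a ∈ Z) (hbZ : b ∈ Z) (hV : ∃ v, v ≠ R.root) {C : Set V}
    (hC : Conn R.G C) (hav : ∀ v ∈ C, ¬ InZ a b K I Z (ψ v)) {v₀ : V} (hv₀ : v₀ ∈ C) :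
    ∃ c, ∀ v ∈ C, ∃ u j, ψ v = pi a b K u j ∧ u ∉ Z ∧ R.top Z u = c := by
  obtain ⟨u₀, j₀, h₀⟩ := img_pi ψ hV v₀
  have hu₀ : u₀ ∉ Z := fun h => hav v₀ hv₀ ⟨u₀, h, j₀, h₀⟩
  refine ⟨R.top Z u₀, fun v hv => ?_⟩
  refine hC (fun v => ∃ u j, ψ v = pi a b K u j ∧ u ∉ Z ∧ R.top Z u = R.top Z u₀) ?_ v₀ hv₀ v hv
    ⟨u₀, j₀, h₀, hu₀, rfl⟩
  rintro x hx y hy hxy ⟨u, j, h1, h2, h3⟩
  obtain ⟨p, q, k, h4, h5, h6, h7⟩ := sun_adj (psi_adj ψ hxy)
  have hp : p ∉ Z := fun h => hav x hx ⟨p, h, k, h6⟩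
  have hq : q ∉ Z := fun h => hav y hy ⟨q, h, k, h7⟩
  have hpt : R.top Z p = R.top Z q := by
    rcases h4 with h4 | h4
    · rw [RT.top_step h4.1 (by rw [h4.2]; exact hq), h4.2]
    · rw [RT.top_step (u := q) h4.1 (by rw [h4.2]; exact hp), h4.2]
  refine ⟨q, k, h7, hq, ?_⟩
  rw [← hpt, ← h3]
  rw [h6] at h1
  rw [pi_inj h1 (fun e => hp (e ▸ haZ)) (fun e => hp (e ▸ hbZ))]

/-- fine label: the part of the sunflower -/
lemma label_fine {Z : Set V} (ha : a ∈ K) (hb : b ∈ K) (haZ : a ∈ Z) (hbZ : b ∈ Z)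
    (hcl : ∀ u, u ∉ Z → u ≠ R.root → R.par u ∉ Z → (u ∈ K ↔ R.par u ∈ K))
    (hV : ∃ v, v ≠ R.root) {C : Set V}
    (hC : Conn R.G C) (hav : ∀ v ∈ C, ¬ InZ a b K I Z (ψ v)) {v₀ : V} (hv₀ : v₀ ∈ C) :
    ∃ (c : V) (o : Option I), ∀ v ∈ C, ∃ u, ψ v = some (u, o) ∧ u ∉ Z ∧ R.top Z u = c := by
  classical
  have key : ∀ v ∈ C, ∃ u j o, ψ v = pi a b K u j ∧ ψ v = some (u, o) ∧ u ∉ Z ∧
      (o = if u ∈ K then none else some j) := by
    intro v hv
    obtain ⟨u, j, h⟩ := img_pi ψ hV v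
    have hu : u ∉ Z := fun h' => hav v hv ⟨u, h', j, h⟩
    by_cases hK : u ∈ K
    · exact ⟨u, j, none, h, by rw [h, pi_K hK (fun e => hu (e ▸ haZ)) (fun e => hu (e ▸ hbZ))], hu,
        by rw [if_pos hK]⟩
    · exact ⟨u, j, some j, h, by rw [h, pi_priv ha hb hK], hu, by rw [if_neg hK]⟩
  obtain ⟨u₀, j₀, o₀, h₀, h₀', hu₀, ho₀⟩ := key v₀ hv₀
  refine ⟨R.top Z u₀, o₀, fun v hv => ?_⟩
  refine hC (fun v => ∃ u, ψ v = some (u, o₀) ∧ u ∉ Z ∧ R.top Z u = R.top Z u₀) ?_ v₀ hv₀ v hv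
    ⟨u₀, h₀', hu₀, rfl⟩
  rintro x hx y hy hxy ⟨u, h1, h2, h3⟩
  obtain ⟨p, q, k, h4, h5, h6, h7⟩ := sun_adj (psi_adj ψ hxy)
  have hp : p ∉ Z := fun h => hav x hx ⟨p, h, k, h6⟩
  have hq : q ∉ Z := fun h => hav y hy ⟨q, h, k, h7⟩
  have hpt : R.top Z p = R.top Z q ∧ (p ∈ K ↔ q ∈ K) := by
    rcases h4 with h4 | h4
    · have := hcl p hp h4.1 (by rw [h4.2]; exact hq)
      rw [h4.2] at this
      exact ⟨by rw [RT.top_step h4.1 (by rw [h4.2]; exact hq), h4.2], this⟩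
    · have := hcl q hq h4.1 (by rw [h4.2]; exact hp)
      rw [h4.2] at this
      exact ⟨by rw [RT.top_step (u := q) h4.1 (by rw [h4.2]; exact hp), h4.2], this.symm⟩
  have hpu : p = u := (pi_some (h6.symm.trans h1)).1
  subst hpu
  have hqa : q ≠ a := fun e => hq (e ▸ haZ)
  have hqb : q ≠ b := fun e => hq (e ▸ hbZ)
  have hpa : p ≠ a := fun e => hp (e ▸ haZ)
  have hpb : p ≠ b := fun e => hp (e ▸ hbZ)
  refine ⟨q, ?_, hq, by rw [← hpt.1, h3]⟩
  by_cases hqK : q ∈ K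
  · rw [h7, pi_K hqK hqa hqb]
    have := h6.symm.trans h1
    rw [pi_K (hpt.2.2 hqK) hpa hpb] at this
    simp only [Option.some.injEq, Prod.mk.injEq, true_and] at this
    rw [this]
  · rw [h7, pi_priv ha hb hqK]
    have := h6.symm.trans h1
    rw [pi_priv ha hb (fun e => hqK (hpt.2.1 e))] at this
    simp only [Option.some.injEq, Prod.mk.injEq, true_and] at this
    rw [this]

/-- size bound for connected sets avoiding `π(Z)` -/
lemma card_le_cls [Fintype V] {Z : Set V} (ha : a ∈ K) (hb : b ∈ K) (haZ : a ∈ Z) (hbZ : b ∈ Z)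
    (hcl : ∀ u, u ∉ Z → u ≠ R.root → R.par u ∉ Z → (u ∈ K ↔ R.par u ∈ K))
    (hV : ∃ v, v ≠ R.root) {C : Finset V}
    (hC : Conn R.G (C : Set V)) (hav : ∀ v ∈ C, ¬ InZ a b K I Z (ψ v)) {v₀ : V} (hv₀ : v₀ ∈ C) :
    ∃ u₀ o, ψ v₀ = some (u₀, o) ∧ u₀ ∉ Z ∧ C.card ≤ (R.cls Z (R.top Z u₀)).card ∧
      ∀ v ∈ C, ∃ u, ψ v = some (u, o) ∧ u ∉ Z ∧ R.top Z u = R.top Z u₀ := by
  obtain ⟨c, o, h⟩ := label_fine ψ ha hb haZ hbZ hcl hV hC (fun v hv => hav v (by simpa using hv))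
    (v₀ := v₀) (by simpa using hv₀)
  obtain ⟨u₀, h1, h2, h3⟩ := h v₀ (by simpa using hv₀)
  subst h3
  refine ⟨u₀, o, h1, h2, ?_, fun v hv => h v (by simpa using hv)⟩
  refine card_le_of_pi ψ (fun u => some (u, o)) (fun v hv => ?_)
  obtain ⟨u, h4, h5, h6⟩ := h v (by simpa using hv)
  exact ⟨u, RT.mem_cls.2 ⟨h5, h6⟩, h4⟩

end Copy

end WV
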