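import Pool.Agent.Helper29.WV.Gam

/-! Theorem A : a tree is good, or a star, or a caterpillar of the family -/

namespace WV

open SimpleGraph

/-- `T` is a star with at least two edges, rooted at its centre -/
def FamStar {V : Type} [Fintype V] (R : RT V) : Prop :=
  2 ≤ (R.Ch R.root).card ∧ ∀ v, v ≠ R.root → R.par v = R.root

/-- caterpillar with centre `root`, two neighbours `d, dp` with the same number `≥ 1` of leaves, and
fewer leaves at the centre -/
def FamCat {V : Type} [Fintype V] (R : RT V) (d dp : V) : Prop :=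
  R.IsCh d R.root ∧ R.IsCh dp R.root ∧ d ≠ dp ∧
  (∀ v, v ≠ R.root → R.par v = R.root ∨ R.par v = d ∨ R.par v = dp) ∧
  (R.Ch d).card = (R.Ch dp).card ∧ 1 ≤ (R.Ch d).card ∧ (R.Ch R.root).card ≤ (R.Ch d).card + 1

section
variable {V : Type} [Fintype V] {R : RT V}

lemma sz_one {c v : V} (h : R.sz c ≤ 1) (hv : R.Anc c v) : v = c := by
  classical
  by_contra hne
  have h1 : ({c, v} : Finset V) ⊆ R.De c := by
    intro x hx
    simp only [Finset.mem_insert, Finset.mem_singleton] at hx
    rw [RT.mem_De]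
    rcases hx with rfl | rfl
    · exact R.anc_refl _
    · exact hv
  have h2 := Finset.card_le_card h1
  rw [Finset.card_pair (Ne.symm hne)] at h2
  have h3 : (R.De c).card = R.sz c := rfl
  omega

lemma exists_child {c : V} (h : 2 ≤ R.sz c) : ∃ x, R.IsCh x c := by
  by_contra hcon
  push Not at hcon
  have h1 : R.Ch c = ∅ := by
    rw [Finset.eq_empty_iff_forall_notMem]
    intro x hx
    exact hcon x (R.mem_Ch.1 hx)
  have h2 := R.sz_eq c
  rw [h1] at h2
  simp at h2
  omega

omit [Fintype V] in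
/-- not good: every admissible sunflower contains `T` -/
lemma not_good {T : SimpleGraph V} (h : ¬ Good T) {a b : V} {K : Set V} (hK : Adm T a b K) :
    ∃ (I : Type), Nonempty (Copy T (Sun T a b K I)) := by
  by_contra hcon
  push Not at hcon
  apply h
  refine ⟨a, b, K, hK, fun I _ hI => ?_⟩
  have := hcon I
  exact not_isEmpty_of_nonempty _ (h := hI) this

/-- the information from depth one kernels -/
lemma depth_one {x0 y0 : V} {μ : ℕ} (hng : ¬ Good R.G) (hx : R.IsCh x0 R.root) (hy : R.IsCh y0 R.root)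
    (hxy : x0 ≠ y0) (hx0 : R.sz x0 = μ) (hy0 : R.sz y0 = μ) (hμ : 2 ≤ μ)
    (hE : ∀ c, R.IsCh c R.root → c ≠ x0 → c ≠ y0 → R.sz c < μ) :
    (R.Ch R.root).card ≤ (R.Ch x0).card + 1 ∧ Fintype.card V < 3 * μ ∧
      ∀ e, R.IsCh e R.root → e ≠ x0 → e ≠ y0 → ∃ c', R.IsCh c' x0 ∧ R.sz e ≤ R.sz c' := by
  obtain ⟨h, hh⟩ := exists_child (R := R) (c := x0) (by omega)
  have hne : h ≠ x0 := hh.ne
  obtain ⟨I, ⟨ψ⟩⟩ := not_good hng (K1_adm hx hy hxy hh.anc hne)
  obtain ⟨u, c, m, h1, h2, h3, h4, h5, h6, h7, h8⟩ := onehub hx hy hxy hh.anc hne hx0 hy0 hE ψ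
  have hc : c = h := by
    by_contra hch
    have h9 := R.anc_par h3 hch
    rw [hh.2] at h9
    have h10 := R.anc_antisymm h9 (R.anc_trans h1 h2.anc)
    subst h10
    exact h2.not_anc h1
  subst hc
  have hu : u = x0 := h2.2.symm.trans hh.2
  subst hu
  refine ⟨h5, ?_, h8⟩
  have h9 := R.sz_eq R.root
  rw [R.sz_root] at h9
  have h10 := R.sz_eq u
  have h11 := R.sz_pos c
  omega

/-- the case of two big branches -/
lemma two_big {d dp : V} {μ : ℕ} (hng : ¬ Good R.G) (hd : R.IsCh d R.root) (hdp : R.IsCh dp R.root)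
    (hne : d ≠ dp) (hdμ : R.sz d = μ) (hdpμ : R.sz dp = μ) (hμ : 2 ≤ μ)
    (hE : ∀ c, R.IsCh c R.root → c ≠ d → c ≠ dp → R.sz c < μ) {g : V} (hg : R.IsCh g d)
    (hdγ : ∀ c, R.IsCh c d → R.sz c ≤ R.sz g) (hdpγ : ∀ c, R.IsCh c dp → R.sz c ≤ R.sz g)
    (hΓ : (∃ c, R.IsCh c dp ∧ R.sz c = R.sz g) →
      ((R.Ch d).filter (fun c => R.sz c = R.sz g)).card ≤ ((R.Ch dp).filter (fun c => R.sz c = R.sz g)).card) :
    FamCat R d dp := by
  classical
  have hE' : ∀ c, R.IsCh c R.root → c ≠ dp → c ≠ d → R.sz c < μ := fun c h1 h2 h3 => hE c h1 h3 h2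
  obtain ⟨p1, p2, p3⟩ := depth_one hng hd hdp hne hdμ hdpμ hμ hE
  obtain ⟨q1, _, _⟩ := depth_one hng hdp hd hne.symm hdpμ hdμ hμ hE'
  by_cases hγ : 2 ≤ R.sz g
  · exfalso
    have hhub : ∀ c, ∃ x, Sib R d g (R.sz g) c → R.IsCh x c := by
      intro c
      by_cases hc : Sib R d g (R.sz g) c
      · obtain ⟨x, hx⟩ := exists_child (R := R) (c := c) (by rw [hc.2.2]; exact hγ)
        exact ⟨x, fun _ => hx⟩
      · exact ⟨c, fun h => absurd h hc⟩
    choose hub hhub using hhub
    have S : GamSet R d g dp (R.sz g) μ hub :=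
      ⟨hd, hdp, hne, hg, hdμ, hdpμ, rfl, hdγ, hdpγ, p2, hhub⟩
    obtain ⟨I, ⟨ψ⟩⟩ := not_good hng S.adm
    obtain ⟨m, c, hm, hc, hcγ, hcr⟩ := gam S hΓ ψ
    -- the depth two kernel
    obtain ⟨h, hh⟩ := exists_child (R := R) (c := c) (by omega)
    obtain ⟨x0, y0, hx, hy, hxy, hx0, hy0, hE2, hmx, hboth⟩ : ∃ x0 y0, R.IsCh x0 R.root ∧ R.IsCh y0 R.root ∧
        x0 ≠ y0 ∧ R.sz x0 = μ ∧ R.sz y0 = μ ∧
        (∀ c, R.IsCh c R.root → c ≠ x0 → c ≠ y0 → R.sz c < μ) ∧ m = x0 ∧
        (∀ z, (z = x0 ∨ z = y0) → (R.Ch R.root).card ≤ (R.Ch z).card + 1) := by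
      rcases hm with rfl | rfl
      · exact ⟨m, dp, hd, hdp, hne, hdμ, hdpμ, hE, rfl, fun z hz => by
          rcases hz with rfl | rfl <;> assumption⟩
      · exact ⟨m, d, hdp, hd, hne.symm, hdpμ, hdμ, hE', rfl, fun z hz => by
          rcases hz with rfl | rfl <;> assumption⟩
    subst hmx
    have hah : R.Anc m h := R.anc_trans hc.anc hh.anc
    have hneh : h ≠ m := by
      rintro rfl
      exact hc.not_anc hh.anc
    obtain ⟨I', ⟨ψ'⟩⟩ := not_good hng (K1_adm hx hy hxy hah hneh)
    obtain ⟨u, c', m', h1, h2, h3, h4, h5, h6, h7, _⟩ := onehub hx hy hxy hah hneh hx0 hy0 hE2 ψ'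
    by_cases hc'h : c' = h
    · have hu : u = c := by rw [← h2.2, hc'h]; exact hh.2
      rw [hu] at h5
      omega
    · have h9 := R.anc_par h3 hc'h
      rw [hh.2] at h9
      have hcc : c' = c := by
        by_contra hcc
        have h10 := R.anc_par h9 hcc
        rw [hc.2] at h10
        have h11 := R.anc_antisymm h10 (R.anc_trans h1 h2.anc)
        subst h11
        exact h2.not_anc h1
      have h10 := h7 hc'h
      have h11 := hboth m' h4
      rw [hcc] at h10
      omega
  · -- the family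
    have hle : ∀ c, R.IsCh c d → R.sz c ≤ 1 := fun c hc => (hdγ c hc).trans (by omega)
    have hle' : ∀ c, R.IsCh c dp → R.sz c ≤ 1 := fun c hc => (hdpγ c hc).trans (by omega)
    have hsum : ∀ x, (∀ c, R.IsCh c x → R.sz c ≤ 1) → R.sz x = 1 + (R.Ch x).card := by
      intro x hx
      rw [R.sz_eq x, Finset.sum_congr rfl (g := fun _ => 1)]
      · simp
      · intro c hc
        have h1 := hx c (R.mem_Ch.1 hc)
        have h2 := R.sz_pos c
        omega
    have h1 := hsum d hle
    have h2 := hsum dp hle'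
    refine ⟨hd, hdp, hne, ?_, by omega, ?_, p1⟩
    · intro v hv
      obtain ⟨e, he, hev⟩ := R.exists_ch (R.root_anc v) (Ne.symm hv)
      by_cases h3 : e = d
      · subst h3
        by_cases h4 : e = v
        · left; rw [← h4]; exact he.2
        · obtain ⟨c, hc, hcv⟩ := R.exists_ch hev h4
          right; left
          rw [sz_one (hle c hc) hcv]; exact hc.2
      · by_cases h4 : e = dp
        · subst h4
          by_cases h5 : e = v
          · left; rw [← h5]; exact he.2
          · obtain ⟨c, hc, hcv⟩ := R.exists_ch hev h5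
            right; right
            rw [sz_one (hle' c hc) hcv]; exact hc.2
        · left
          obtain ⟨c', h5, h6⟩ := p3 e he h3 h4
          rw [sz_one (h6.trans (hle c' h5)) hev]
          exact he.2
    · exact Finset.card_pos.2 ⟨g, R.mem_Ch.2 hg⟩

theorem thmA {T : SimpleGraph V} (hT : T.IsTree) (hn : 2 ≤ Fintype.card V) (hng : ¬ Good T) :
    ∃ R : RT V, R.G = T ∧ (FamStar R ∨ ∃ d dp, FamCat R d dp) := by
  classical
  -- the centroid
  set ν : V → ℕ := fun x =>
    (Finset.univ.filter (fun C : Finset V => x ∉ C ∧ Conn T (C : Set V))).sup Finset.card with hν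
  obtain ⟨x0⟩ : Nonempty V := Fintype.card_pos_iff.1 (by omega)
  obtain ⟨f, _, hf⟩ := Finset.exists_min_image Finset.univ ν ⟨x0, Finset.mem_univ _⟩
  obtain ⟨R, hRf, hRG⟩ := exists_RT hT f
  subst hRG
  have hroot : ∃ v, v ≠ R.root := by
    by_contra hcon
    push Not at hcon
    have := Fintype.card_le_one_iff.2 (fun a b => (hcon a).trans (hcon b).symm)
    omega
  have hChne : (R.Ch R.root).Nonempty := by
    obtain ⟨v, hv⟩ := hroot
    obtain ⟨c, hc, _⟩ := R.exists_ch (R.root_anc v) (Ne.symm hv)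
    exact ⟨c, R.mem_Ch.2 hc⟩
  obtain ⟨d0, hd0, hmax⟩ := Finset.exists_max_image (R.Ch R.root) R.sz hChne
  set μ := R.sz d0 with hμ
  have hmin : ∀ x : V, ∃ C : Finset V, x ∉ C ∧ Conn R.G (C : Set V) ∧ μ ≤ C.card := by
    intro x
    have h1 : μ ≤ ν f := by
      have h2 : R.De d0 ∈ Finset.univ.filter (fun C : Finset V => f ∉ C ∧ Conn R.G (C : Set V)) := by
        rw [Finset.mem_filter]
        refine ⟨Finset.mem_univ _, ?_, ?_⟩
        · rw [RT.mem_De, ← hRf]; exact (R.mem_Ch.1 hd0).not_anc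
        · have := R.conn_De d0
          convert this using 1
          ext u; simp
      exact Finset.le_sup (f := Finset.card) h2
    have h2 : μ ≤ ν x := h1.trans (hf x (Finset.mem_univ _))
    have h3 : (Finset.univ.filter (fun C : Finset V => x ∉ C ∧ Conn R.G (C : Set V))).Nonempty := by
      refine ⟨∅, ?_⟩
      rw [Finset.mem_filter]
      refine ⟨Finset.mem_univ _, by simp, ?_⟩
      intro P _ u hu
      simp at hu
    obtain ⟨C, hC, hC'⟩ := Finset.exists_mem_eq_sup _ h3 Finset.card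
    rw [Finset.mem_filter] at hC
    exact ⟨C, hC.2.1, hC.2.2, by rw [← hC']; exact h2⟩
  refine ⟨R, rfl, ?_⟩
  -- star
  by_cases hμ1 : μ ≤ 1
  · left
    have hleaf : ∀ v, v ≠ R.root → R.par v = R.root := by
      intro v hv
      obtain ⟨e, he, hev⟩ := R.exists_ch (R.root_anc v) (Ne.symm hv)
      rw [sz_one ((hmax e (R.mem_Ch.2 he)).trans hμ1) hev]
      exact he.2
    refine ⟨?_, hleaf⟩
    by_contra hcard
    -- one child only: then T is K_2, which is good
    apply hng
    have hd0' := R.mem_Ch.1 hd0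
    refine ⟨R.root, d0, {R.root, d0}, ⟨Or.inr hd0', by simp, by simp, ?_⟩, ?_⟩
    · intro u hu h1 h2
      simp only [Set.mem_insert_iff, Set.mem_singleton_iff] at hu
      tauto
    · rintro I _ ⟨ψ⟩
      refine single hd0' rfl ?_ hmin ψ
      intro c hc hcd
      exfalso
      apply hcard
      have h1 : ({c, d0} : Finset V) ⊆ R.Ch R.root := by
        intro x hx
        simp only [Finset.mem_insert, Finset.mem_singleton] at hx
        rcases hx with rfl | rfl
        · exact R.mem_Ch.2 hc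
        · exact hd0
      have h2 := Finset.card_le_card h1
      rwa [Finset.card_pair hcd] at h2
  · have hμ2 : 2 ≤ μ := by omega
    right
    set M := (R.Ch R.root).filter (fun c => R.sz c = μ) with hM
    have hMmem : ∀ m, m ∈ M ↔ R.IsCh m R.root ∧ R.sz m = μ := by
      intro m; rw [hM, Finset.mem_filter, RT.mem_Ch]
    have hd0M : d0 ∈ M := (hMmem d0).2 ⟨R.mem_Ch.1 hd0, rfl⟩
    have hEM : ∀ c, R.IsCh c R.root → c ∉ M → R.sz c < μ := by
      intro c hc hcM
      rcases lt_or_eq_of_le (hmax c (R.mem_Ch.2 hc)) with h | h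
      · exact h
      · exact absurd ((hMmem c).2 ⟨hc, h⟩) hcM
    by_cases h1 : M.card ≤ 1
    · exfalso
      apply hng
      have hd0' := R.mem_Ch.1 hd0
      refine ⟨R.root, d0, {R.root, d0}, ⟨Or.inr hd0', by simp, by simp, ?_⟩, ?_⟩
      · intro u hu h1 h2
        simp only [Set.mem_insert_iff, Set.mem_singleton_iff] at hu
        tauto
      · rintro I _ ⟨ψ⟩
        refine single hd0' rfl ?_ hmin ψ
        intro c hc hcd
        apply hEM c hc
        intro hcM
        exact hcd (Finset.card_le_one.1 h1 c hcM d0 hd0M)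
    · by_cases h3 : 3 ≤ M.card
      · exfalso
        apply hng
        have hg : ∀ m, ∃ g, m ∈ M → R.IsCh g m := by
          intro m
          by_cases hm : m ∈ M
          · obtain ⟨x, hx⟩ := exists_child (R := R) (c := m) (by rw [((hMmem m).1 hm).2]; exact hμ2)
            exact ⟨x, fun _ => hx⟩
          · exact ⟨m, fun h => absurd h hm⟩
        choose g hg using hg
        refine ⟨R.root, d0, KM R M d0 g, KM_adm (fun m hm => ((hMmem m).1 hm).1) hd0M
          (fun m hm _ => hg m hm), ?_⟩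
        rintro I _ ⟨ψ⟩
        exact multihub (fun m hm => ((hMmem m).1 hm).1) hd0M (fun m hm _ => hg m hm)
          (fun m hm => ((hMmem m).1 hm).2) hEM h3 ψ
      · have h2 : M.card = 2 := by omega
        obtain ⟨d1, d2, hne, hM12⟩ := Finset.card_eq_two.1 h2
        have hd1 := (hMmem d1).1 (by rw [hM12]; simp)
        have hd2 := (hMmem d2).1 (by rw [hM12]; simp)
        have hE : ∀ c, R.IsCh c R.root → c ≠ d1 → c ≠ d2 → R.sz c < μ := by
          intro c hc h4 h5
          apply hEM c hc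
          rw [hM12]
          simp [h4, h5]
        have hE' : ∀ c, R.IsCh c R.root → c ≠ d2 → c ≠ d1 → R.sz c < μ := fun c h1 h2 h3 => hE c h1 h3 h2
        have hch : ∀ m, R.sz m = μ → ∃ g, R.IsCh g m ∧ ∀ c, R.IsCh c m → R.sz c ≤ R.sz g := by
          intro m hm
          obtain ⟨x, hx⟩ := exists_child (R := R) (c := m) (by rw [hm]; exact hμ2)
          obtain ⟨g, hg1, hg2⟩ := Finset.exists_max_image (R.Ch m) R.sz ⟨x, R.mem_Ch.2 hx⟩
          exact ⟨g, R.mem_Ch.1 hg1, fun c hc => hg2 c (R.mem_Ch.2 hc)⟩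
        obtain ⟨g1, hg1, hg1'⟩ := hch d1 hd1.2
        obtain ⟨g2, hg2, hg2'⟩ := hch d2 hd2.2
        rcases lt_trichotomy (R.sz g1) (R.sz g2) with hlt | heq | hlt
        · refine ⟨d2, d1, two_big hng hd2.1 hd1.1 hne.symm hd2.2 hd1.2 hμ2 hE' hg2 hg2'
            (fun c hc => (hg1' c hc).trans hlt.le) ?_⟩
          rintro ⟨c, hc, hc'⟩
          have := hg1' c hc
          omega
        · by_cases hcnt : ((R.Ch d1).filter (fun c => R.sz c = R.sz g1)).card ≤
              ((R.Ch d2).filter (fun c => R.sz c = R.sz g1)).card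
          · exact ⟨d1, d2, two_big hng hd1.1 hd2.1 hne hd1.2 hd2.2 hμ2 hE hg1 hg1'
              (fun c hc => by rw [heq]; exact hg2' c hc) (fun _ => hcnt)⟩
          · refine ⟨d2, d1, two_big hng hd2.1 hd1.1 hne.symm hd2.2 hd1.2 hμ2 hE' hg2 hg2'
              (fun c hc => by rw [← heq]; exact hg1' c hc) (fun _ => ?_)⟩
            rw [← heq]
            omega
        · refine ⟨d1, d2, two_big hng hd1.1 hd2.1 hne hd1.2 hd2.2 hμ2 hE hg1 hg1'
            (fun c hc => (hg2' c hc).trans hlt.le) ?_⟩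
          rintro ⟨c, hc, hc'⟩
          have := hg2' c hc
          omega

end

end WV
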